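import Pool.Agent.Helper81_S1S3.WNum

/-!
# The classes of the necks
-/

set_option autoImplicit false
set_option linter.unusedSectionVars false

open scoped Manifold Topology unitInterval
open CategoryTheory Set

noncomputable section

namespace Pool.Agent.S1S3

/-! ### symmetrization of functions supported near a puncture -/

/-- sum over the deck group of the piece -/
def symF {p : ℕ} (hp : p = 2 ∨ p = 3) (q : ℤ) (T : ℤ → C(ℝ × Punc p 0, ℝ)) (k : ℤ) :
    C(ℝ × Punc p 0, ℝ) :=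
  ∑ n ∈ Finset.range p, (T (k + q * n)).comp ((ContinuousMap.id ℝ).prodMap (rz p hp (-n)))

theorem symF_apply {p : ℕ} (hp : p = 2 ∨ p = 3) (q : ℤ) (T : ℤ → C(ℝ × Punc p 0, ℝ)) (k : ℤ)
    (s : ℝ) (x : Punc p 0) :
    symF hp q T k (s, x) = ∑ n ∈ Finset.range p, T (k + q * n) (s, rz p hp (-n) x) := by
  unfold symF
  rw [ContinuousMap.sum_apply]
  rfl

theorem rz_one_sub {p : ℕ} (hp : p = 2 ∨ p = 3) (x : Punc p 0) :
    rz p hp (1 - p) x = rz p hp 1 x := by
  apply punc_ext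
  rw [rz_coe, rz_coe]
  have hp0 : (p : ℝ) ≠ 0 := by rcases hp with rfl | rfl <;> norm_num
  have h : ee (((1 - (p : ℤ) : ℤ) : ℝ) / p) = ee (((1 : ℤ) : ℝ) / p) := by
    rw [ee_eq_iff]
    refine ⟨-1, ?_⟩
    push_cast
    field_simp
    ring
  rw [h]

theorem symF_per {p : ℕ} (hp : p = 2 ∨ p = 3) (q : ℤ) (hpq : (p : ℤ) * q = 6)
    (T : ℤ → C(ℝ × Punc p 0, ℝ)) (hT : ∀ i, T (i + 6) = T i) (k : ℤ) (s : ℝ) (x : Punc p 0) :
    symF hp q T (k + q) (s, x) = symF hp q T k (s, rz p hp 1 x) := by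
  rw [symF_apply, symF_apply]
  set t : ℕ → ℝ := fun n => T (k + q * n) (s, rz p hp (1 - n) x) with ht
  have h1 : ∑ n ∈ Finset.range p, T (k + q + q * n) (s, rz p hp (-n) x) =
      ∑ n ∈ Finset.range p, t (n + 1) := by
    refine Finset.sum_congr rfl fun n _ => ?_
    simp only [ht]
    have e1 : k + q + q * (n : ℤ) = k + q * ((n + 1 : ℕ) : ℤ) := by
      push_cast
      ring
    have e2 : (-(n : ℤ)) = 1 - ((n + 1 : ℕ) : ℤ) := by
      push_cast
      ring
    rw [e1, e2]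
  have h2 : ∑ n ∈ Finset.range p, T (k + q * n) (s, rz p hp (-n) (rz p hp 1 x)) =
      ∑ n ∈ Finset.range p, t n := by
    refine Finset.sum_congr rfl fun n _ => ?_
    simp only [ht]
    rw [rz_add]
    congr 3
    ring
  rw [h1, h2]
  have h3 := Finset.sum_range_succ' t p
  have h4 := Finset.sum_range_succ t p
  have h5 : t p = t 0 := by
    simp only [ht]
    have h6 : k + q * (p : ℤ) = k + 6 := by
      rw [← hpq]
      ring
    rw [h6, hT, rz_one_sub]
    simp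
  linarith

theorem rz_neg_le {p : ℕ} (hp : p = 2 ∨ p = 3) (n : ℕ) (h1 : 1 ≤ n) (h2 : n < p) (b : N0) :
    ((rz p hp (-n) (sgp p hp b)).1 : Eu 3) 0 ≤ 1 / 2 := by
  rw [rz_coe, rot3_zero]
  have h3 : (ee (((-(n : ℤ) : ℤ) : ℝ) / p) : ℂ).re ≤ 0 := by
    rw [ee_re]
    have h4 : 2 * Real.pi * (((-(n : ℤ) : ℤ) : ℝ) / p) = -(2 * Real.pi * (n / p)) := by
      push_cast
      ring
    rw [h4, Real.cos_neg]
    have hpi := Real.pi_pos
    rcases hp with rfl | rfl
    · have hn : n = 1 := by omega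
      subst hn
      apply Real.cos_nonpos_of_pi_div_two_le_of_le <;> push_cast <;> linarith
    · have hn : n = 1 ∨ n = 2 := by omega
      rcases hn with rfl | rfl
      · apply Real.cos_nonpos_of_pi_div_two_le_of_le <;> push_cast <;> linarith
      · apply Real.cos_nonpos_of_pi_div_two_le_of_le <;> push_cast <;> linarith
  have h5 : 0 ≤ ((sgp p hp b).1 : Eu 3) 0 := Real.sqrt_nonneg _
  have h6 : |(ee (((-(n : ℤ) : ℤ) : ℝ) / p) : ℂ).im| ≤ 1 := by
    have := Complex.abs_im_le_norm (ee (((-(n : ℤ) : ℤ) : ℝ) / p) : ℂ)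
    rwa [Circle.norm_coe] at this
  have h7 : |((sgp p hp b).1 : Eu 3) 1| ≤ 1 / 2 := by
    show |(b : Eu 2) 0| ≤ 1 / 2
    have h8 := norm2 (b : Eu 2)
    have h9 := b.2.2
    have h10 := b.2.1
    rw [abs_le]
    constructor <;> nlinarith [sq_nonneg ((b : Eu 2) 1)]
  have h8 : |(ee (((-(n : ℤ) : ℤ) : ℝ) / p) : ℂ).im * ((sgp p hp b).1 : Eu 3) 1| ≤ 1 / 2 := by
    rw [abs_mul]
    calc _ ≤ 1 * (1 / 2 : ℝ) := mul_le_mul h6 h7 (abs_nonneg _) zero_le_one
      _ = 1 / 2 := one_mul _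
  have h9 := (abs_le.1 h8).1
  have h10 : (ee (((-(n : ℤ) : ℤ) : ℝ) / p) : ℂ).re * ((sgp p hp b).1 : Eu 3) 0 ≤ 0 :=
    mul_nonpos_of_nonpos_of_nonneg h3 h5
  linarith

theorem symF_neck {p : ℕ} (hp : p = 2 ∨ p = 3) (q : ℤ) (T : ℤ → C(ℝ × Punc p 0, ℝ))
    (hv : ∀ i s (y : Punc p 0), (y.1 : Eu 3) 0 ≤ 1 / 2 → T i (s, y) = 0) (k : ℤ) (s : ℝ)
    (b : N0) : symF hp q T k (s, sgp p hp b) = T k (s, sgp p hp b) := by
  rw [symF_apply, Finset.sum_eq_single 0]
  · simp only [Nat.cast_zero, mul_zero, add_zero, neg_zero]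
    rw [rz_zero]
  · intro n hn hn0
    apply hv
    exact rz_neg_le hp n (Nat.one_le_iff_ne_zero.2 hn0) (Finset.mem_range.1 hn) b
  · intro h
    exfalso
    apply h
    rw [Finset.mem_range]
    rcases hp with rfl | rfl <;> norm_num

/-! ### the cut off function -/

/-- the radial cut off function -/
def kr (r : ℝ) : ℝ := max 0 (min 1 (4 * r - 1 / 2))

theorem kr_nonneg (r : ℝ) : 0 ≤ kr r := le_max_left _ _

theorem kr_le_one (r : ℝ) : kr r ≤ 1 := max_le zero_le_one (min_le_left _ _)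

theorem kr_add (r : ℝ) : kr r + kr (1 / 2 - r) = 1 := by
  unfold kr
  rcases le_total (4 * r - 1 / 2) 0 with h1 | h1
  · rw [max_eq_left ((min_le_right _ _).trans h1), min_eq_left (by linarith),
      max_eq_right zero_le_one]
    norm_num
  · rcases le_total 1 (4 * r - 1 / 2) with h2 | h2
    · rw [min_eq_left h2, max_eq_right zero_le_one,
        max_eq_left ((min_le_right _ _).trans (by linarith))]
      norm_num
    · rw [min_eq_right h2, max_eq_right h1, min_eq_right (by linarith),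
        max_eq_right (by linarith)]
      ring

@[fun_prop]
theorem continuous_kr : Continuous kr := by
  unfold kr
  fun_prop

/-- the cut off function on the sphere -/
def kap (x : Eu 3) : ℝ := kr (Real.sqrt (1 - (max (x 0) 0) ^ 2))

@[fun_prop]
theorem continuous_kap : Continuous kap := by
  unfold kap
  fun_prop

theorem kap_sg (b : N0) : kap (sg (b : Eu 2)) = kr ‖(b : Eu 2)‖ := by
  unfold kap
  have h1 := b.2.1
  have h2 := b.2.2
  rw [sg3_zero, max_eq_left (Real.sqrt_nonneg _), Real.sq_sqrt (by nlinarith)]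
  have h3 : 1 - (1 - ‖(b : Eu 2)‖ ^ 2) = ‖(b : Eu 2)‖ ^ 2 := by ring
  rw [h3, Real.sqrt_sq h1.le]

theorem kap_eq_one {x : Eu 3} (h : x 0 ≤ 9 / 10) : kap x = 1 := by
  unfold kap kr
  have h1 : max (x 0) 0 ≤ 9 / 10 := max_le h (by norm_num)
  have h2 : 0 ≤ max (x 0) 0 := le_max_right _ _
  have h3 : 3 / 8 ≤ Real.sqrt (1 - (max (x 0) 0) ^ 2) := by
    apply Real.le_sqrt_of_sq_le
    nlinarith
  rw [min_eq_left (by linarith), max_eq_right zero_le_one]

variable {Y : Type} [TopologicalSpace Y] {φ : C(Y, Circle)}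

/-- a family of logarithms with jumps in `2 π ℤ` defines a function -/
theorem exists_of_logs (G : Cov φ) (L : Fam ℝ) (d : ℤ → ℤ)
    (h : ∀ k q, L.FA k (nA q) - L.FB k (nB k q) = 2 * Real.pi * d k) :
    ∃ f : C(Yt φ, Circle), (∀ k x, f (G.A.cP k x) = Circle.exp (L.FA k x)) ∧
      ∀ k x, f (G.B.cP k x) = Circle.exp (L.FB k x) := by
  refine G.desc (T := Circle) ⟨fun k => Circle.exp.comp (L.FA k), fun k => Circle.exp.comp (L.FB k),
    ?_, ?_⟩ ?_
  · intro k s x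
    simp only [ContinuousMap.comp_apply]
    rw [L.perA]
  · intro k s x
    simp only [ContinuousMap.comp_apply]
    rw [L.perB]
  · intro k q
    simp only [ContinuousMap.comp_apply]
    have h1 : L.FA k (nA q) = L.FB k (nB k q) + d k * (2 * Real.pi) := by
      have := h k q
      linarith
    rw [h1, Circle.exp_add, Circle.exp_int_mul_two_pi, mul_one]

/-- indicator of a residue class -/
def dl81 (j : ZMod 6) (k : ℤ) : ℤ := if (k : ZMod 6) = j then 1 else 0

theorem dl_add (j : ZMod 6) (k : ℤ) : dl81 j (k + 6) = dl81 j k := by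
  unfold dl81
  have : ((k + 6 : ℤ) : ZMod 6) = (k : ZMod 6) := by
    push_cast
    have h : (6 : ZMod 6) = 0 := by decide
    rw [h, add_zero]
  rw [this]

/-- the logarithm of the class of the neck in the first piece -/
def tA (j : ZMod 6) (i : ℤ) : C(ℝ × Punc 2 0, ℝ) :=
  ⟨fun q => dl81 j i * (2 * Real.pi * (kap (q.2.1 : Eu 3) - 1)), by fun_prop⟩

/-- the logarithm of the class of the neck in the second piece -/
def tB (j : ZMod 6) (i : ℤ) : C(ℝ × Punc 3 0, ℝ) :=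
  ⟨fun q => dl81 j i * (2 * Real.pi * (1 - kap (q.2.1 : Eu 3))), by fun_prop⟩

theorem tA_apply (j : ZMod 6) (i : ℤ) (q : ℝ × Punc 2 0) :
    tA j i q = dl81 j i * (2 * Real.pi * (kap (q.2.1 : Eu 3) - 1)) := rfl

theorem tB_apply (j : ZMod 6) (i : ℤ) (q : ℝ × Punc 3 0) :
    tB j i q = dl81 j i * (2 * Real.pi * (1 - kap (q.2.1 : Eu 3))) := rfl

theorem tA_add (j : ZMod 6) (i : ℤ) : tA j (i + 6) = tA j i := by
  ext q
  rw [tA_apply, tA_apply, dl_add]

theorem tB_add (j : ZMod 6) (i : ℤ) : tB j (i + 6) = tB j i := by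
  ext q
  rw [tB_apply, tB_apply, dl_add]

/-- the logarithms of the class of a neck -/
def alphaL (j : ZMod 6) : Fam ℝ where
  FA := symF h22 3 (tA j)
  FB := symF h33 2 (tB j)
  perA := symF_per h22 3 (by norm_num) (tA j) (tA_add j)
  perB := symF_per h33 2 (by norm_num) (tB j) (tB_add j)

theorem alphaL_FA_neck (j : ZMod 6) (k : ℤ) (q : ℝ × N0) :
    (alphaL j).FA k (nA q) = dl81 j k * (2 * Real.pi * (kr ‖(q.2 : Eu 2)‖ - 1)) := by
  show symF h22 3 (tA j) k (q.1, sgp 2 h22 q.2) = _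
  rw [symF_neck]
  · rw [tA_apply]
    have : kap (((sgp 2 h22 q.2).1 : Sn 2) : Eu 3) = kr ‖(q.2 : Eu 2)‖ := kap_sg q.2
    rw [this]
  · intro i s y hy
    rw [tA_apply]
    simp only
    rw [kap_eq_one (by linarith)]
    ring

theorem alphaL_FB_neck' (j : ZMod 6) (k : ℤ) (s : ℝ) (b : N0) :
    (alphaL j).FB k (s, sgp 3 h33 b) = dl81 j k * (2 * Real.pi * (1 - kr ‖(b : Eu 2)‖)) := by
  show symF h33 2 (tB j) k (s, sgp 3 h33 b) = _
  rw [symF_neck]
  · rw [tB_apply]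
    have : kap (((sgp 3 h33 b).1 : Sn 2) : Eu 3) = kr ‖(b : Eu 2)‖ := kap_sg b
    rw [this]
  · intro i s y hy
    rw [tB_apply]
    simp only
    rw [kap_eq_one (by linarith)]
    ring

theorem alphaL_FB_neck (j : ZMod 6) (k : ℤ) (q : ℝ × N0) :
    (alphaL j).FB k (nB k q) = dl81 j k * (2 * Real.pi * kr ‖(q.2 : Eu 2)‖) := by
  rw [nB_apply, alphaL_FB_neck', norm_twb]
  have := kr_add ‖(q.2 : Eu 2)‖
  have h : 1 - kr (1 / 2 - ‖(q.2 : Eu 2)‖) = kr ‖(q.2 : Eu 2)‖ := by linarith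
  rw [h]

theorem alphaL_jump (j : ZMod 6) (k : ℤ) (q : ℝ × N0) :
    (alphaL j).FA k (nA q) - (alphaL j).FB k (nB k q) = 2 * Real.pi * ((-dl81 j k : ℤ) : ℝ) := by
  rw [alphaL_FA_neck, alphaL_FB_neck]
  push_cast
  ring

/-- the class of a neck -/
def alphaF (G : Cov φ) (j : ZMod 6) : C(Yt φ, Circle) :=
  (exists_of_logs G (alphaL j) (fun k => -dl81 j k) (alphaL_jump j)).choose

theorem alphaF_A (G : Cov φ) (j : ZMod 6) (k : ℤ) (x : ℝ × Punc 2 0) :
    alphaF G j (G.A.cP k x) = Circle.exp ((alphaL j).FA k x) :=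
  (exists_of_logs G (alphaL j) (fun k => -dl81 j k) (alphaL_jump j)).choose_spec.1 k x

theorem alphaF_B (G : Cov φ) (j : ZMod 6) (k : ℤ) (x : ℝ × Punc 3 0) :
    alphaF G j (G.B.cP k x) = Circle.exp ((alphaL j).FB k x) :=
  (exists_of_logs G (alphaL j) (fun k => -dl81 j k) (alphaL_jump j)).choose_spec.2 k x

theorem hasD_alphaF (G : Cov φ) (j : ZMod 6) : HasD G (alphaF G j) (fun k => -dl81 j k) :=
  ⟨alphaL j, alphaF_A G j, alphaF_B G j, alphaL_jump j⟩

end Pool.Agent.S1S3
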