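import Pool.Agent.Helper81_S1S3.Six

/-!
# The second circle-valued function: winding numbers of explicit functions on the pieces
-/

set_option autoImplicit false
set_option linter.unusedSectionVars false

open scoped Manifold Topology unitInterval
open CategoryTheory Set

noncomputable section

namespace Pool.Agent.S1S3

/-! ### normalization -/

/-- normalization of a nowhere vanishing complex function -/
def unitC {X : Type} [TopologicalSpace X] (f : C(X, ℂ)) (h : ∀ x, f x ≠ 0) : C(X, Circle) :=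
  ⟨fun x => ⟨f x / (‖f x‖ : ℂ), by
    refine mem_sphere_zero_iff_norm.2 ?_
    rw [norm_div, Complex.norm_real, norm_norm, div_self (norm_ne_zero_iff.2 (h x))]⟩, by
    refine Continuous.subtype_mk ?_ _
    refine Continuous.div (by fun_prop) (by fun_prop) fun x => ?_
    exact_mod_cast (norm_ne_zero_iff.2 (h x))⟩

theorem unitC_eq {X : Type} [TopologicalSpace X] (f : C(X, ℂ)) (h : ∀ x, f x ≠ 0) (x : X)
    (z : Circle) (r : ℝ) (hr : 0 < r) (hz : f x = r * (z : ℂ)) : unitC f h x = z := by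
  apply Circle.ext
  show f x / (‖f x‖ : ℂ) = z
  have h1 : ‖f x‖ = r := by
    rw [hz, norm_mul, Circle.norm_coe, mul_one, Complex.norm_real, Real.norm_eq_abs,
      abs_of_pos hr]
  rw [h1, hz, mul_div_cancel_left₀]
  exact_mod_cast hr.ne'

theorem unitC_congr {X X' : Type} [TopologicalSpace X] [TopologicalSpace X'] (f : C(X, ℂ))
    (h : ∀ x, f x ≠ 0) (f' : C(X', ℂ)) (h' : ∀ x, f' x ≠ 0) (x : X) (x' : X')
    (he : f x = f' x') : unitC f h x = unitC f' h' x' := by
  apply Circle.ext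
  show f x / (‖f x‖ : ℂ) = f' x' / (‖f' x'‖ : ℂ)
  rw [he]

/-! ### the function on the sphere with two punctures -/

/-- `x₁ + i x₂` -/
def g2 : C(Punc 2 0, ℂ) := ⟨fun x => (((x.1 : Eu 3) 1 : ℝ) : ℂ) +
  (((x.1 : Eu 3) 2 : ℝ) : ℂ) * Complex.I, by fun_prop⟩

theorem g2_ne (x : Punc 2 0) : g2 x ≠ 0 := by
  intro h
  have h1 : (x.1 : Eu 3) 1 = 0 := by
    have := congrArg Complex.re h
    simpa [g2] using this
  have h2 : (x.1 : Eu 3) 2 = 0 := by
    have := congrArg Complex.im h
    simpa [g2] using this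
  have h3 := norm3 (x.1 : Eu 3)
  rw [norm_eq_of_mem_sphere, h1, h2] at h3
  have h4 : ((x.1 : Eu 3) 0 - 1) * ((x.1 : Eu 3) 0 + 1) = 0 := by linarith
  rcases mul_eq_zero.1 h4 with h5 | h5
  · refine x.2 1 (one_pow _) ?_
    apply eu3_ext
    · rw [core_zero, Circle.coe_one, Complex.one_re]
      linarith
    · rw [core_one, Circle.coe_one, Complex.one_im, h1]
    · rw [core_two, h2]
  · have hpi : ee (1 / 2) ^ 2 = 1 := by
      rw [ee_pow]
      have : ((2 : ℕ) : ℝ) * (1 / 2) = ((1 : ℤ) : ℝ) := by norm_num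
      rw [this, ee_int]
    refine x.2 (ee (1 / 2)) hpi ?_
    have h6 : 2 * Real.pi * (1 / 2) = Real.pi := by ring
    apply eu3_ext
    · rw [core_zero, ee_re, h6, Real.cos_pi]
      linarith
    · rw [core_one, ee_im, h6, Real.sin_pi, h1]
    · rw [core_two, h2]

/-- the angular function on the sphere with two punctures -/
def eta2 : C(Punc 2 0, Circle) := unitC g2 g2_ne

theorem eta2_sgp (b : N0) : eta2 (sgp 2 h22 b) = etaN b := by
  apply unitC_eq (r := ‖(b : Eu 2)‖) (hr := b.2.1)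
  have h := b.2.1.ne'
  show (((b : Eu 2) 0 : ℝ) : ℂ) + (((b : Eu 2) 1 : ℝ) : ℂ) * Complex.I = _
  apply Complex.ext
  · rw [Complex.re_ofReal_mul, etaN_re]
    simp only [Complex.add_re, Complex.ofReal_re, Complex.mul_re, Complex.I_re, mul_zero,
      Complex.ofReal_im, Complex.I_im, mul_one, sub_self, add_zero]
    field_simp
  · rw [Complex.im_ofReal_mul, etaN_im]
    simp only [Complex.add_im, Complex.ofReal_im, Complex.mul_im, Complex.I_im, mul_one,
      Complex.ofReal_re, Complex.I_re, mul_zero, zero_add, add_zero]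
    field_simp

/-! ### the function on the sphere with three punctures -/

/-- `(x₁ - g(x₀)) + i x₂` -/
def gv (x : Eu 3) : ℂ := ((x 1 - Real.sqrt 3 / 2 * max 0 (1 / 2 - x 0) : ℝ) : ℂ) +
  ((x 2 : ℝ) : ℂ) * Complex.I

@[fun_prop]
theorem continuous_gv : Continuous gv := by
  unfold gv
  fun_prop

theorem gv_re (x : Eu 3) : (gv x).re = x 1 - Real.sqrt 3 / 2 * max 0 (1 / 2 - x 0) := by
  simp [gv]

theorem gv_im (x : Eu 3) : (gv x).im = x 2 := by
  simp [gv]

theorem ee_third_re : (ee (1 / 3) : ℂ).re = -(1 / 2) := by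
  rw [ee_re]
  have : 2 * Real.pi * (1 / 3) = Real.pi - Real.pi / 3 := by ring
  rw [this, Real.cos_pi_sub, Real.cos_pi_div_three]

theorem ee_third_im : (ee (1 / 3) : ℂ).im = Real.sqrt 3 / 2 := by
  rw [ee_im]
  have : 2 * Real.pi * (1 / 3) = Real.pi - Real.pi / 3 := by ring
  rw [this, Real.sin_pi_sub, Real.sin_pi_div_three]

theorem gv_ne {x : Eu 3} (hx : ‖x‖ = 1) (h1 : x ≠ core 1) (h2 : x ≠ core (ee (1 / 3))) :
    gv x ≠ 0 := by
  intro h
  have hr := congrArg Complex.re h
  have hi := congrArg Complex.im h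
  rw [gv_re, Complex.zero_re] at hr
  rw [gv_im, Complex.zero_im] at hi
  have h3 := norm3 x
  rw [hx, hi] at h3
  rcases le_total (1 / 2) (x 0) with h4 | h4
  · rw [max_eq_left (by linarith)] at hr
    have h5 : x 1 = 0 := by linarith
    rw [h5] at h3
    have h6 : x 0 = 1 := by nlinarith
    apply h1
    apply eu3_ext
    · rw [core_zero, Circle.coe_one, Complex.one_re, h6]
    · rw [core_one, Circle.coe_one, Complex.one_im, h5]
    · rw [core_two, hi]
  · rw [max_eq_right (by linarith)] at hr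
    have h5 : x 1 = Real.sqrt 3 / 2 * (1 / 2 - x 0) := by linarith
    have h6 : Real.sqrt 3 ^ 2 = 3 := Real.sq_sqrt (by norm_num)
    have h7 : (14 * x 0 - 13) * (2 * x 0 + 1) = 0 := by
      rw [h5] at h3
      have h8 : (Real.sqrt 3 / 2 * (1 / 2 - x 0)) ^ 2 = 3 / 4 * (1 / 2 - x 0) ^ 2 := by
        rw [mul_pow, div_pow, h6]
        ring
      rw [h8] at h3
      linarith
    have h8 : x 0 = -(1 / 2) := by
      rcases mul_eq_zero.1 h7 with h | h
      · linarith
      · linarith
    apply h2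
    apply eu3_ext
    · rw [core_zero, ee_third_re, h8]
    · rw [core_one, ee_third_im, h5, h8]
      ring
    · rw [core_two, hi]

theorem g3_ne (x : Punc 3 0) : gv (x.1 : Eu 3) ≠ 0 := by
  refine gv_ne (norm_eq_of_mem_sphere x.1) (x.2 1 (one_pow _)) (x.2 _ ?_)
  have := ee_div_pow 3 h33 1
  push_cast at this
  exact this

/-- the function on the sphere with three punctures with winding numbers `1, -1, 0` -/
def eta3 : C(Punc 3 0, Circle) := unitC ⟨fun x => gv (x.1 : Eu 3), by fun_prop⟩ g3_ne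

theorem sgp_zero_gt {p : ℕ} (hp : p = 2 ∨ p = 3) (b : N0) :
    1 / 2 < ((sgp p hp b).1 : Eu 3) 0 := by
  show 1 / 2 < Real.sqrt (1 - ‖(b : Eu 2)‖ ^ 2)
  apply Real.lt_sqrt_of_sq_lt
  have := b.2.1
  have := b.2.2
  nlinarith

theorem eta3_sgp (b : N0) : eta3 (sgp 3 h33 b) = etaN b := by
  apply unitC_eq (r := ‖(b : Eu 2)‖) (hr := b.2.1)
  have h := b.2.1.ne'
  have h1 := sgp_zero_gt h33 b
  have h2 : max 0 (1 / 2 - ((sgp 3 h33 b).1 : Eu 3) 0) = 0 := max_eq_left (by linarith)
  apply Complex.ext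
  · rw [Complex.re_ofReal_mul, etaN_re]
    show (gv ((sgp 3 h33 b).1 : Eu 3)).re = _
    rw [gv_re, h2]
    show (b : Eu 2) 0 - _ = _
    field_simp
    ring
  · rw [Complex.im_ofReal_mul, etaN_im]
    show (gv ((sgp 3 h33 b).1 : Eu 3)).im = _
    rw [gv_im]
    show (b : Eu 2) 1 = _
    field_simp

/-! ### winding numbers -/

theorem jk_add {p : ℕ} (hp : p = 2 ∨ p = 3) (n m : ℤ) : jk p hp (n + p * m) = jk p hp n := by
  refine ContinuousMap.ext fun q => ?_
  show (q.1, rz p hp (n + p * m) (sgp p hp q.2)) = (q.1, rz p hp n (sgp p hp q.2))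
  have : rz p hp (n + p * m) (sgp p hp q.2) = rz p hp n (sgp p hp q.2) := by
    apply punc_ext
    rw [rz_coe, rz_coe]
    have hp0 : (p : ℝ) ≠ 0 := by rcases hp with rfl | rfl <;> norm_num
    have h : ee (((n + p * m : ℤ) : ℝ) / p) = ee ((n : ℝ) / p) := by
      rw [ee_eq_iff]
      refine ⟨m, ?_⟩
      push_cast
      field_simp
    rw [h]
  rw [this]

/-- winding numbers of `eta2` -/
def a1 (n : ℤ) : ℤ := if n % 2 = 0 then 1 else -1

/-- winding numbers of `eta3` -/
def g1 (n : ℤ) : ℤ := if n % 3 = 0 then 1 else if n % 3 = 1 then -1 else 0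

theorem HasW.inv {f : C(ℝ × N0, Circle)} {n : ℤ} (hf : HasW f n) : HasW f⁻¹ (-n) := by
  have h := IsExp.inv hf
  unfold HasW
  convert h using 1
  rw [zpow_neg, mul_inv]

theorem hasW_etaC : HasW etaC 1 := by
  unfold HasW
  rw [zpow_one, mul_inv_cancel]
  exact IsExp.one

theorem jk_zero_apply {p : ℕ} (hp : p = 2 ∨ p = 3) (q : ℝ × N0) :
    jk p hp 0 q = (q.1, sgp p hp q.2) := by
  show (q.1, rz p hp 0 (sgp p hp q.2)) = _
  rw [rz_zero]

theorem hasW_eta2 (n : ℤ) : HasW ((eta2.comp ContinuousMap.snd).comp (jk 2 h22 n)) (a1 n) := by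
  set F : C(ℝ × Punc 2 0, Circle) := eta2.comp ContinuousMap.snd with hF
  have h0 : HasW (F.comp (jk 2 h22 0)) 1 := by
    have : F.comp (jk 2 h22 0) = etaC := by
      refine ContinuousMap.ext fun q => ?_
      rw [ContinuousMap.comp_apply, jk_zero_apply]
      exact eta2_sgp q.2
    rw [this]
    exact hasW_etaC
  have hex := fun k => hasW_exists (F.comp (jk 2 h22 k))
  choose w hw using hex
  have hs := punc_sum 2 h22 F w hw
  rw [Finset.sum_range_succ, Finset.sum_range_one] at hs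
  have hw0 : w 0 = 1 := hasW_unique (hw 0) h0
  have hw1 : w 1 = -1 := by
    simp only [Nat.cast_zero, Nat.cast_one] at hs
    linarith
  have hmod := Int.emod_add_mul_ediv n 2
  have h2 : HasW (F.comp (jk 2 h22 n)) (w (n % 2)) := by
    have h3 := jk_add h22 (n % 2) (n / 2)
    push_cast at h3
    rw [hmod] at h3
    rw [h3]
    exact hw _
  unfold a1
  rcases Int.emod_two_eq_zero_or_one n with h | h
  · rw [h, hw0] at h2
    rw [if_pos h]
    exact h2
  · rw [h, hw1] at h2
    rw [if_neg (by omega)]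
    exact h2

theorem isExp_eta3_two : IsExp ((eta3.comp ContinuousMap.snd).comp (jk 3 h33 2)) := by
  have hne : ∀ q : I × (ℝ × N0), gv (rot (ee (2 / 3) : ℂ) (sg ((q.1 : ℝ) • (q.2.2 : Eu 2)))) ≠ 0 := by
    intro q
    have hnorm : ‖(q.1 : ℝ) • (q.2.2 : Eu 2)‖ < 1 / 2 := by
      rw [norm_smul, Real.norm_eq_abs, abs_of_nonneg q.1.2.1]
      have h1 := q.1.2.2
      have h2 := q.2.2.2.1
      have h3 := q.2.2.2.2
      nlinarith
    have hcube : ee (2 / 3) ^ 3 = 1 := by
      have := ee_div_pow 3 h33 2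
      push_cast at this
      exact this
    have hcube1 : ee (1 / 3) ^ 3 = 1 := by
      have := ee_div_pow 3 h33 1
      push_cast at this
      exact this
    have key : ∀ ζ : Circle, ζ ^ 3 = 1 → ζ ≠ ee (2 / 3) →
        rot (ee (2 / 3) : ℂ) (sg ((q.1 : ℝ) • (q.2.2 : Eu 2))) ≠ core ζ := by
      intro ζ hζ hne
      by_cases h0 : (q.1 : ℝ) • (q.2.2 : Eu 2) = 0
      · rw [h0]
        intro h
        apply hne
        have h1 : (sg (0 : Eu 2) : Eu 3) = core 1 := by
          apply eu3_ext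
          · rw [sg3_zero, core_zero]
            simp
          · rw [sg3_one, core_one]
            simp
          · rw [sg3_two, core_two]
            simp
        rw [h1, rot_core, mul_one] at h
        exact (core_inj h).symm
      · exact tubeV_ne_core (m := 0) h33 (by rw [hζ, hcube]) h0 hnorm
    refine gv_ne ?_ (key 1 (one_pow _) ?_) (key _ hcube1 ?_)
    · rw [norm_rot_circle, norm_sg (by linarith)]
    · intro h
      rw [← ee_zero, ee_eq_iff] at h
      obtain ⟨n, hn⟩ := h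
      have h1 : (0 : ℝ) = 2 + 3 * n := by linarith
      have h2 : (0 : ℤ) = 2 + 3 * n := by exact_mod_cast h1
      omega
    · intro h
      rw [ee_eq_iff] at h
      obtain ⟨n, hn⟩ := h
      have h1 : (1 : ℝ) = 2 + 3 * n := by linarith
      have h2 : (1 : ℤ) = 2 + 3 * n := by exact_mod_cast h1
      omega
  have hcont : Continuous fun q : I × (ℝ × N0) =>
      gv (rot (ee (2 / 3) : ℂ) (sg ((q.1 : ℝ) • (q.2.2 : Eu 2)))) := by
    have h1 : Continuous fun q : I × (ℝ × N0) => sg ((q.1 : ℝ) • (q.2.2 : Eu 2)) := by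
      fun_prop
    exact continuous_gv.comp (Continuous.rot continuous_const h1)
  have h := isExp_of_homotopy (X := ℝ × N0) (unitC ⟨_, hcont⟩ hne) (by
    obtain ⟨b⟩ : Nonempty N0 := inferInstance
    have : (unitC ⟨_, hcont⟩ hne).comp ((ContinuousMap.const (ℝ × N0) (0 : I)).prodMk
        (ContinuousMap.id (ℝ × N0))) = ContinuousMap.const _ (unitC ⟨_, hcont⟩ hne (0, (0, b))) := by
      refine ContinuousMap.ext fun q => ?_
      refine unitC_congr ⟨_, hcont⟩ hne ⟨_, hcont⟩ hne _ _ ?_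
      show gv (rot (ee (2 / 3) : ℂ) (sg (((0 : I) : ℝ) • (q.2 : Eu 2)))) =
        gv (rot (ee (2 / 3) : ℂ) (sg (((0 : I) : ℝ) • (b : Eu 2))))
      simp
    rw [this]
    exact isExp_const _)
  convert h using 1
  refine ContinuousMap.ext fun q => ?_
  refine unitC_congr _ g3_ne ⟨_, hcont⟩ hne _ _ ?_
  show gv (rot (ee (((2 : ℤ) : ℝ) / ((3 : ℕ) : ℝ)) : ℂ) (sg (q.2 : Eu 2))) =
    gv (rot (ee (2 / 3) : ℂ) (sg (((1 : I) : ℝ) • (q.2 : Eu 2))))
  simp

theorem hasW_eta3 (n : ℤ) : HasW ((eta3.comp ContinuousMap.snd).comp (jk 3 h33 n)) (g1 n) := by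
  set F : C(ℝ × Punc 3 0, Circle) := eta3.comp ContinuousMap.snd with hF
  have h0 : HasW (F.comp (jk 3 h33 0)) 1 := by
    have : F.comp (jk 3 h33 0) = etaC := by
      refine ContinuousMap.ext fun q => ?_
      rw [ContinuousMap.comp_apply, jk_zero_apply]
      exact eta3_sgp q.2
    rw [this]
    exact hasW_etaC
  have hex := fun k => hasW_exists (F.comp (jk 3 h33 k))
  choose w hw using hex
  have hs := punc_sum 3 h33 F w hw
  rw [Finset.sum_range_succ, Finset.sum_range_succ, Finset.sum_range_one] at hs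
  have hw0 : w 0 = 1 := hasW_unique (hw 0) h0
  have hw2 : w 2 = 0 := hasW_unique (hw 2) (hasW_zero isExp_eta3_two)
  have hw1 : w 1 = -1 := by
    simp only [Nat.cast_zero, Nat.cast_one, Nat.cast_ofNat] at hs
    linarith
  have hmod := Int.emod_add_mul_ediv n 3
  have h2 : HasW (F.comp (jk 3 h33 n)) (w (n % 3)) := by
    have h3 := jk_add h33 (n % 3) (n / 3)
    push_cast at h3
    rw [hmod] at h3
    rw [h3]
    exact hw _
  unfold g1
  have hlt := Int.emod_lt_of_pos n (by norm_num : (0 : ℤ) < 3)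
  have hge := Int.emod_nonneg n (by norm_num : (3 : ℤ) ≠ 0)
  have hcase : n % 3 = 0 ∨ n % 3 = 1 ∨ n % 3 = 2 := by omega
  rcases hcase with h | h | h
  · rw [h, hw0] at h2
    rw [if_pos h]
    exact h2
  · rw [h, hw1] at h2
    rw [if_neg (by omega), if_pos h]
    exact h2
  · rw [h, hw2] at h2
    rw [if_neg (by omega), if_neg (by omega)]
    exact h2

end Pool.Agent.S1S3
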