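import Pool.Agent.Helper81_S1S3.Beta

/-!
# The second circle-valued function: construction
-/

set_option autoImplicit false
set_option linter.unusedSectionVars false

open scoped Manifold Topology unitInterval
open CategoryTheory Set

noncomputable section

namespace Pool.Agent.S1S3

/-! ### periodicity -/

theorem rz_mul_self {p : ℕ} (hp : p = 2 ∨ p = 3) (n : ℤ) (x : Punc p 0) :
    rz p hp (p * n) x = x := by
  apply punc_ext
  rw [rz_coe]
  have hp0 : (p : ℝ) ≠ 0 := by rcases hp with rfl | rfl <;> norm_num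
  have h : (((p * n : ℤ) : ℝ) / p) = ((n : ℤ) : ℝ) := by
    push_cast
    field_simp
  rw [h, ee_int, Circle.coe_one, rot_one]

theorem Fam.FA_six {T : Type} [TopologicalSpace T] (F : Fam T) (k n : ℤ) :
    F.FA (k + 6 * n) = F.FA k := by
  refine ContinuousMap.ext fun q => ?_
  obtain ⟨s, x⟩ := q
  have h := F.perA_int k (2 * n) s x
  have h1 : k + 3 * (2 * n) = k + 6 * n := by ring
  have h2 := rz_mul_self h22 n x
  push_cast at h2
  rw [h1, h2] at h
  exact h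

theorem Fam.FB_six {T : Type} [TopologicalSpace T] (F : Fam T) (k n : ℤ) :
    F.FB (k + 6 * n) = F.FB k := by
  refine ContinuousMap.ext fun q => ?_
  obtain ⟨s, x⟩ := q
  have h := F.perB_int k (3 * n) s x
  have h1 : k + 2 * (3 * n) = k + 6 * n := by ring
  have h2 := rz_mul_self h33 n x
  push_cast at h2
  rw [h1, h2] at h
  exact h

theorem ee_six (s : ℝ) (k n : ℤ) : ee ((s + ((k + 6 * n : ℤ) : ℝ)) / 6) = ee ((s + k) / 6) := by
  rw [ee_eq_iff]
  refine ⟨n, ?_⟩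
  push_cast
  ring

theorem nB_six (k n : ℤ) : nB (k + 6 * n) = nB k := by
  refine ContinuousMap.ext fun q => ?_
  rw [nB_apply, nB_apply, ee_six]

theorem tauInv_six (k n : ℤ) : tauInv (k + 6 * n) = tauInv k := by
  refine ContinuousMap.ext fun q => ?_
  rw [tauInv_apply, tauInv_apply, ee_six]

/-! ### the change of coordinates -/

/-- the change of coordinates of the neck -/
def tauC (k : ℤ) : C(ℝ × N0, ℝ × N0) :=
  ⟨fun q => (q.1, twb (ee ((q.1 + k) / 6)) q.2), by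
    have h : Continuous fun q : ℝ × N0 => ((ee ((q.1 + k) / 6), q.2) : Circle × N0) := by
      fun_prop
    have h2 := continuous_twb.comp h
    exact continuous_fst.prodMk h2⟩

theorem tauC_apply (k : ℤ) (q : ℝ × N0) :
    tauC k q = (q.1, twb (ee ((q.1 + k) / 6)) q.2) := rfl

theorem hasW_tauC {f : C(ℝ × N0, Circle)} {n : ℤ} (hf : HasW f n) (k : ℤ) :
    HasW (f.comp (tauC k)) n := by
  obtain ⟨u, hu⟩ := hasW_iff.1 hf
  rw [hasW_iff]
  refine ⟨u.comp (tauC k) + ⟨fun q => n * (2 * Real.pi * ((q.1 + k) / 6)), by fun_prop⟩, ?_⟩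
  intro q
  have h2 := hu (tauC k q)
  rw [tauC_apply] at h2
  simp only at h2
  rw [etaN_twb, mul_zpow, mul_inv] at h2
  show f (tauC k q) * ((etaN q.2) ^ n)⁻¹ = Circle.exp (u (tauC k q) +
    n * (2 * Real.pi * ((q.1 + k) / 6)))
  rw [tauC_apply, Circle.exp_add, ← h2]
  have h3 : Circle.exp (n * (2 * Real.pi * ((q.1 + k) / 6))) = ee ((q.1 + k) / 6) ^ n := by
    unfold ee
    rw [← Circle.exp_zsmul, zsmul_eq_mul]
  rw [h3]
  have h4 : ∀ a b c : Circle, a * c = a * (b⁻¹ * c) * b := by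
    intro a b c
    rw [mul_comm b⁻¹ c, ← mul_assoc, inv_mul_cancel_right]
  exact h4 _ _ _

/-! ### the families -/

/-- the functions on the pieces of the first kind -/
def bA (r : ℤ) : C(ℝ × Punc 2 0, Circle) :=
  if r = 0 then eta2.comp ContinuousMap.snd
  else if r = 1 then 1 else (eta2.comp ContinuousMap.snd)⁻¹

/-- the functions on the pieces of the second kind -/
def bB (r : ℤ) : C(ℝ × Punc 3 0, Circle) :=
  if r = 0 then (⟨fun q => ee (-q.1 / 6), by fun_prop⟩ : C(ℝ × Punc 3 0, Circle)) *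
    eta3.comp ContinuousMap.snd
  else ((eta3.comp (rz 3 h33 2)).comp ContinuousMap.snd)⁻¹

/-- the first approximation of the second function -/
def bFam : Fam Circle := famOfBase bA bB

/-- the winding numbers of the second function -/
def wb (k : ℤ) : ℤ :=
  if k % 3 = 0 then a1 (k / 3) else if k % 3 = 1 then 0 else -a1 (k / 3)

theorem hasW_bA (k : ℤ) : HasW ((bFam.FA k).comp nA) (wb k) := by
  have h : (bFam.FA k).comp nA = (bA (k % 3)).comp (jk 2 h22 (k / 3)) := rfl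
  rw [h]
  unfold wb bA
  by_cases h0 : k % 3 = 0
  · rw [if_pos h0, if_pos h0]
    exact hasW_eta2 _
  · rw [if_neg h0, if_neg h0]
    by_cases h1 : k % 3 = 1
    · rw [if_pos h1, if_pos h1]
      exact hasW_zero IsExp.one
    · rw [if_neg h1, if_neg h1]
      exact (hasW_eta2 _).inv

theorem wb_eq (k : ℤ) : wb k = if k % 2 = 0 then g1 (k / 2) else -g1 (k / 2 + 2) := by
  unfold wb a1 g1
  split_ifs <;> omega

theorem isExp_ee (X : Type) [TopologicalSpace X] (f : C(X, ℝ)) :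
    IsExp (⟨fun q => ee (f q), by fun_prop⟩ : C(X, Circle)) :=
  ⟨⟨fun q => 2 * Real.pi * f q, by fun_prop⟩, fun _ => rfl⟩

theorem hasW_bB (k : ℤ) : HasW ((bFam.FB k).comp (nB k)) (wb k) := by
  have h : (bFam.FB k).comp (nB k) = ((bB (k % 2)).comp (jk 3 h33 (k / 2))).comp (tauC k) := rfl
  rw [h, wb_eq]
  apply hasW_tauC
  unfold bB
  by_cases h0 : k % 2 = 0
  · rw [if_pos h0, if_pos h0, ContinuousMap.mul_comp]
    have h1 := (hasW_zero ((isExp_ee (ℝ × Punc 3 0) ⟨fun q => -q.1 / 6, by fun_prop⟩).comp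
      (jk 3 h33 (k / 2)))).mul (hasW_eta3 (k / 2))
    have h2 : (0 : ℤ) + g1 (k / 2) = g1 (k / 2) := zero_add _
    rw [h2] at h1
    exact h1
  · rw [if_neg h0, if_neg h0]
    have h1 : (((eta3.comp (rz 3 h33 2)).comp ContinuousMap.snd)⁻¹ :
        C(ℝ × Punc 3 0, Circle)).comp (jk 3 h33 (k / 2)) =
        ((eta3.comp ContinuousMap.snd).comp (jk 3 h33 (k / 2 + 2)))⁻¹ := by
      refine ContinuousMap.ext fun q => ?_
      show (eta3 (rz 3 h33 2 (rz 3 h33 (k / 2) (sgp 3 h33 q.2))))⁻¹ =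
        (eta3 (rz 3 h33 (k / 2 + 2) (sgp 3 h33 q.2)))⁻¹
      rw [rz_add, add_comm 2 (k / 2)]
    rw [h1]
    exact (hasW_eta3 _).inv

theorem exists_cc (k : ℤ) : ∃ c : C(ℝ × N0, ℝ),
    (∀ q, bFam.FA k (nA q) * (bFam.FB k (nB k q))⁻¹ = Circle.exp (c q)) ∧ (k = 0 → c = 0) := by
  by_cases h0 : k = 0
  · subst h0
    refine ⟨0, fun q => ?_, fun _ => rfl⟩
    have h1 : bFam.FA 0 (nA q) = etaN q.2 := by
      show bA (0 % 3) (q.1, rz 2 h22 (0 / 3) (sgp 2 h22 q.2)) = _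
      have e1 : (0 : ℤ) % 3 = 0 := by norm_num
      have e2 : (0 : ℤ) / 3 = 0 := by norm_num
      rw [e1, e2, rz_zero]
      unfold bA
      rw [if_pos rfl]
      exact eta2_sgp q.2
    have h2 : bFam.FB 0 (nB 0 q) = etaN q.2 := by
      show bB (0 % 2) (q.1, rz 3 h33 (0 / 2) (sgp 3 h33 (twb (ee ((q.1 + ((0 : ℤ) : ℝ)) / 6)) q.2)))
        = _
      have e1 : (0 : ℤ) % 2 = 0 := by norm_num
      have e2 : (0 : ℤ) / 2 = 0 := by norm_num
      rw [e1, e2, rz_zero]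
      unfold bB
      rw [if_pos rfl]
      show ee (-q.1 / 6) * eta3 (sgp 3 h33 (twb (ee ((q.1 + ((0 : ℤ) : ℝ)) / 6)) q.2)) = _
      rw [eta3_sgp, etaN_twb, ← mul_assoc, ← ee_add]
      have : -q.1 / 6 + (q.1 + ((0 : ℤ) : ℝ)) / 6 = 0 := by
        push_cast
        ring
      rw [this, ee_zero, one_mul]
    rw [h1, h2, mul_inv_cancel]
    simp
  · have h := (hasW_bA k).mul (hasW_bB k).inv
    rw [add_neg_cancel] at h
    obtain ⟨c, hc⟩ := h.isExp
    exact ⟨c, fun q => hc q, fun h => absurd h h0⟩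

/-- the logarithms of the quotients -/
def cc (k : ℤ) : C(ℝ × N0, ℝ) := (exists_cc (k % 6)).choose

theorem cc_add (k : ℤ) : cc (k + 6) = cc k := by
  unfold cc
  have h : (k + 6) % 6 = k % 6 := Int.add_emod_right k 6
  simp only [h]

theorem cc_spec (k : ℤ) (q : ℝ × N0) :
    bFam.FA k (nA q) * (bFam.FB k (nB k q))⁻¹ = Circle.exp (cc k q) := by
  have h := (exists_cc (k % 6)).choose_spec.1 q
  have hmod := Int.emod_add_mul_ediv k 6
  have h1 := bFam.FA_six (k % 6) (k / 6)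
  have h2 := bFam.FB_six (k % 6) (k / 6)
  have h3 := nB_six (k % 6) (k / 6)
  rw [hmod] at h1 h2 h3
  rw [h1, h2, h3]
  exact h

theorem cc_zero : cc 0 = 0 := (exists_cc (0 % 6)).choose_spec.2 (by norm_num)

/-! ### extension of functions on the neck -/

theorem exists_ext (p : ℕ) (hp : p = 2 ∨ p = 3) (c : C(ℝ × N0, ℝ)) :
    ∃ T : C(ℝ × Punc p 0, ℝ),
      (∀ s b, T (s, sgp p hp b) = (1 - kr ‖(b : Eu 2)‖) * c (s, b)) ∧
      ∀ s (y : Punc p 0), (y.1 : Eu 3) 0 ≤ 1 / 2 → T (s, y) = 0 := by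
  set Z : Set (ℝ × Punc p 0) := {q | 9 / 10 ≤ (q.2.1 : Eu 3) 0} with hZ
  have hZc : IsClosed Z := isClosed_le continuous_const (by fun_prop)
  have hsq : ∀ q : Z, (q.1.2.1 : Eu 3) 0 ^ 2 + (q.1.2.1 : Eu 3) 1 ^ 2 +
      (q.1.2.1 : Eu 3) 2 ^ 2 = 1 := by
    intro q
    rw [← norm3, norm_eq_of_mem_sphere, one_pow]
  have hnorm : ∀ q : Z, ‖(WithLp.toLp 2 ![(q.1.2.1 : Eu 3) 1, (q.1.2.1 : Eu 3) 2] : Eu 2)‖ ^ 2 =
      (q.1.2.1 : Eu 3) 1 ^ 2 + (q.1.2.1 : Eu 3) 2 ^ 2 := by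
    intro q
    rw [norm2]
    rfl
  have hmem : ∀ q : Z, 0 < ‖(WithLp.toLp 2 ![(q.1.2.1 : Eu 3) 1, (q.1.2.1 : Eu 3) 2] : Eu 2)‖ ∧
      ‖(WithLp.toLp 2 ![(q.1.2.1 : Eu 3) 1, (q.1.2.1 : Eu 3) 2] : Eu 2)‖ < 1 / 2 := by
    intro q
    have h1 := hsq q
    have h2 := hnorm q
    have h3 : 9 / 10 ≤ (q.1.2.1 : Eu 3) 0 := q.2
    constructor
    · rw [norm_pos_iff]
      intro h0
      rw [h0, norm_zero] at h2
      have h4 : (q.1.2.1 : Eu 3) 1 = 0 := by nlinarith [sq_nonneg ((q.1.2.1 : Eu 3) 2)]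
      have h5 : (q.1.2.1 : Eu 3) 2 = 0 := by nlinarith [sq_nonneg ((q.1.2.1 : Eu 3) 1)]
      rw [h4, h5] at h1
      have h6 : (q.1.2.1 : Eu 3) 0 = 1 := by nlinarith
      refine q.1.2.2 1 (one_pow _) ?_
      apply eu3_ext
      · rw [core_zero, Circle.coe_one, Complex.one_re, h6]
      · rw [core_one, Circle.coe_one, Complex.one_im, h4]
      · rw [core_two, h5]
    · by_contra hcon
      rw [not_lt] at hcon
      nlinarith
  set m : C(Z, ℝ × N0) := ⟨fun q => (q.1.1,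
    ⟨(WithLp.toLp 2 ![(q.1.2.1 : Eu 3) 1, (q.1.2.1 : Eu 3) 2] : Eu 2), hmem q⟩), by
    refine Continuous.prodMk (by fun_prop) (Continuous.subtype_mk ?_ _)
    refine (PiLp.continuous_toLp 2 _).comp (continuous_pi fun i => ?_)
    fin_cases i
    · show Continuous fun q : Z => (q.1.2.1 : Eu 3) 1
      fun_prop
    · show Continuous fun q : Z => (q.1.2.1 : Eu 3) 2
      fun_prop⟩ with hm
  obtain ⟨C, hC⟩ := ContinuousMap.exists_restrict_eq hZc (c.comp m)
  have hC' : ∀ (q : ℝ × Punc p 0) (h : q ∈ Z), C q = c (m ⟨q, h⟩) := by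
    intro q h
    have : C q = (C.restrict Z) ⟨q, h⟩ := rfl
    rw [this, hC]
    rfl
  refine ⟨⟨fun q => (1 - kap (q.2.1 : Eu 3)) * C q, by fun_prop⟩, ?_, ?_⟩
  · intro s b
    show (1 - kap (sg (b : Eu 2))) * C (s, sgp p hp b) = _
    rw [kap_sg]
    by_cases h : (s, sgp p hp b) ∈ Z
    · rw [hC' _ h]
      congr 2
      refine Prod.ext rfl (Subtype.ext ?_)
      ext i
      fin_cases i
      · rfl
      · rfl
    · have h1 : kap (sg (b : Eu 2)) = 1 := by
        apply kap_eq_one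
        simp only [hZ, mem_ofPred_eq, not_le] at h
        exact h.le
      rw [kap_sg] at h1
      rw [h1]
      ring
  · intro s y hy
    show (1 - kap (y.1 : Eu 3)) * C (s, y) = 0
    rw [kap_eq_one (by linarith)]
    ring

/-- the correction on the first kind of pieces -/
def eA (k : ℤ) : C(ℝ × Punc 2 0, ℝ) := (exists_ext 2 h22 (cc k)).choose

/-- the correction on the second kind of pieces -/
def eB (k : ℤ) : C(ℝ × Punc 3 0, ℝ) := (exists_ext 3 h33 ((cc (k % 6)).comp (tauInv (k % 6)))).choose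

theorem eA_add (k : ℤ) : eA (k + 6) = eA k := by
  unfold eA
  simp only [cc_add]

theorem eB_add (k : ℤ) : eB (k + 6) = eB k := by
  unfold eB
  have h : (k + 6) % 6 = k % 6 := Int.add_emod_right k 6
  simp only [h]

theorem cc_mod (k : ℤ) : cc (k % 6) = cc k := by
  unfold cc
  have h : (k % 6) % 6 = k % 6 := Int.emod_emod_of_dvd k (dvd_refl 6)
  simp only [h]

theorem tauInv_mod (k : ℤ) : tauInv (k % 6) = tauInv k := by
  have h := tauInv_six (k % 6) (k / 6)
  rw [Int.emod_add_mul_ediv] at h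
  exact h.symm

/-- the family of the second function -/
def betaFam : Fam Circle where
  FA k := bFam.FA k * (Circle.exp.comp (symF h22 3 eA k))⁻¹
  FB k := bFam.FB k * Circle.exp.comp (symF h33 2 eB k)
  perA k s x := by
    show bFam.FA (k + 3) (s, x) * (Circle.exp (symF h22 3 eA (k + 3) (s, x)))⁻¹ =
      bFam.FA k (s, rz 2 h22 1 x) * (Circle.exp (symF h22 3 eA k (s, rz 2 h22 1 x)))⁻¹
    rw [bFam.perA, symF_per h22 3 (by norm_num) eA eA_add]
  perB k s x := by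
    show bFam.FB (k + 2) (s, x) * Circle.exp (symF h33 2 eB (k + 2) (s, x)) =
      bFam.FB k (s, rz 3 h33 1 x) * Circle.exp (symF h33 2 eB k (s, rz 3 h33 1 x))
    rw [bFam.perB, symF_per h33 2 (by norm_num) eB eB_add]

theorem betaFam_A (k : ℤ) (q : ℝ × N0) : betaFam.FA k (nA q) =
    bFam.FA k (nA q) * (Circle.exp ((1 - kr ‖(q.2 : Eu 2)‖) * cc k q))⁻¹ := by
  show bFam.FA k (nA q) * (Circle.exp (symF h22 3 eA k (q.1, sgp 2 h22 q.2)))⁻¹ = _
  rw [symF_neck]
  · have := (exists_ext 2 h22 (cc k)).choose_spec.1 q.1 q.2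
    rw [← this]
    rfl
  · intro i s y hy
    exact (exists_ext 2 h22 (cc i)).choose_spec.2 s y hy

theorem betaFam_B (k : ℤ) (q : ℝ × N0) : betaFam.FB k (nB k q) =
    bFam.FB k (nB k q) * Circle.exp (kr ‖(q.2 : Eu 2)‖ * cc k q) := by
  show bFam.FB k (nB k q) * Circle.exp (symF h33 2 eB k
    (q.1, sgp 3 h33 (twb (ee ((q.1 + k) / 6)) q.2))) = _
  rw [symF_neck]
  · have := (exists_ext 3 h33 ((cc (k % 6)).comp (tauInv (k % 6)))).choose_spec.1 q.1
      (twb (ee ((q.1 + k) / 6)) q.2)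
    have h1 : eB k (q.1, sgp 3 h33 (twb (ee ((q.1 + k) / 6)) q.2)) =
      kr ‖(q.2 : Eu 2)‖ * cc k q := by
      unfold eB
      rw [this, norm_twb, ContinuousMap.comp_apply, cc_mod, tauInv_mod, tauInv_apply]
      simp only
      rw [twbInv_twb]
      have h2 := kr_add ‖(q.2 : Eu 2)‖
      have h3 : 1 - kr (1 / 2 - ‖(q.2 : Eu 2)‖) = kr ‖(q.2 : Eu 2)‖ := by linarith
      rw [h3]
    rw [h1]
  · intro i s y hy
    exact (exists_ext 3 h33 ((cc (i % 6)).comp (tauInv (i % 6)))).choose_spec.2 s y hy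

theorem betaFam_glue (k : ℤ) (q : ℝ × N0) : betaFam.FA k (nA q) = betaFam.FB k (nB k q) := by
  rw [betaFam_A, betaFam_B]
  have h := cc_spec k q
  have h1 : bFam.FA k (nA q) = bFam.FB k (nB k q) * Circle.exp (cc k q) := by
    rw [← h, mul_comm (bFam.FA k (nA q)), mul_inv_cancel_left]
  rw [h1, mul_assoc, ← Circle.exp_neg, ← Circle.exp_add]
  congr 2
  ring

variable {Y : Type} [TopologicalSpace Y] {φ : C(Y, Circle)}

/-- the second circle-valued function -/
def betaF (G : Cov φ) : C(Yt φ, Circle) := (G.desc betaFam betaFam_glue).choose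

theorem betaF_neck (G : Cov φ) (q : ℝ × N0) : betaF G (G.nP 0 q) = etaN q.2 := by
  have h := (G.desc betaFam betaFam_glue).choose_spec.1 0 (nA q)
  have h1 : betaF G (G.nP 0 q) = betaFam.FA 0 (nA q) := h
  rw [h1, betaFam_A, cc_zero]
  have h2 : bFam.FA 0 (nA q) = etaN q.2 := by
    show bA (0 % 3) (q.1, rz 2 h22 (0 / 3) (sgp 2 h22 q.2)) = _
    have e1 : (0 : ℤ) % 3 = 0 := by norm_num
    have e2 : (0 : ℤ) / 3 = 0 := by norm_num
    rw [e1, e2, rz_zero]
    unfold bA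
    rw [if_pos rfl]
    exact eta2_sgp q.2
  rw [h2]
  simp

end Pool.Agent.S1S3
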