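import Pool.Agent.Helper83_S1S3.Stmts
import Pool.Agent.Common_Brouwer.Schauder

/-!
# Module BROU: the two circle-valued functions cannot both extend over the same side
-/

set_option autoImplicit false
set_option linter.unusedSectionVars false

open scoped Manifold ContDiff Topology
open CategoryTheory Set

noncomputable section

namespace Pool.Agent.S1S3.BR

/-- the homeomorphism of `ℝ × S³` with `ℝ⁴ - 0` -/
def io (q : XT) : Eu 4 := Real.exp q.1 • (q.2 : Eu 4)

theorem norm_io (q : XT) : ‖io q‖ = Real.exp q.1 := by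
  unfold io
  rw [norm_smul, norm_eq_of_mem_sphere, mul_one, Real.norm_eq_abs, abs_of_pos (Real.exp_pos _)]

theorem io_ne (q : XT) : io q ≠ 0 := by
  intro h
  have := norm_io q
  rw [h, norm_zero] at this
  exact (Real.exp_pos q.1).ne this

theorem continuous_io : Continuous io := by
  unfold io
  fun_prop

/-- the inverse -/
def ioH : XT ≃ₜ {y : Eu 4 // y ≠ 0} where
  toFun q := ⟨io q, io_ne q⟩
  invFun y := (Real.log ‖(y : Eu 4)‖, ⟨‖(y : Eu 4)‖⁻¹ • (y : Eu 4), by
    rw [mem_sphere_zero_iff_norm, norm_smul, norm_inv, norm_norm,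
      inv_mul_cancel₀ (norm_ne_zero_iff.2 y.2)]⟩)
  left_inv q := by
    refine Prod.ext ?_ (Subtype.ext ?_)
    · show Real.log ‖io q‖ = q.1
      rw [norm_io, Real.log_exp]
    · show ‖io q‖⁻¹ • io q = q.2
      rw [norm_io]
      unfold io
      rw [smul_smul, inv_mul_cancel₀ (Real.exp_pos _).ne', one_smul]
  right_inv y := by
    apply Subtype.ext
    show Real.exp (Real.log ‖(y : Eu 4)‖) • (‖(y : Eu 4)‖⁻¹ • (y : Eu 4)) = y
    have hy : 0 < ‖(y : Eu 4)‖ := norm_pos_iff.2 y.2
    rw [Real.exp_log hy, smul_smul, mul_inv_cancel₀ hy.ne', one_smul]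
  continuous_toFun := by
    exact continuous_io.subtype_mk _
  continuous_invFun := by
    have h : ∀ y : {y : Eu 4 // y ≠ 0}, ‖(y : Eu 4)‖ ≠ 0 := fun y => norm_ne_zero_iff.2 y.2
    refine Continuous.prodMk ?_ ?_
    · exact Continuous.log (by fun_prop) h
    · refine Continuous.subtype_mk ?_ _
      exact (Continuous.inv₀ (by fun_prop) h).smul (by fun_prop)

theorem io_inj {q q' : XT} (h : io q = io q') : q = q' := by
  apply ioH.injective
  exact Subtype.ext h

theorem isOpen_image {W : Set XT} (hW : IsOpen W) : IsOpen (io '' W) := by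
  have h1 : IsOpen (ioH '' W) := ioH.isOpenMap W hW
  have h2 : IsOpen (Subtype.val '' (ioH '' W) : Set (Eu 4)) :=
    IsOpen.isOpenMap_subtype_val (isOpen_ne) _ h1
  convert h2 using 1
  rw [← image_comp]
  rfl

/-- the cut off inversion about `v` -/
def sgm (v : Eu 4) (R : ℝ) (y : Eu 4) : Eu 4 :=
  (max (1 - ‖y - v‖ / R) 0 / ‖y - v‖ ^ 2) • (y - v)

theorem sgm_far {v : Eu 4} {R : ℝ} (hR : 0 < R) {y : Eu 4} (h : R ≤ ‖y - v‖) :
    sgm v R y = 0 := by
  unfold sgm
  have : 1 - ‖y - v‖ / R ≤ 0 := by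
    rw [sub_nonpos, le_div_iff₀ hR, one_mul]
    exact h
  rw [max_eq_right this, zero_div, zero_smul]

theorem continuousAt_sgm {v : Eu 4} {R : ℝ} {y : Eu 4} (h : y ≠ v) :
    ContinuousAt (sgm v R) y := by
  unfold sgm
  have h1 : ‖y - v‖ ^ 2 ≠ 0 := pow_ne_zero _ (norm_ne_zero_iff.2 (sub_ne_zero.2 h))
  have h2 : ContinuousAt (fun y : Eu 4 => max (1 - ‖y - v‖ / R) 0) y := by fun_prop
  have h3 : ContinuousAt (fun y : Eu 4 => ‖y - v‖ ^ 2) y := by fun_prop
  have h4 : ContinuousAt (fun y : Eu 4 => y - v) y := by fun_prop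
  exact (h2.div h3 h1).smul h4

theorem sgm_near {v : Eu 4} {R : ℝ} (hR : 0 < R) {y : Eu 4} (h0 : y ≠ v) (h : ‖y - v‖ < R) :
    ‖sgm v R y‖ = 1 / ‖y - v‖ - 1 / R ∧ 0 < 1 / ‖y - v‖ - 1 / R := by
  have hy : 0 < ‖y - v‖ := norm_pos_iff.2 (sub_ne_zero.2 h0)
  have h1 : 0 < 1 - ‖y - v‖ / R := by
    rw [sub_pos, div_lt_one hR]
    exact h
  constructor
  · unfold sgm
    rw [max_eq_left h1.le, norm_smul, Real.norm_eq_abs, abs_of_nonneg (by positivity)]
    field_simp
  · rw [sub_pos]
    exact one_div_lt_one_div_of_lt hy h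

theorem sgm_inj {v : Eu 4} {R : ℝ} (hR : 0 < R) {y p : Eu 4} (hy : y ≠ v) (hp : p ≠ v)
    (hpR : ‖p - v‖ < R) (h : sgm v R y = sgm v R p) : y = p := by
  obtain ⟨h1, h2⟩ := sgm_near hR hp hpR
  have hyR : ‖y - v‖ < R := by
    by_contra hcon
    rw [sgm_far hR (not_lt.1 hcon)] at h
    rw [← h, norm_zero] at h1
    linarith
  obtain ⟨h3, h4⟩ := sgm_near hR hy hyR
  have h5 : ‖y - v‖ = ‖p - v‖ := by
    have : (1 : ℝ) / ‖y - v‖ = 1 / ‖p - v‖ := by
      have := congrArg norm h
      rw [h3, h1] at this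
      linarith
    rw [one_div, one_div] at this
    exact inv_injective this
  unfold sgm at h
  rw [h5] at h
  have h6 : 0 < 1 - ‖p - v‖ / R := by
    rw [sub_pos, div_lt_one hR]
    exact hpR
  have h7 : (max (1 - ‖p - v‖ / R) 0 / ‖p - v‖ ^ 2) ≠ 0 := by
    rw [max_eq_left h6.le]
    have : ‖p - v‖ ≠ 0 := norm_ne_zero_iff.2 (sub_ne_zero.2 hp)
    positivity
  have h8 := smul_right_injective _ h7 h
  simpa using h8

/-- the topological core: a nowhere zero map on `ℝ⁴ - v` which is the cut off inversion near `v`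
and constant near infinity contradicts the theorem of Brouwer -/
theorem no_map (v c : Eu 4) (R : ℝ) (hR : 0 < R) (hc : c ≠ 0) (G : Eu 4 → Eu 4)
    (hG : ∀ y, y ≠ v → ContinuousAt G y) (hG0 : ∀ y, y ≠ v → G y ≠ 0) (S : ℝ)
    (hS : ∀ y, S ≤ ‖y‖ → G y = -c) (ε : ℝ) (hε : 0 < ε)
    (hnear : ∀ y, y ≠ v → ‖y - v‖ < ε → G y = sgm v R y - c) : False := by
  classical
  set F : Eu 4 → Eu 4 := fun z => if z = 0 then -c else G (v + (‖z‖ ^ 2)⁻¹ • z) with hF
  have hzv : ∀ z : Eu 4, z ≠ 0 → v + (‖z‖ ^ 2)⁻¹ • z ≠ v := by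
    intro z hz h
    have h1 : (‖z‖ ^ 2)⁻¹ • z = 0 := by
      have := congrArg (fun t => t - v) h
      simpa using this
    rcases smul_eq_zero.1 h1 with h2 | h2
    · exact (inv_ne_zero (pow_ne_zero 2 (norm_ne_zero_iff.2 hz))) h2
    · exact hz h2
  have hnz : ∀ z : Eu 4, z ≠ 0 → ‖(‖z‖ ^ 2)⁻¹ • z‖ = ‖z‖⁻¹ := by
    intro z hz
    have : 0 < ‖z‖ := norm_pos_iff.2 hz
    rw [norm_smul, Real.norm_eq_abs, abs_of_pos (by positivity)]
    field_simp
  have hF0 : ∀ z, F z ≠ 0 := by
    intro z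
    by_cases hz : z = 0
    · simp only [hF, hz, if_true]
      exact neg_ne_zero.2 hc
    · simp only [hF, if_neg hz]
      exact hG0 _ (hzv z hz)
  have hFc : Continuous F := by
    rw [continuous_iff_continuousAt]
    intro z
    by_cases hz : z = 0
    · subst hz
      have hpos : 0 < 1 / (|S| + ‖v‖ + 1) := by positivity
      have : F =ᶠ[𝓝 0] fun _ => -c := by
        filter_upwards [Metric.ball_mem_nhds (0 : Eu 4) hpos] with z hz
        rw [mem_ball_zero_iff] at hz
        by_cases h0 : z = 0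
        · simp [hF, h0]
        · simp only [hF, if_neg h0]
          apply hS
          have h1 : 0 < ‖z‖ := norm_pos_iff.2 h0
          have h2 : |S| + ‖v‖ + 1 ≤ ‖z‖⁻¹ := by
            rw [le_inv_comm₀ (by positivity) h1]
            rw [one_div] at hz
            exact hz.le
          have h3 : ‖(‖z‖ ^ 2)⁻¹ • z‖ - ‖v‖ ≤ ‖v + (‖z‖ ^ 2)⁻¹ • z‖ := by
            have := norm_sub_norm_le ((‖z‖ ^ 2)⁻¹ • z) (-v)
            rw [norm_neg, sub_neg_eq_add, add_comm _ v] at this
            exact this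
          rw [hnz z h0] at h3
          linarith [le_abs_self S]
      exact (continuousAt_const).congr this.symm
    · have h1 : F =ᶠ[𝓝 z] fun z => G (v + (‖z‖ ^ 2)⁻¹ • z) := by
        filter_upwards [isOpen_ne.mem_nhds hz] with w hw
        simp only [hF]
        rw [if_neg hw]
      refine ContinuousAt.congr ?_ h1.symm
      refine ContinuousAt.comp (f := fun z : Eu 4 => v + (‖z‖ ^ 2)⁻¹ • z) (hG _ (hzv z hz)) ?_
      have h2 : ‖z‖ ^ 2 ≠ 0 := pow_ne_zero _ (norm_ne_zero_iff.2 hz)
      have h3 : ContinuousAt (fun z : Eu 4 => (‖z‖ ^ 2)⁻¹) z :=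
        ContinuousAt.inv₀ (by fun_prop) h2
      exact continuousAt_const.add (h3.smul continuousAt_id)
  set T : ℝ := 1 / ε + 1 / R + ‖c‖ + 1 with hT
  have hTpos : 0 < T := by positivity
  have hbig : ∀ z : Eu 4, ‖z‖ = T → 0 < inner ℝ (F z) z := by
    intro z hz
    have hz0 : z ≠ 0 := by
      rintro rfl
      rw [norm_zero] at hz
      linarith
    have h1 : (v + (‖z‖ ^ 2)⁻¹ • z) - v = (‖z‖ ^ 2)⁻¹ • z := by abel
    have h2 : F z = sgm v R (v + (‖z‖ ^ 2)⁻¹ • z) - c := by
      simp only [hF, if_neg hz0]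
      apply hnear _ (hzv z hz0)
      rw [h1, hnz z hz0, hz, inv_lt_comm₀ hTpos hε, ← one_div]
      have : 0 < 1 / R := by positivity
      linarith [norm_nonneg c]
    have h3 : sgm v R (v + (‖z‖ ^ 2)⁻¹ • z) = (1 - 1 / (T * R)) • z := by
      unfold sgm
      rw [h1, hnz z hz0, hz]
      have h4 : 0 ≤ 1 - T⁻¹ / R := by
        rw [sub_nonneg, div_le_one hR, inv_le_comm₀ hTpos hR, ← one_div]
        have : 0 < 1 / ε := by positivity
        linarith [norm_nonneg c]
      rw [max_eq_left h4, smul_smul]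
      congr 1
      field_simp
    rw [h2, h3, inner_sub_left, inner_smul_left, real_inner_self_eq_norm_sq, hz]
    have h5 : inner ℝ c z ≤ ‖c‖ * T := by
      rw [← hz]
      exact real_inner_le_norm c z
    have h6 : (1 - 1 / (T * R)) * T ^ 2 = T ^ 2 - T / R := by
      field_simp
    simp only [conj_trivial]
    rw [h6]
    have h7 : T / R = T * (1 / R) := by ring
    have h8 : 0 < 1 / ε := by positivity
    rw [h7]
    nlinarith
  obtain ⟨z, hz, hfz⟩ := Common_Brouwer.schauder (K := Metric.closedBall (0 : Eu 4) T)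
    (isCompact_closedBall _ _) (convex_closedBall _ _) ⟨0, Metric.mem_closedBall_self hTpos.le⟩
    (f := fun z => -(T / ‖F z‖) • F z) (by
      have h9 : Continuous fun z => -(T / ‖F z‖) :=
        (continuous_const.div hFc.norm fun z => norm_ne_zero_iff.2 (hF0 z)).neg
      exact (h9.smul hFc).continuousOn)
    (by
      intro z _
      rw [mem_closedBall_zero_iff, norm_smul, norm_neg, norm_div, norm_norm, Real.norm_eq_abs,
        abs_of_pos hTpos, div_mul_cancel₀ _ (norm_ne_zero_iff.2 (hF0 z))])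
  have hzT : ‖z‖ = T := by
    rw [← hfz, norm_smul, norm_neg, norm_div, norm_norm, Real.norm_eq_abs,
        abs_of_pos hTpos, div_mul_cancel₀ _ (norm_ne_zero_iff.2 (hF0 z))]
  have h1 := hbig z hzT
  have h2 : inner ℝ (F z) z = -(T / ‖F z‖) * ‖F z‖ ^ 2 := by
    conv_lhs => rw [← hfz]
    rw [inner_smul_right]
    have : inner ℝ (F (-(T / ‖F z‖) • F z)) (F z) = ‖F z‖ ^ 2 := by
      have h3 : (-(T / ‖F z‖) • F z) = z := hfz
      rw [h3, real_inner_self_eq_norm_sq]
    rw [this]
  rw [h2] at h1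
  have h3 : 0 < ‖F z‖ := norm_pos_iff.2 (hF0 z)
  have h4 : 0 < T / ‖F z‖ * ‖F z‖ ^ 2 := by positivity
  linarith

/-- the same on `ℝ × S³` -/
theorem no_map' (v₀ : XT) (c : Eu 4) (R : ℝ) (hR : 0 < R) (hc : c ≠ 0) (F : XT → Eu 4)
    (hF : ∀ q, q ≠ v₀ → ContinuousAt F q) (hF0 : ∀ q, q ≠ v₀ → F q ≠ 0) (S : ℝ)
    (hS : ∀ q : XT, S ≤ |q.1| → F q = -c) (ε : ℝ) (hε : 0 < ε)
    (hnear : ∀ q, q ≠ v₀ → ‖io q - io v₀‖ < ε → F q = sgm (io v₀) R (io q) - c) : False := by
  classical
  set G : Eu 4 → Eu 4 := fun y => if h : y ≠ 0 then F (ioH.symm ⟨y, h⟩) else -c with hG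
  have hGio : ∀ q, G (io q) = F q := by
    intro q
    simp only [hG, dif_pos (io_ne q)]
    congr 1
    exact ioH.symm_apply_apply q
  have hsurj : ∀ y : Eu 4, y ≠ 0 → ∃ q, io q = y := by
    intro y hy
    refine ⟨ioH.symm ⟨y, hy⟩, ?_⟩
    exact congrArg Subtype.val (ioH.apply_symm_apply ⟨y, hy⟩)
  have hfar : ∀ y : Eu 4, Real.exp |S| ≤ ‖y‖ → G y = -c := by
    intro y hy
    have hy0 : y ≠ 0 := by
      rintro rfl
      rw [norm_zero] at hy
      exact absurd (Real.exp_pos |S|) (not_lt.2 hy)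
    obtain ⟨q, rfl⟩ := hsurj y hy0
    rw [hGio]
    apply hS
    rw [norm_io, Real.exp_le_exp] at hy
    exact (le_abs_self S).trans (hy.trans (le_abs_self _))
  have hclose : ∀ y : Eu 4, ‖y‖ ≤ Real.exp (-|S|) → G y = -c := by
    intro y hy
    by_cases hy0 : y = 0
    · simp [hG, hy0]
    obtain ⟨q, rfl⟩ := hsurj y hy0
    rw [hGio]
    apply hS
    rw [norm_io, Real.exp_le_exp] at hy
    exact (le_abs_self S).trans ((by linarith : |S| ≤ -q.1).trans (neg_le_abs _))
  refine no_map (io v₀) c R hR hc G ?_ ?_ (Real.exp |S|) hfar (min ε ‖io v₀‖)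
    (lt_min hε (norm_pos_iff.2 (io_ne v₀))) ?_
  · intro y hy
    by_cases hy0 : y = 0
    · subst hy0
      have : G =ᶠ[𝓝 0] fun _ => -c := by
        filter_upwards [Metric.ball_mem_nhds (0 : Eu 4) (Real.exp_pos (-|S|))] with z hz
        rw [mem_ball_zero_iff] at hz
        exact hclose z hz.le
      exact continuousAt_const.congr this.symm
    · obtain ⟨q, rfl⟩ := hsurj y hy0
      have hq : q ≠ v₀ := by
        rintro rfl
        exact hy rfl
      have h1 : Topology.IsOpenEmbedding io := by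
        have := (IsOpen.isOpenEmbedding_subtypeVal (isOpen_ne (x := (0 : Eu 4)))).comp
          ioH.isOpenEmbedding
        exact this
      have h2 : ContinuousAt (G ∘ io) q := by
        have : G ∘ io = F := funext hGio
        rw [this]
        exact hF q hq
      exact (h1.continuousAt_iff).1 h2
  · intro y hy
    by_cases hy0 : y = 0
    · simp only [hG, hy0, ne_eq, not_true_eq_false, dite_false]
      exact neg_ne_zero.2 hc
    · obtain ⟨q, rfl⟩ := hsurj y hy0
      rw [hGio]
      apply hF0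
      rintro rfl
      exact hy rfl
  · intro y hy hyε
    by_cases hy0 : y = 0
    · subst hy0
      rw [zero_sub, norm_neg] at hyε
      exact absurd (hyε.trans_le (min_le_right _ _)) (lt_irrefl _)
    · obtain ⟨q, rfl⟩ := hsurj y hy0
      rw [hGio]
      apply hnear _ _ (hyε.trans_le (min_le_left _ _))
      rintro rfl
      exact hy rfl

end Pool.Agent.S1S3.BR

namespace Pool.Agent.S1S3

open BR

theorem brou : BrouStatement := by
  classical
  intro P _ K U V hU hV hUV hUVK hKU hKV e ℓ α β ε C hε hℓ hhom A B hA hB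
  have hK : IsClosed K := hUVK ▸ hU.inter hV
  set Φ := hhom.homeomorph with hΦ
  -- a point of the annulus
  obtain ⟨p₁, hp₁⟩ : ∃ p : P, α p ≠ 1 := by
    have h : Nonempty ({z : Circle // z ≠ 1} × Circle × ℝ) := by
      refine ⟨(⟨Circle.exp Real.pi, ?_⟩, 1, 0)⟩
      intro h
      have := congrArg (fun z : Circle => (z : ℂ).re) h
      simp only [Circle.coe_exp, Circle.coe_one, Complex.one_re] at this
      rw [Complex.exp_pi_mul_I] at this
      norm_num at this
    obtain ⟨t⟩ := h
    exact ⟨(Φ.symm t).1, (Φ.symm t).2⟩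
  set y₀ : XT := (e p₁ : XT) with hy₀
  -- the part of `K` where `α = 1`
  set W : Set XT := {q | ∀ p, (e p : XT) = q → α p ≠ 1} with hW
  have hWo : IsOpen W := by
    have h1 : IsClosed (α ⁻¹' {1}) := isClosed_singleton.preimage α.continuous
    have h2 : IsClosed ((fun p => (e p : XT)) '' (α ⁻¹' {1})) := by
      have : Topology.IsClosedEmbedding (fun p => (e p : XT)) :=
        (hK.isClosedEmbedding_subtypeVal).comp e.isClosedEmbedding
      exact this.isClosedMap _ h1
    convert h2.isOpen_compl using 1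
    ext q
    simp only [hW, mem_ofPred_eq, mem_compl_iff, mem_image, mem_preimage, mem_singleton_iff,
      not_exists, not_and]
    constructor
    · intro h p hp hq
      exact h p hq hp
    · intro h p hq hp
      exact h p hp hq
  have hy₀W : y₀ ∈ W := by
    intro p hp
    have : p = p₁ := e.injective (Subtype.ext hp)
    rw [this]
    exact hp₁
  obtain ⟨δ, hδ, hball⟩ := Metric.isOpen_iff.1 (isOpen_image hWo) (io y₀) ⟨y₀, hy₀W, rfl⟩
  have hy₀K : y₀ ∈ K := (e p₁).2
  -- nearby points on both sides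
  have hnbhd : io ⁻¹' Metric.ball (io y₀) (δ / 4) ∈ 𝓝 y₀ :=
    continuous_io.continuousAt.preimage_mem_nhds (Metric.ball_mem_nhds _ (by positivity))
  obtain ⟨p₀, hp₀, hp₀U, hp₀K⟩ := mem_closure_iff_nhds.1 (hKU hy₀K) _ hnbhd
  obtain ⟨v₀, hv₀, hv₀V, hv₀K⟩ := mem_closure_iff_nhds.1 (hKV hy₀K) _ hnbhd
  have hp₀V : p₀ ∉ V := fun h => hp₀K (hUVK ▸ ⟨hp₀U, h⟩)
  have hv₀U : v₀ ∉ U := fun h => hv₀K (hUVK ▸ ⟨h, hv₀V⟩)
  simp only [mem_preimage, Metric.mem_ball] at hp₀ hv₀
  set v : Eu 4 := io v₀ with hv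
  set R : ℝ := δ / 2 with hR
  have hRpos : 0 < R := by positivity
  have hpv : ‖io p₀ - v‖ < R := by
    rw [← dist_eq_norm]
    have := dist_triangle_right (io p₀) v (io y₀)
    linarith
  have hpnv : io p₀ ≠ v := by
    intro h
    have := io_inj h
    rw [this] at hp₀V
    exact hp₀V hv₀V
  -- points at distance at most `R` from `v` are in `W`
  have hnear : ∀ y : Eu 4, ‖y - v‖ ≤ R → y ∈ io '' W := by
    intro y hy
    apply hball
    rw [Metric.mem_ball]
    rw [← dist_eq_norm] at hy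
    have := dist_triangle y v (io y₀)
    linarith
  have hvR : R < ‖v‖ := by
    by_contra hcon
    obtain ⟨q, -, hq⟩ := hnear 0 (by
      rw [zero_sub, norm_neg]
      exact not_lt.1 hcon)
    exact io_ne q hq
  set c : Eu 4 := sgm v R (io p₀) with hc
  have hc0 : c ≠ 0 := by
    obtain ⟨h1, h2⟩ := sgm_near hRpos hpnv hpv
    rw [← norm_pos_iff, hc, h1]
    exact h2
  have hne : ∀ p : P, io (e p) ≠ v := by
    intro p h
    have := io_inj h
    apply hv₀K
    rw [← this]
    exact (e p).2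
  -- the map on the torus times the line
  set Rm : Circle × Circle × ℝ → Eu 4 := fun t =>
    if h : t.1 ≠ 1 then sgm v R (io (e (Φ.symm (⟨t.1, h⟩, t.2.1, t.2.2)).1)) - c else -c with hRm
  have hRmP : ∀ p : P, Rm (α p, β p, ℓ p) = sgm v R (io (e p)) - c := by
    intro p
    by_cases h : α p ≠ 1
    · simp only [hRm, dif_pos h]
      have : Φ.symm (⟨α p, h⟩, β p, ℓ p) = ⟨p, h⟩ := by
        apply Φ.injective
        rw [Φ.apply_symm_apply]
        rfl
      rw [this]
    · simp only [hRm, dif_neg h]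
      rw [sgm_far hRpos, zero_sub]
      by_contra hcon
      obtain ⟨q, hq, hqe⟩ := hnear _ (not_le.1 hcon).le
      rw [io_inj hqe] at hq
      exact h (hq p rfl)
  have hΦsymm : ∀ t : {z : Circle // z ≠ 1} × Circle × ℝ, (α (Φ.symm t).1 = t.1.1) ∧
      (β (Φ.symm t).1 = t.2.1) ∧ ℓ (Φ.symm t).1 = t.2.2 := by
    intro t
    have h : Φ (Φ.symm t) = t := Φ.apply_symm_apply t
    have h1 : Φ (Φ.symm t) = (⟨α (Φ.symm t).1, (Φ.symm t).2⟩, β (Φ.symm t).1, ℓ (Φ.symm t).1) :=
      rfl
    rw [h1] at h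
    refine ⟨?_, ?_, ?_⟩
    · exact congrArg (fun t => t.1.1) h
    · exact congrArg (fun t => t.2.1) h
    · exact congrArg (fun t => t.2.2) h
  have hRm0 : ∀ t, Rm t ≠ 0 := by
    intro t
    by_cases h : t.1 ≠ 1
    · simp only [hRm, dif_pos h]
      intro h0
      have h1 := sgm_inj hRpos (hne _) hpnv hpv (sub_eq_zero.1 h0)
      apply hp₀K
      rw [← io_inj h1]
      exact (e _).2
    · simp only [hRm, dif_neg h]
      exact neg_ne_zero.2 hc0
  -- the compact set outside of which it is constant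
  set M : Set P := {p | ‖io (e p) - v‖ ≤ R} with hM
  have hMα : ∀ p ∈ M, α p ≠ 1 := by
    intro p hp
    obtain ⟨q, hq, hqe⟩ := hnear _ hp
    rw [io_inj hqe] at hq
    exact hq p rfl
  have hMc : IsCompact M := by
    have h1 : IsCompact {q : XT | ‖io q - v‖ ≤ R} := by
      refine IsCompact.of_isClosed_subset (s := Icc (Real.log (‖v‖ - R)) (Real.log (‖v‖ + R)) ×ˢ
        (univ : Set (Sn 3))) (isCompact_Icc.prod isCompact_univ) ?_ ?_
      · exact isClosed_le (by
          have := continuous_io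
          fun_prop) continuous_const
      · intro q hq
        have hq' : ‖io q - v‖ ≤ R := hq
        have h2 : ‖v‖ - R ≤ Real.exp q.1 := by
          rw [← norm_io]
          have := norm_sub_norm_le v (io q)
          rw [norm_sub_rev] at this
          linarith
        have h3 : Real.exp q.1 ≤ ‖v‖ + R := by
          rw [← norm_io]
          have := norm_sub_norm_le (io q) v
          linarith
        refine ⟨⟨?_, ?_⟩, mem_univ _⟩
        · rw [Real.log_le_iff_le_exp (by linarith)]
          exact h2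
        · rw [Real.le_log_iff_exp_le (by linarith [norm_nonneg v])]
          exact h3
    have h2 : Topology.IsClosedEmbedding (fun p => (e p : XT)) :=
      (hK.isClosedEmbedding_subtypeVal).comp e.isClosedEmbedding
    exact h2.isCompact_preimage h1
  have hRmc : ∀ t, t ∉ (fun p => (α p, β p, ℓ p)) '' M → Rm t = -c := by
    intro t ht
    by_cases h : t.1 ≠ 1
    · simp only [hRm, dif_pos h]
      rw [sgm_far hRpos, zero_sub]
      by_contra hcon
      apply ht
      refine ⟨_, (not_le.1 hcon).le, ?_⟩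
      obtain ⟨h1, h2, h3⟩ := hΦsymm (⟨t.1, h⟩, t.2.1, t.2.2)
      exact Prod.ext h1 (Prod.ext h2 h3)
    · simp only [hRm, dif_neg h]
  have hM'c : IsCompact ((fun p => (α p, β p, ℓ p)) '' M) := hMc.image (by fun_prop)
  have hRmcont : Continuous Rm := by
    rw [continuous_iff_continuousAt]
    intro t
    by_cases h : t.1 ≠ 1
    · have ho : IsOpen {t : Circle × Circle × ℝ | t.1 ≠ 1} :=
        (isOpen_ne (x := (1 : Circle))).preimage continuous_fst
      have h1 : ContinuousAt (Rm ∘ (Subtype.val : {t : Circle × Circle × ℝ | t.1 ≠ 1} → _))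
          ⟨t, h⟩ := by
        have h2 : Rm ∘ (Subtype.val : {t : Circle × Circle × ℝ | t.1 ≠ 1} → _) =
            fun t => sgm v R (io (e (Φ.symm (⟨t.1.1, t.2⟩, t.1.2.1, t.1.2.2)).1)) - c := by
          funext s
          have hs : s.1.1 ≠ 1 := s.2
          simp only [Function.comp, hRm, dif_pos hs]
        rw [h2]
        refine ContinuousAt.sub ?_ continuousAt_const
        refine ContinuousAt.comp (f := fun t : {t : Circle × Circle × ℝ | t.1 ≠ 1} =>
          io (e (Φ.symm (⟨t.1.1, t.2⟩, t.1.2.1, t.1.2.2)).1)) (continuousAt_sgm (hne _)) ?_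
        apply Continuous.continuousAt
        refine continuous_io.comp (continuous_subtype_val.comp (e.continuous.comp
          (continuous_subtype_val.comp (Φ.symm.continuous.comp ?_))))
        refine Continuous.prodMk (Continuous.subtype_mk (by fun_prop) _) (by fun_prop)
      exact (ho.isOpenEmbedding_subtypeVal.continuousAt_iff).1 h1
    · have h1 : t ∉ (fun p => (α p, β p, ℓ p)) '' M := by
        rintro ⟨p, hp, rfl⟩
        exact h (hMα p hp)
      have h2 : Rm =ᶠ[𝓝 t] fun _ => -c := by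
        filter_upwards [hM'c.isClosed.isOpen_compl.mem_nhds h1] with s hs
        exact hRmc s hs
      exact continuousAt_const.congr h2.symm
  -- extension of the height
  have hε1 : |ε| = 1 := by
    rcases hε with rfl | rfl <;> norm_num
  have hεε : ε * ε = 1 := by
    rcases hε with rfl | rfl <;> norm_num
  obtain ⟨g, hgC, hg⟩ := ContinuousMap.exists_restrict_eq_forall_mem_of_closed
    (⟨fun q : K => ℓ (e.symm q) - ε * q.1.1, by fun_prop⟩ : C(K, ℝ)) (t := Icc (-C) C) (by
      intro q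
      have h1 := hℓ (e.symm q)
      rw [e.apply_symm_apply] at h1
      have h2 : |ℓ (e.symm q) - ε * q.1.1| = |q.1.1 - ε * ℓ (e.symm q)| := by
        have h3 : ℓ (e.symm q) - ε * q.1.1 = -ε * (q.1.1 - ε * ℓ (e.symm q)) := by
          linear_combination (-ℓ (e.symm q)) * hεε
        rw [h3, abs_mul, abs_neg, hε1, one_mul]
      rw [← h2] at h1
      exact abs_le.1 h1) (by
      have h1 := hℓ p₁
      have h2 := (abs_nonneg _).trans h1
      exact ⟨0, by linarith, h2⟩) hK
  have hgK : ∀ p : P, g (e p) + ε * (e p).1.1 = ℓ p := by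
    intro p
    have h1 := congrArg (fun f : C(K, ℝ) => f (e p)) hg
    simp only [ContinuousMap.restrict_apply, ContinuousMap.coe_mk, e.symm_apply_apply] at h1
    rw [h1]
    ring
  set F : XT → Eu 4 := fun q =>
    if h : q ∈ U then Rm (A ⟨q, h⟩, B ⟨q, h⟩, g q + ε * q.1) else sgm v R (io q) - c with hF
  have hFV : ∀ q ∈ V, F q = sgm v R (io q) - c := by
    intro q hq
    by_cases h : q ∈ U
    · simp only [hF, dif_pos h]
      have hqK : q ∈ K := hUVK ▸ ⟨h, hq⟩
      obtain ⟨p, hp⟩ := e.surjective ⟨q, hqK⟩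
      have hpq : (e p : XT) = q := congrArg Subtype.val hp
      subst hpq
      rw [← hRmP p, hA p h, hB p h, hgK p]
    · simp only [hF, dif_neg h]
  obtain ⟨S₁, hS₁⟩ : ∃ S₁ : ℝ, ∀ t ∈ (fun p => (α p, β p, ℓ p)) '' M, |t.2.2| ≤ S₁ := by
    obtain ⟨S₁, hS₁⟩ := hM'c.exists_bound_of_continuousOn (f := fun t => t.2.2) (by fun_prop)
    exact ⟨S₁, hS₁⟩
  obtain ⟨r, hr, hballU⟩ := Metric.isOpen_iff.1 (isOpen_image hU.isOpen_compl) (io v₀)
    ⟨v₀, hv₀U, rfl⟩
  have hFU : ContinuousOn F U := by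
    rw [continuousOn_iff_continuous_domRestrict]
    have h1 : U.domRestrict F = fun q : U => Rm (A q, B q, g q.1 + ε * q.1.1) := by
      funext q
      simp only [domRestrict_apply, hF, dif_pos q.2]
    rw [h1]
    exact hRmcont.comp (by fun_prop)
  refine no_map' v₀ c R hRpos hc0 F ?_ ?_
    (max (S₁ + C + 1) (max (Real.log (‖v‖ + R)) (-Real.log (‖v‖ - R)))) ?_ r hr ?_
  · intro q hq
    have hqv : io q ≠ v := fun h => hq (io_inj h)
    rw [← continuousWithinAt_univ, ← hUV]
    refine ContinuousWithinAt.union ?_ ?_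
    · by_cases h : q ∈ U
      · exact hFU q h
      · exact continuousWithinAt_of_notMem_closure (by rwa [hU.closure_eq])
    · by_cases h : q ∈ V
      · refine ContinuousWithinAt.congr (f := fun q => sgm v R (io q) - c) ?_ hFV (hFV q h)
        apply ContinuousAt.continuousWithinAt
        refine ContinuousAt.sub ?_ continuousAt_const
        exact ContinuousAt.comp (f := io) (continuousAt_sgm hqv) continuous_io.continuousAt
      · exact continuousWithinAt_of_notMem_closure (by rwa [hV.closure_eq])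
  · intro q hq
    by_cases h : q ∈ U
    · simp only [hF, dif_pos h]
      exact hRm0 _
    · simp only [hF, dif_neg h]
      intro h0
      have hqv : io q ≠ v := fun h => hq (io_inj h)
      have h1 := sgm_inj hRpos hqv hpnv hpv (sub_eq_zero.1 h0)
      rw [io_inj h1] at h
      exact h hp₀U
  · intro q hq
    by_cases h : q ∈ U
    · simp only [hF, dif_pos h]
      apply hRmc
      intro hmem
      have h1 := hS₁ _ hmem
      simp only at h1
      have h2 : |q.1| ≤ |g q + ε * q.1| + |g q| := by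
        have h3 : |ε * q.1| = |q.1| := by rw [abs_mul, hε1, one_mul]
        rw [← h3]
        have h4 : ε * q.1 = (g q + ε * q.1) - g q := by ring
        conv_lhs => rw [h4]
        exact abs_sub _ _
      have h3 : |g q| ≤ C := abs_le.2 (hgC q)
      have h4 := le_max_left (S₁ + C + 1) (max (Real.log (‖v‖ + R)) (-Real.log (‖v‖ - R)))
      linarith
    · simp only [hF, dif_neg h]
      rw [sgm_far hRpos, zero_sub]
      have h1 : Real.log (‖v‖ + R) ≤ |q.1| :=
        ((le_max_left _ _).trans (le_max_right _ _)).trans hq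
      have h2 : -Real.log (‖v‖ - R) ≤ |q.1| :=
        ((le_max_right _ _).trans (le_max_right _ _)).trans hq
      rcases le_total 0 q.1 with h3 | h3
      · rw [abs_of_nonneg h3, Real.log_le_iff_le_exp (by linarith [norm_nonneg v])] at h1
        have := norm_sub_norm_le (io q) v
        rw [norm_io] at this
        linarith
      · rw [abs_of_nonpos h3] at h2
        have h4 : q.1 ≤ Real.log (‖v‖ - R) := by linarith
        rw [Real.le_log_iff_exp_le (by linarith)] at h4
        have := norm_sub_norm_le v (io q)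
        rw [norm_io q, norm_sub_rev] at this
        linarith
  · intro q hq hqr
    have h : q ∉ U := by
      obtain ⟨q', hq', hqq⟩ := hballU (mem_ball_iff_norm.2 hqr)
      rw [← io_inj hqq]
      exact hq'
    simp only [hF, dif_neg h]
    rfl

end Pool.Agent.S1S3
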