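import Pool.Agent.Helper81_S1S3.PuncWind

/-!
# The infinite cyclic cover: coordinates
-/

set_option autoImplicit false
set_option linter.unusedSectionVars false

open scoped Manifold Topology unitInterval
open CategoryTheory Set

noncomputable section

namespace Pool.Agent.S1S3

/-! ### the covering of the pieces by products -/

/-- the covering `(ζ, x) ↦ (ζ^p, ζ x)` of the piece -/
def pcC (p : ℕ) : C(Circle × Punc p 0, Piece p 0) where
  toFun q := ⟨(q.1 ^ p, ⟨rot (q.1 : ℂ) (q.2.1 : Eu 3), by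
    rw [mem_sphere_zero_iff_norm, norm_rot_circle, norm_eq_of_mem_sphere]⟩), by
    intro ζ hζ he
    refine q.2.2 (q.1⁻¹ * ζ) ?_ ?_
    · rw [mul_pow, hζ, inv_pow, inv_mul_cancel]
    · have he' : rot (q.1 : ℂ) (q.2.1 : Eu 3) = core ζ := he
      rw [← rot_core, ← he', rot_inv_rot]⟩
  continuous_toFun := by
    refine Continuous.subtype_mk (Continuous.prodMk (by fun_prop)
      (Continuous.subtype_mk ?_ _)) _
    fun_prop

theorem pcC_fst (p : ℕ) (q : Circle × Punc p 0) : (pcC p q).1.1 = q.1 ^ p := rfl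

theorem pcC_snd (p : ℕ) (q : Circle × Punc p 0) :
    ((pcC p q).1.2 : Eu 3) = rot (q.1 : ℂ) (q.2.1 : Eu 3) := rfl

theorem pcC_eq {p : ℕ} {q q' : Circle × Punc p 0} (h : pcC p q = pcC p q') :
    q.1 ^ p = q'.1 ^ p ∧ rot (q.1 : ℂ) (q.2.1 : Eu 3) = rot (q'.1 : ℂ) (q'.2.1 : Eu 3) := by
  constructor
  · rw [← pcC_fst, h, pcC_fst]
  · rw [← pcC_snd, h, pcC_snd]

theorem pcC_congr {p : ℕ} {q q' : Circle × Punc p 0} (h1 : q.1 ^ p = q'.1 ^ p)
    (h2 : rot (q.1 : ℂ) (q.2.1 : Eu 3) = rot (q'.1 : ℂ) (q'.2.1 : Eu 3)) :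
    pcC p q = pcC p q' :=
  Subtype.ext (Prod.ext h1 (Subtype.ext h2))

theorem pow_surj (p : ℕ) (hp : p = 2 ∨ p = 3) : Function.Surjective fun z : Circle => z ^ p := by
  have hp0 : (p : ℝ) ≠ 0 := by rcases hp with rfl | rfl <;> norm_num
  intro z
  obtain ⟨t, rfl⟩ := ee_surjective z
  refine ⟨ee (t / p), ?_⟩
  simp only
  rw [ee_pow, mul_div_cancel₀ _ hp0]

theorem isOpenMap_powC (p : ℕ) (hp : p = 2 ∨ p = 3) : IsOpenMap fun z : Circle => z ^ p := by
  have h := MonoidHom.isOpenMap_of_sigmaCompact (powMonoidHom p : Circle →* Circle)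
    (pow_surj p hp) (continuous_pow p)
  exact h

theorem pcC_surjective (p : ℕ) (hp : p = 2 ∨ p = 3) : Function.Surjective (pcC p) := by
  intro a
  obtain ⟨ζ, hζ⟩ := pow_surj p hp a.1.1
  simp only at hζ
  refine ⟨(ζ, ⟨⟨rot ((ζ⁻¹ : Circle) : ℂ) (a.1.2 : Eu 3), by
    rw [mem_sphere_zero_iff_norm, norm_rot_circle, norm_eq_of_mem_sphere]⟩, ?_⟩), ?_⟩
  · intro ξ hξ he
    refine a.2 (ζ * ξ) ?_ ?_
    · rw [mul_pow, hξ, mul_one, hζ]
    · have he' : rot ((ζ⁻¹ : Circle) : ℂ) (a.1.2 : Eu 3) = core ξ := he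
      rw [← rot_core, ← he', rot_rot_inv]
  · refine Subtype.ext (Prod.ext hζ (Subtype.ext ?_))
    exact rot_rot_inv ζ _

theorem isOpen_punc (p : ℕ) :
    IsOpen {x : Sn 2 | ∀ ζ : Circle, ζ ^ p = 1 → (x : Eu 3) ≠ core ζ} := by
  have h := (isOpen_pieceSet p 0).preimage
    (Continuous.prodMk_right (1 : Circle) : Continuous fun x : Sn 2 => ((1 : Circle), x))
  exact h

theorem isOpenMap_pcC (p : ℕ) (hp : p = 2 ∨ p = 3) : IsOpenMap (pcC p) := by
  set Θ : Circle × Sn 2 ≃ₜ Circle × Sn 2 :=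
    { toFun := fun q => (q.1, ⟨rot (q.1 : ℂ) (q.2 : Eu 3), by
        rw [mem_sphere_zero_iff_norm, norm_rot_circle, norm_eq_of_mem_sphere]⟩)
      invFun := fun q => (q.1, ⟨rot ((q.1⁻¹ : Circle) : ℂ) (q.2 : Eu 3), by
        rw [mem_sphere_zero_iff_norm, norm_rot_circle, norm_eq_of_mem_sphere]⟩)
      left_inv := fun q => Prod.ext rfl (Subtype.ext (rot_inv_rot _ _))
      right_inv := fun q => Prod.ext rfl (Subtype.ext (rot_rot_inv _ _))
      continuous_toFun := by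
        refine Continuous.prodMk (by fun_prop) (Continuous.subtype_mk ?_ _)
        fun_prop
      continuous_invFun := by
        refine Continuous.prodMk (by fun_prop) (Continuous.subtype_mk ?_ _)
        fun_prop } with hΘ
  have h1 : IsOpenMap fun q : Circle × Punc p 0 => ((q.1, q.2.1) : Circle × Sn 2) :=
    IsOpenMap.id.prodMap (isOpen_punc p).isOpenMap_subtype_val
  have h2 : IsOpenMap fun q : Circle × Sn 2 => (q.1 ^ p, q.2) :=
    (isOpenMap_powC p hp).prodMap IsOpenMap.id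
  have h3 := (h2.comp Θ.isOpenMap).comp h1
  have h4 : (((fun q : Circle × Sn 2 => (q.1 ^ p, q.2)) ∘ Θ) ∘
      fun q : Circle × Punc p 0 => ((q.1, q.2.1) : Circle × Sn 2)) =
      Subtype.val ∘ pcC p := rfl
  rw [h4] at h3
  intro W hW
  have h5 := (h3 W hW).preimage (continuous_subtype_val (p := fun x => x ∈ pieceO p 0))
  rw [image_comp, preimage_image_eq _ Subtype.val_injective] at h5
  exact h5

theorem neckMap_eq (p : ℕ) (hp : p = 2 ∨ p = 3) (q : Neck 0) :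
    neckMap p 0 hp q = pcC p (q.1.1, sgp p hp ⟨q.1.2, q.2⟩) := rfl

/-! ### sixth roots of unity are isolated -/

/-- a neighbourhood of `1` without other sixth roots of unity -/
def T6 : Set Circle := (range fun r : Fin 5 => ee (((r : ℕ) + 1 : ℝ) / 6))ᶜ

theorem isOpen_T6 : IsOpen T6 := (finite_range _).isClosed.isOpen_compl

theorem one_mem_T6 : (1 : Circle) ∈ T6 := by
  rintro ⟨r, hr⟩
  simp only at hr
  rw [← ee_zero, ee_eq_iff] at hr
  obtain ⟨n, hn⟩ := hr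
  have h1 := r.2
  have h2 : ((r : ℕ) : ℝ) + 1 = 6 * n := by linarith
  have h3 : (((r : ℕ) : ℤ) + 1) = 6 * n := by exact_mod_cast h2
  omega

theorem exists_int_of_pow_six {z : Circle} {s : ℝ} (h : z ^ 6 = ee s) :
    ∃ k : ℤ, z = ee ((s + k) / 6) := by
  obtain ⟨t, rfl⟩ := ee_surjective z
  rw [ee_pow, ee_eq_iff] at h
  obtain ⟨n, hn⟩ := h
  refine ⟨n, ?_⟩
  congr 1
  push_cast at hn
  linarith

theorem eq_one_of_mem_T6 {z : Circle} (h6 : z ^ 6 = 1) (h : z ∈ T6) : z = 1 := by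
  obtain ⟨k, hk⟩ := exists_int_of_pow_six (s := 0) (by rw [h6, ee_zero])
  rw [zero_add] at hk
  have hmod := Int.emod_add_mul_ediv k 6
  have h0 := Int.emod_nonneg k (by norm_num : (6 : ℤ) ≠ 0)
  have h5 := Int.emod_lt_of_pos k (by norm_num : (0 : ℤ) < 6)
  have hz : z = ee (((k % 6 : ℤ) : ℝ) / 6) := by
    rw [hk, ee_eq_iff]
    refine ⟨k / 6, ?_⟩
    have : ((k : ℤ) : ℝ) = ((k % 6 + 6 * (k / 6) : ℤ) : ℝ) := by rw [hmod]
    rw [this]
    push_cast
    ring
  by_cases h1 : k % 6 = 0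
  · rw [hz, h1]
    simp [ee_zero]
  · exfalso
    apply h
    refine ⟨⟨(k % 6 - 1).toNat, by omega⟩, ?_⟩
    simp only
    rw [hz]
    congr 2
    have h2 : (((k % 6 - 1).toNat : ℕ) : ℤ) = k % 6 - 1 := Int.toNat_of_nonneg (by omega)
    have h3 : (((k % 6 - 1).toNat : ℕ) : ℝ) = (((k % 6 - 1 : ℤ)) : ℝ) := by exact_mod_cast h2
    rw [h3]
    push_cast
    ring

/-! ### the sides -/

variable {Y : Type} [TopologicalSpace Y]

/-- one of the two kinds of pieces -/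
structure Side (φ : C(Y, Circle)) (p q : ℕ) where
  hp : p = 2 ∨ p = 3
  hpq : p * q = 6
  j : Piece p 0 → Y
  emb : Topology.IsOpenEmbedding j
  hφ : ∀ a, φ (j a) = a.1.1 ^ q

variable {φ : C(Y, Circle)} {p q : ℕ}

namespace Side

variable (S : Side φ p q)

/-- coordinates on the components of the preimage of the piece -/
def cP (k : ℤ) : C(ℝ × Punc p 0, Yt φ) where
  toFun x := ⟨(S.j (pcC p (ee ((x.1 + k) / 6), x.2)), x.1), by
    show φ (S.j _) = ee x.1
    rw [S.hφ, pcC_fst, ← pow_mul, S.hpq, ee_pow]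
    have : ((6 : ℕ) : ℝ) * ((x.1 + k) / 6) = x.1 + k := by
      push_cast
      ring
    rw [this, ee_add, ee_int, mul_one]⟩
  continuous_toFun := by
    refine Continuous.subtype_mk (Continuous.prodMk (S.emb.continuous.comp
      ((pcC p).continuous.comp (by fun_prop))) (by fun_prop)) _

theorem cP_fst (k : ℤ) (x : ℝ × Punc p 0) :
    (S.cP k x).1.1 = S.j (pcC p (ee ((x.1 + k) / 6), x.2)) := rfl

theorem cP_snd (k : ℤ) (x : ℝ × Punc p 0) : (S.cP k x).1.2 = x.1 := rfl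

theorem isOpenMap_cP (k : ℤ) : IsOpenMap (S.cP k) := by
  intro W hW
  set W' : Set ((Circle × Punc p 0) × ℝ) :=
    {y | (y.2, y.1.2) ∈ W ∧ y.1.1 * ee (-((y.2 + k) / 6)) ∈ T6} with hW'
  have hW'o : IsOpen W' := by
    apply IsOpen.inter
    · exact hW.preimage (by fun_prop)
    · exact isOpen_T6.preimage (by fun_prop)
  have h1 : IsOpenMap fun y : (Circle × Punc p 0) × ℝ => (S.j (pcC p y.1), y.2) :=
    (S.emb.isOpenMap.comp (isOpenMap_pcC p S.hp)).prodMap IsOpenMap.id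
  have h2 := (h1 W' hW'o).preimage (continuous_subtype_val
    (p := fun q : Y × ℝ => φ q.1 = Circle.exp (2 * Real.pi * q.2)))
  convert h2 using 1
  ext y
  constructor
  · rintro ⟨x, hx, rfl⟩
    refine ⟨((ee ((x.1 + k) / 6), x.2), x.1), ⟨hx, ?_⟩, rfl⟩
    simp only
    rw [← ee_add, add_neg_cancel, ee_zero]
    exact one_mem_T6
  · rintro ⟨x, ⟨hx1, hx2⟩, hxy⟩
    have h3 : y.1.1 = S.j (pcC p x.1) := (congrArg Prod.fst hxy).symm
    have h4 : y.1.2 = x.2 := (congrArg Prod.snd hxy).symm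
    have h5 : x.1.1 ^ 6 = ee x.2 := by
      have := y.2
      rw [h3, S.hφ, pcC_fst, ← pow_mul, S.hpq, h4] at this
      exact this
    have h6 : x.1.1 * ee (-((x.2 + k) / 6)) = 1 := by
      refine eq_one_of_mem_T6 ?_ hx2
      rw [mul_pow, h5, ee_pow, ← ee_add]
      have : x.2 + ((6 : ℕ) : ℝ) * -((x.2 + k) / 6) = ((-k : ℤ) : ℝ) := by
        push_cast
        ring
      rw [this, ee_int]
    have h7 : x.1.1 = ee ((x.2 + k) / 6) := by
      rw [ee_neg] at h6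
      exact mul_inv_eq_one.1 h6
    refine ⟨(x.2, x.1.2), hx1, ?_⟩
    apply Subtype.ext
    refine Prod.ext ?_ ?_
    · rw [S.cP_fst, h3, ← h7]
    · rw [S.cP_snd, h4]

include S in
theorem q_ne : (q : ℝ) ≠ 0 := by
  intro h
  have h1 := S.hpq
  have h2 : q = 0 := by exact_mod_cast h
  rw [h2] at h1
  simp at h1

include S in
theorem q_div : (q : ℝ) / 6 = 1 / p := by
  have h1 : ((p * q : ℕ) : ℝ) = 6 := by
    rw [S.hpq]
    norm_num
  have hp0 : (p : ℝ) ≠ 0 := by rcases S.hp with rfl | rfl <;> norm_num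
  push_cast at h1
  field_simp
  linarith

theorem cP_add (k n : ℤ) (s : ℝ) (x : Punc p 0) :
    S.cP (k + q * n) (s, x) = S.cP k (s, rz p S.hp n x) := by
  have hp0 : (p : ℝ) ≠ 0 := by rcases S.hp with rfl | rfl <;> norm_num
  have h1 : ee ((s + ((k + q * n : ℤ) : ℝ)) / 6) = ee ((s + k) / 6) * ee (n / p) := by
    rw [← ee_add]
    congr 1
    have := S.q_div
    push_cast
    have h2 : (s + (k + q * n)) / 6 = (s + k) / 6 + (q / 6) * (n : ℝ) := by ring
    rw [h2, this]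
    ring
  apply Subtype.ext
  refine Prod.ext ?_ rfl
  rw [S.cP_fst, S.cP_fst]
  congr 1
  apply pcC_congr
  · show ee _ ^ p = ee _ ^ p
    rw [h1, mul_pow, ee_div_pow p S.hp, mul_one]
  · show rot ((ee _ : Circle) : ℂ) _ = rot _ (rot _ _)
    rw [h1, Circle.coe_mul, rot_mul]

theorem cP_eq {k k' : ℤ} {s s' : ℝ} {x x' : Punc p 0} (h : S.cP k (s, x) = S.cP k' (s', x')) :
    s = s' ∧ ∃ n : ℤ, k' = k + q * n ∧ x = rz p S.hp n x' := by
  have hp0 : (p : ℝ) ≠ 0 := by rcases S.hp with rfl | rfl <;> norm_num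
  have hs : s = s' := by
    have := congrArg (fun y : Yt φ => y.1.2) h
    exact this
  subst hs
  refine ⟨rfl, ?_⟩
  have h1 : pcC p (ee ((s + k) / 6), x) = pcC p (ee ((s + k') / 6), x') := by
    apply S.emb.injective
    exact congrArg (fun y : Yt φ => y.1.1) h
  obtain ⟨h2, h3⟩ := pcC_eq h1
  simp only at h2 h3
  rw [ee_pow, ee_pow, ee_eq_iff] at h2
  obtain ⟨n, hn⟩ := h2
  have h4 : (p : ℝ) * q = 6 := by
    have : ((p * q : ℕ) : ℝ) = 6 := by
      rw [S.hpq]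
      norm_num
    exact_mod_cast this
  have h5 : (k' : ℝ) = k + q * ((-n : ℤ) : ℝ) := by
    have h6 : (p : ℝ) * (k' - k + q * n) = 0 := by
      have : (p : ℝ) * q * n = 6 * n := by rw [h4]
      linarith
    have h7 := (mul_eq_zero.1 h6).resolve_left hp0
    push_cast
    linarith
  have h5' : k' = k + q * (-n) := by exact_mod_cast h5
  refine ⟨-n, h5', ?_⟩
  apply punc_ext
  rw [rz_coe]
  have h6 : ee ((s + k') / 6) = ee ((s + k) / 6) * ee (((-n : ℤ) : ℝ) / p) := by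
    rw [← ee_add]
    congr 1
    have := S.q_div
    rw [h5]
    have h2 : (s + (k + q * ((-n : ℤ) : ℝ))) / 6 = (s + k) / 6 + (q / 6) * ((-n : ℤ) : ℝ) := by
      ring
    rw [h2, this]
    ring
  rw [h6, Circle.coe_mul, rot_mul] at h3
  have h7 := congrArg (rot (((ee ((s + k) / 6))⁻¹ : Circle) : ℂ)) h3
  rwa [rot_inv_rot, rot_inv_rot] at h7

theorem exists_cP (y : Yt φ) (hy : y.1.1 ∈ range S.j) :
    ∃ (k : ℤ) (x : Punc p 0), y = S.cP k (y.1.2, x) := by
  obtain ⟨a, ha⟩ := hy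
  obtain ⟨⟨ζ, x⟩, rfl⟩ := pcC_surjective p S.hp a
  have h5 : ζ ^ 6 = ee y.1.2 := by
    have := y.2
    rw [← ha, S.hφ, pcC_fst, ← pow_mul, S.hpq] at this
    exact this
  obtain ⟨k, hk⟩ := exists_int_of_pow_six h5
  refine ⟨k, x, ?_⟩
  apply Subtype.ext
  refine Prod.ext ?_ rfl
  rw [S.cP_fst, ← hk, ha]

theorem deck_cP (k : ℤ) (s : ℝ) (x : Punc p 0) :
    deck φ (S.cP k (s, x)) = S.cP (k - 1) (s + 1, x) := by
  apply Subtype.ext
  refine Prod.ext ?_ rfl
  show (S.cP k (s, x)).1.1 = _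
  rw [S.cP_fst, S.cP_fst]
  congr 4
  push_cast
  ring

end Side

end Pool.Agent.S1S3
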