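import Pool.Agent.Helper81_S1S3.Cover

/-!
# The infinite cyclic cover: necks and gluing of maps
-/

set_option autoImplicit false
set_option linter.unusedSectionVars false

open scoped Manifold Topology unitInterval
open CategoryTheory Set

noncomputable section

namespace Pool.Agent.S1S3

/-- `p = 2` -/
abbrev h22 : (2 : ℕ) = 2 ∨ (2 : ℕ) = 3 := Or.inl rfl
/-- `p = 3` -/
abbrev h33 : (3 : ℕ) = 2 ∨ (3 : ℕ) = 3 := Or.inr rfl

/-- the gluing map on the fibre of the neck -/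
def twb (ζ : Circle) (b : N0) : N0 := ⟨tw ζ (b : Eu 2), by
  rw [norm_tw b.2.1 b.2.2]
  constructor <;> linarith [b.2.1, b.2.2]⟩

/-- its inverse -/
def twbInv (ζ : Circle) (b : N0) : N0 := ⟨twInv ζ (b : Eu 2), by
  rw [norm_twInv b.2.1 b.2.2]
  constructor <;> linarith [b.2.1, b.2.2]⟩

theorem twbInv_twb (ζ : Circle) (b : N0) : twbInv ζ (twb ζ b) = b :=
  Subtype.ext (twInv_tw b.2.1 b.2.2 ζ)

theorem twb_twbInv (ζ : Circle) (b : N0) : twb ζ (twbInv ζ b) = b :=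
  Subtype.ext (tw_twInv b.2.1 b.2.2 ζ)

theorem continuous_twb : Continuous fun q : Circle × N0 => twb q.1 q.2 := by
  refine Continuous.subtype_mk ?_ _
  unfold tw
  have : ∀ q : Circle × N0, ‖(q.2 : Eu 2)‖ ≠ 0 := fun q => q.2.2.1.ne'
  fun_prop (disch := assumption)

theorem continuous_twbInv : Continuous fun q : Circle × N0 => twbInv q.1 q.2 := by
  refine Continuous.subtype_mk ?_ _
  unfold twInv
  have : ∀ q : Circle × N0, ‖(q.2 : Eu 2)‖ ≠ 0 := fun q => q.2.2.1.ne'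
  fun_prop (disch := assumption)

theorem norm_twb (ζ : Circle) (b : N0) : ‖(twb ζ b : Eu 2)‖ = 1 / 2 - ‖(b : Eu 2)‖ :=
  norm_tw b.2.1 b.2.2 ζ

theorem rot2_zero (z : ℂ) (x : Eu 2) : rot z x 0 = z.re * x 0 - z.im * x 1 :=
  rot_apply_zero (k := 0) z x

theorem rot2_one (z : ℂ) (x : Eu 2) : rot z x 1 = z.im * x 0 + z.re * x 1 :=
  rot_apply_one (k := 0) z x

theorem etaN_twb (ζ : Circle) (b : N0) : etaN (twb ζ b) = ζ * etaN b := by
  have h1 := b.2.1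
  have h2 := (twb ζ b).2.1
  have h3 : (1 / 2 - ‖(b : Eu 2)‖) ≠ 0 := by linarith [b.2.2]
  have h4 : (1 - 2 * ‖(b : Eu 2)‖) ≠ 0 := by linarith [b.2.2]
  apply Circle.ext
  apply Complex.ext
  · rw [Circle.coe_mul, Complex.mul_re, etaN_re, etaN_re, etaN_im, norm_twb]
    show (((1 / 2 - ‖(b : Eu 2)‖) / ‖(b : Eu 2)‖) • rot (ζ : ℂ) (b : Eu 2)) 0 / _ = _
    rw [PiLp.smul_apply, rot2_zero, smul_eq_mul]
    field_simp
  · rw [Circle.coe_mul, Complex.mul_im, etaN_re, etaN_im, etaN_im, norm_twb]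
    show (((1 / 2 - ‖(b : Eu 2)‖) / ‖(b : Eu 2)‖) • rot (ζ : ℂ) (b : Eu 2)) 1 / _ = _
    rw [PiLp.smul_apply, rot2_one, smul_eq_mul]
    field_simp
    ring

variable {Y : Type} [TopologicalSpace Y] {φ : C(Y, Circle)}

/-- the data of the infinite cyclic cover -/
structure Cov (φ : C(Y, Circle)) where
  D : Glued 0 Y
  h₂ : ∀ a, φ (D.j₂ a) = a.1.1 ^ 3
  h₃ : ∀ b, φ (D.j₃ b) = b.1.1 ^ 2

/-- compatible families of maps on the coordinate pieces -/
structure Fam (T : Type) [TopologicalSpace T] where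
  FA : ℤ → C(ℝ × Punc 2 0, T)
  FB : ℤ → C(ℝ × Punc 3 0, T)
  perA : ∀ k s x, FA (k + 3) (s, x) = FA k (s, rz 2 h22 1 x)
  perB : ∀ k s x, FB (k + 2) (s, x) = FB k (s, rz 3 h33 1 x)

/-- the neck in the first piece -/
def nA : C(ℝ × N0, ℝ × Punc 2 0) := (ContinuousMap.id ℝ).prodMap (sgp 2 h22)

theorem nA_apply (q : ℝ × N0) : nA q = (q.1, sgp 2 h22 q.2) := rfl

/-- the neck in the second piece -/
def nB (k : ℤ) : C(ℝ × N0, ℝ × Punc 3 0) :=
  ⟨fun q => (q.1, sgp 3 h33 (twb (ee ((q.1 + k) / 6)) q.2)), by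
    have h : Continuous fun q : ℝ × N0 => ((ee ((q.1 + k) / 6), q.2) : Circle × N0) := by
      fun_prop
    have h2 := continuous_twb.comp h
    exact Continuous.prodMk (by fun_prop) ((sgp 3 h33).continuous.comp h2)⟩

theorem nB_apply (k : ℤ) (q : ℝ × N0) :
    nB k q = (q.1, sgp 3 h33 (twb (ee ((q.1 + k) / 6)) q.2)) := rfl

theorem per_int {p : ℕ} (hp : p = 2 ∨ p = 3) {q : ℤ} {T : Type} (F : ℤ → ℝ × Punc p 0 → T)
    (h : ∀ k s x, F (k + q) (s, x) = F k (s, rz p hp 1 x)) (k n : ℤ) (s : ℝ) (x : Punc p 0) :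
    F (k + q * n) (s, x) = F k (s, rz p hp n x) := by
  induction n using Int.induction_on generalizing x with
  | zero => rw [mul_zero, add_zero, rz_zero]
  | succ n ih =>
    have h1 : k + q * ((n : ℤ) + 1) = (k + q * n) + q := by ring
    rw [h1, h, ih, rz_add]
  | pred n ih =>
    have h1 : k + q * (-(n : ℤ) - 1) = (k + q * (-(n : ℤ))) - q := by ring
    have h2 := h ((k + q * (-(n : ℤ))) - q) s (rz p hp (-1) x)
    rw [sub_add_cancel, rz_add, ih, rz_add] at h2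
    have h3 : (1 : ℤ) + -1 = 0 := by norm_num
    rw [h3, rz_zero] at h2
    rw [h1, ← h2]
    rfl

namespace Fam

variable {T : Type} [TopologicalSpace T] (F : Fam T)

theorem perA_int (k n : ℤ) (s : ℝ) (x : Punc 2 0) :
    F.FA (k + 3 * n) (s, x) = F.FA k (s, rz 2 h22 n x) :=
  per_int h22 (fun k => F.FA k) F.perA k n s x

theorem perB_int (k n : ℤ) (s : ℝ) (x : Punc 3 0) :
    F.FB (k + 2 * n) (s, x) = F.FB k (s, rz 3 h33 n x) :=
  per_int h33 (fun k => F.FB k) F.perB k n s x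

end Fam

namespace Cov

variable (G : Cov φ)

/-- the first kind of pieces -/
def A : Side φ 2 3 := ⟨h22, rfl, G.D.j₂, G.D.emb₂, G.h₂⟩

/-- the second kind of pieces -/
def B : Side φ 3 2 := ⟨h33, rfl, G.D.j₃, G.D.emb₃, G.h₃⟩

/-- the necks -/
def nP (k : ℤ) : C(ℝ × N0, Yt φ) := (G.A.cP k).comp nA

theorem nP_A (k : ℤ) (q : ℝ × N0) : G.nP k q = G.A.cP k (nA q) := rfl

theorem nP_B (k : ℤ) (q : ℝ × N0) : G.nP k q = G.B.cP k (nB k q) := by
  apply Subtype.ext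
  refine Prod.ext ?_ rfl
  rw [nP_A, Side.cP_fst, Side.cP_fst]
  have h := (G.D.glue (pcC 2 (ee ((q.1 + k) / 6), sgp 2 h22 q.2))
    (pcC 3 (ee ((q.1 + k) / 6), sgp 3 h33 (twb (ee ((q.1 + k) / 6)) q.2)))).2
    ⟨⟨(ee ((q.1 + k) / 6), q.2.1), q.2.2⟩, rfl, rfl⟩
  exact h

theorem exists_neck {k k' : ℤ} {x : ℝ × Punc 2 0} {x' : ℝ × Punc 3 0}
    (h : G.A.cP k x = G.B.cP k' x') : ∃ (i : ℤ) (b : N0), G.A.cP k x = G.nP i (x.1, b) := by
  have h1 : G.D.j₂ (pcC 2 (ee ((x.1 + k) / 6), x.2)) =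
      G.D.j₃ (pcC 3 (ee ((x'.1 + k') / 6), x'.2)) := congrArg (fun y : Yt φ => y.1.1) h
  obtain ⟨⟨⟨z, b⟩, hb⟩, h2, -⟩ := (G.D.glue _ _).1 h1
  rw [neckMap_eq] at h2
  have h3 : z ^ 6 = ee x.1 := by
    have h4 := (G.A.cP k x).2
    rw [Side.cP_fst, h2] at h4
    have h5 := G.A.hφ (pcC 2 (z, sgp 2 h22 ⟨b, hb⟩))
    rw [pcC_fst] at h5
    have h6 : φ (G.A.j (pcC 2 (z, sgp 2 h22 ⟨b, hb⟩))) = ee x.1 := h4
    rw [← h6, h5, ← pow_mul]
  obtain ⟨i, hi⟩ := exists_int_of_pow_six h3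
  refine ⟨i, ⟨b, hb⟩, ?_⟩
  apply Subtype.ext
  refine Prod.ext ?_ rfl
  rw [Side.cP_fst, h2, nP_A, Side.cP_fst, hi]
  rfl

theorem cover (y : Yt φ) : (∃ (k : ℤ) (x : Punc 2 0), y = G.A.cP k (y.1.2, x)) ∨
    ∃ (k : ℤ) (x : Punc 3 0), y = G.B.cP k (y.1.2, x) := by
  have h : y.1.1 ∈ range G.D.j₂ ∪ range G.D.j₃ := G.D.cover ▸ mem_univ _
  rcases h with h | h
  · exact Or.inl (G.A.exists_cP y h)
  · exact Or.inr (G.B.exists_cP y h)

theorem desc {T : Type} [TopologicalSpace T] (F : Fam T)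
    (hF : ∀ k q, F.FA k (nA q) = F.FB k (nB k q)) :
    ∃ f : C(Yt φ, T), (∀ k x, f (G.A.cP k x) = F.FA k x) ∧ ∀ k x, f (G.B.cP k x) = F.FB k x := by
  classical
  have hA : ∀ (k k' : ℤ) (x x' : ℝ × Punc 2 0), G.A.cP k x = G.A.cP k' x' →
      F.FA k x = F.FA k' x' := by
    rintro k k' ⟨s, x⟩ ⟨s', x'⟩ h
    obtain ⟨rfl, n, rfl, rfl⟩ := G.A.cP_eq h
    exact (F.perA_int k n s x').symm
  have hB : ∀ (k k' : ℤ) (x x' : ℝ × Punc 3 0), G.B.cP k x = G.B.cP k' x' →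
      F.FB k x = F.FB k' x' := by
    rintro k k' ⟨s, x⟩ ⟨s', x'⟩ h
    obtain ⟨rfl, n, rfl, rfl⟩ := G.B.cP_eq h
    exact (F.perB_int k n s x').symm
  have hAB : ∀ (k k' : ℤ) (x : ℝ × Punc 2 0) (x' : ℝ × Punc 3 0), G.A.cP k x = G.B.cP k' x' →
      F.FA k x = F.FB k' x' := by
    intro k k' x x' h
    obtain ⟨i, b, hi⟩ := G.exists_neck h
    rw [hA k i x (nA (x.1, b)) hi, hF]
    apply hB
    rw [← nP_B, ← hi, h]
  set f : Yt φ → T := fun y =>
    if h : ∃ (k : ℤ) (x : Punc 2 0), y = G.A.cP k (y.1.2, x) then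
      F.FA h.choose (y.1.2, h.choose_spec.choose)
    else F.FB ((G.cover y).resolve_left h).choose
      (y.1.2, ((G.cover y).resolve_left h).choose_spec.choose) with hf
  have h1 : ∀ k x, f (G.A.cP k x) = F.FA k x := by
    intro k x
    have h : ∃ (k' : ℤ) (x' : Punc 2 0), G.A.cP k x = G.A.cP k' ((G.A.cP k x).1.2, x') :=
      ⟨k, x.2, rfl⟩
    simp only [hf, dif_pos h]
    exact hA _ _ _ _ h.choose_spec.choose_spec.symm
  have h2 : ∀ k x, f (G.B.cP k x) = F.FB k x := by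
    intro k x
    by_cases h : ∃ (k' : ℤ) (x' : Punc 2 0), G.B.cP k x = G.A.cP k' ((G.B.cP k x).1.2, x')
    · simp only [hf, dif_pos h]
      exact hAB _ _ _ _ h.choose_spec.choose_spec.symm
    · simp only [hf, dif_neg h]
      exact hB _ _ _ _ ((G.cover (G.B.cP k x)).resolve_left h).choose_spec.choose_spec.symm
  refine ⟨⟨f, ⟨fun O hO => ?_⟩⟩, h1, h2⟩
  have h3 : f ⁻¹' O = (⋃ k, G.A.cP k '' (F.FA k ⁻¹' O)) ∪ ⋃ k, G.B.cP k '' (F.FB k ⁻¹' O) := by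
    ext y
    simp only [mem_preimage, mem_union, mem_iUnion, mem_image]
    constructor
    · intro hy
      rcases G.cover y with ⟨k, x, hk⟩ | ⟨k, x, hk⟩
      · left
        refine ⟨k, (y.1.2, x), ?_, hk.symm⟩
        rw [← h1, ← hk]
        exact hy
      · right
        refine ⟨k, (y.1.2, x), ?_, hk.symm⟩
        rw [← h2, ← hk]
        exact hy
    · rintro (⟨k, x, hx, rfl⟩ | ⟨k, x, hx, rfl⟩)
      · rw [h1]
        exact hx
      · rw [h2]
        exact hx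
  rw [h3]
  refine IsOpen.union (isOpen_iUnion fun k => ?_) (isOpen_iUnion fun k => ?_)
  · exact G.A.isOpenMap_cP k _ (hO.preimage (F.FA k).continuous)
  · exact G.B.isOpenMap_cP k _ (hO.preimage (F.FB k).continuous)

/-- the family of a map -/
def fam {T : Type} [TopologicalSpace T] (f : C(Yt φ, T)) : Fam T where
  FA k := f.comp (G.A.cP k)
  FB k := f.comp (G.B.cP k)
  perA k s x := by
    have := G.A.cP_add k 1 s x
    simp only [Nat.cast_ofNat, mul_one] at this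
    show f _ = f _
    rw [this]
  perB k s x := by
    have := G.B.cP_add k 1 s x
    simp only [Nat.cast_ofNat, mul_one] at this
    show f _ = f _
    rw [this]

theorem ext {T : Type} [TopologicalSpace T] {f g : C(Yt φ, T)}
    (hA : ∀ k x, f (G.A.cP k x) = g (G.A.cP k x)) (hB : ∀ k x, f (G.B.cP k x) = g (G.B.cP k x)) :
    f = g := by
  ext y
  rcases G.cover y with ⟨k, x, hk⟩ | ⟨k, x, hk⟩
  · rw [hk]
    exact hA k _
  · rw [hk]
    exact hB k _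

end Cov

end Pool.Agent.S1S3
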