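import Pool.Agent.Helper83_S1S3.Exp

/-!
# Circle-valued functions: logarithms and degrees
-/

set_option autoImplicit false
set_option linter.unusedSectionVars false

open scoped Manifold ContDiff Topology unitInterval
open CategoryTheory Set

noncomputable section

namespace Pool.Agent.S1S3

variable {X Y : Type} [TopologicalSpace X] [TopologicalSpace Y]

theorem IsExp.one : IsExp (1 : C(X, Circle)) := ⟨0, fun x => by simp⟩

theorem IsExp.div {f g : C(X, Circle)} (hf : IsExp f) (hg : IsExp g) : IsExp (f / g) := by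
  rw [div_eq_mul_inv]
  exact hf.mul hg.inv

theorem isExp_const (c : Circle) : IsExp (ContinuousMap.const X c) := by
  obtain ⟨t, ht⟩ := Circle.exp_surjective c
  exact ⟨ContinuousMap.const X t, fun x => by simp [ht]⟩

/-- homotopy invariance -/
theorem isExp_of_homotopy (H : C(I × X, Circle))
    (h0 : IsExp (H.comp ((ContinuousMap.const X (0 : I)).prodMk (ContinuousMap.id X)))) :
    IsExp (H.comp ((ContinuousMap.const X (1 : I)).prodMk (ContinuousMap.id X))) := by
  obtain ⟨u, hu⟩ := h0
  refine ⟨(Circle.isCoveringMap_exp.liftHomotopy H u fun a => hu a).comp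
    ((ContinuousMap.const X (1 : I)).prodMk (ContinuousMap.id X)), fun x => ?_⟩
  have := congrFun (Circle.isCoveringMap_exp.liftHomotopy_lifts H u fun a => hu a) (1, x)
  exact this.symm

/-- the quotient of the two ends of a homotopy has a logarithm -/
theorem isExp_div_of_homotopy (H : C(I × X, Circle)) :
    IsExp (H.comp ((ContinuousMap.const X (1 : I)).prodMk (ContinuousMap.id X)) *
      (H.comp ((ContinuousMap.const X (0 : I)).prodMk (ContinuousMap.id X)))⁻¹) := by
  have := isExp_of_homotopy (H * ((H.comp ((ContinuousMap.const X (0 : I)).prodMk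
    (ContinuousMap.id X)))⁻¹).comp ContinuousMap.snd) (by
      refine ⟨0, fun x => ?_⟩
      simp)
  exact this

theorem isExp_of_contraction (H : C(I × X, X)) (x₀ : X) (h0 : ∀ x, H (0, x) = x₀)
    (h1 : ∀ x, H (1, x) = x) (f : C(X, Circle)) : IsExp f := by
  have := isExp_of_homotopy (f.comp H) (by
    have h : (f.comp H).comp ((ContinuousMap.const X (0 : I)).prodMk (ContinuousMap.id X)) =
        ContinuousMap.const X (f x₀) := by
      ext x
      simp [h0]
    rw [h]
    exact isExp_const _)
  have h : (f.comp H).comp ((ContinuousMap.const X (1 : I)).prodMk (ContinuousMap.id X)) = f := by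
    ext x
    simp [h1]
  rwa [h] at this

/-- two logarithms of the same function on a connected space differ by a constant -/
theorem log_unique [PreconnectedSpace X] (u v : C(X, ℝ))
    (h : ∀ x, Circle.exp (u x) = Circle.exp (v x)) (x y : X) : u x - v x = u y - v y := by
  have hint : ∃ m : ℤ, u y = v y + m * (2 * Real.pi) := Circle.exp_eq_exp.1 (h y)
  obtain ⟨m, hm⟩ := hint
  have h1 : (u : X → ℝ) = fun x => v x + (u y - v y) := by
    refine Circle.isCoveringMap_exp.eq_of_comp_eq u.continuous (by fun_prop) ?_ y (by ring)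
    funext z
    simp only [Function.comp]
    rw [h z, hm, add_sub_cancel_left, Circle.exp_add, Circle.exp_int_mul_two_pi, mul_one]
  have := congrFun h1 x
  linarith

theorem log_unique_int [PreconnectedSpace X] [Nonempty X] (u v : C(X, ℝ))
    (h : ∀ x, Circle.exp (u x) = Circle.exp (v x)) :
    ∃ n : ℤ, ∀ x, u x = v x + 2 * Real.pi * n := by
  obtain ⟨x₀⟩ := ‹Nonempty X›
  obtain ⟨m, hm⟩ := Circle.exp_eq_exp.1 (h x₀)
  refine ⟨m, fun x => ?_⟩
  have := log_unique u v h x x₀
  linarith

/-- the identity of the circle -/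
def idC : C(Circle, Circle) := ContinuousMap.id Circle

theorem circle_deg_unique (n : ℤ) (h : IsExp (idC ^ n)) : n = 0 := by
  obtain ⟨u, hu⟩ := h
  have h1 := log_unique (X := ℝ) ⟨fun t => n * t, by fun_prop⟩ (u.comp ⟨Circle.exp, by fun_prop⟩)
    (by
      intro t
      simp only [ContinuousMap.coe_mk, ContinuousMap.comp_apply]
      rw [← hu]
      have : (idC ^ n : C(Circle, Circle)) (Circle.exp t) = (Circle.exp t) ^ n := rfl
      rw [this, ← Circle.exp_zsmul, zsmul_eq_mul]) (2 * Real.pi) 0
  have h5 : (n : ℝ) * (2 * Real.pi) - u (Circle.exp (2 * Real.pi)) =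
    n * 0 - u (Circle.exp 0) := h1
  rw [Circle.exp_two_pi, Circle.exp_zero] at h5
  have h2 : (n : ℝ) * (2 * Real.pi) = 0 := by linarith
  have h3 : (2 * Real.pi : ℝ) ≠ 0 := by positivity
  have h4 : (n : ℝ) = 0 := by
    rcases mul_eq_zero.1 h2 with h | h
    · exact h
    · exact absurd h h3
  exact_mod_cast h4

theorem isExp_real (f : C(ℝ, Circle)) : IsExp f := by
  refine isExp_of_contraction ⟨fun q : I × ℝ => (q.1 : ℝ) * q.2, by fun_prop⟩ 0 ?_ ?_ f
  · intro x
    simp
  · intro x
    simp

theorem isQuotientMap_exp : Topology.IsQuotientMap Circle.exp :=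
  Circle.isCoveringMap_exp.isLocalHomeomorph.isOpenMap.isQuotientMap Circle.exp.continuous
    Circle.exp_surjective

theorem circle_deg_exists (F : C(Circle, Circle)) : ∃ n : ℤ, IsExp (F * (idC ^ n)⁻¹) := by
  obtain ⟨v, hv⟩ := isExp_real (F.comp ⟨Circle.exp, by fun_prop⟩)
  obtain ⟨n, hn⟩ := log_unique_int (v.comp ⟨fun t => t + 2 * Real.pi, by fun_prop⟩) v (by
    intro t
    simp only [ContinuousMap.coe_mk, ContinuousMap.comp_apply]
    rw [← hv, ← hv]
    simp only [ContinuousMap.coe_mk, ContinuousMap.comp_apply]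
    rw [Circle.exp_add, Circle.exp_two_pi, mul_one])
  simp only [ContinuousMap.coe_mk, ContinuousMap.comp_apply] at hn
  have hcomp : Function.FactorsThrough (v - ⟨fun t => n * t, by fun_prop⟩ : C(ℝ, ℝ))
      Circle.exp := by
    intro a b hab
    obtain ⟨m, hm⟩ := Circle.exp_eq_exp.1 hab
    have hper : Function.Periodic (fun t => v t - n * t) (2 * Real.pi) := by
      intro t
      simp only
      rw [hn]
      ring
    have := hper.int_mul m b
    simp only [ContinuousMap.coe_sub, ContinuousMap.coe_mk, Pi.sub_apply]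
    rw [hm]
    exact this
  refine ⟨n, isQuotientMap_exp.lift (v - ⟨fun t => n * t, by fun_prop⟩) hcomp, ?_⟩
  intro z
  obtain ⟨t, rfl⟩ := Circle.exp_surjective z
  have h1 : (isQuotientMap_exp.lift (v - ⟨fun t => n * t, by fun_prop⟩) hcomp) (Circle.exp t) =
      v t - n * t :=
    congrArg (fun f : C(ℝ, ℝ) => f t) (isQuotientMap_exp.lift_comp _ hcomp)
  rw [h1, Circle.exp_sub]
  have h2 := hv t
  simp only [ContinuousMap.coe_mk, ContinuousMap.comp_apply] at h2
  have h3 : (F * (idC ^ n)⁻¹) (Circle.exp t) = F (Circle.exp t) * ((Circle.exp t) ^ n)⁻¹ := rfl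
  rw [h3, h2, ← Circle.exp_zsmul, zsmul_eq_mul, div_eq_mul_inv]

/-- gluing over a closed cover -/
theorem glue_closed81 {T : Type} [TopologicalSpace T] (A B : Set X) (hA : IsClosed A)
    (hB : IsClosed B) (hAB : A ∪ B = univ) (fA : C(A, T)) (fB : C(B, T))
    (h : ∀ (x : X) (ha : x ∈ A) (hb : x ∈ B), fA ⟨x, ha⟩ = fB ⟨x, hb⟩) :
    ∃ f : C(X, T), (∀ x : A, f x = fA x) ∧ ∀ x : B, f x = fB x := by
  classical
  have hB' : ∀ x, x ∉ A → x ∈ B := by
    intro x hx
    have : x ∈ A ∪ B := hAB ▸ mem_univ x
    exact this.resolve_left hx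
  set f : X → T := fun x => if hx : x ∈ A then fA ⟨x, hx⟩ else fB ⟨x, hB' x hx⟩ with hf
  have h1 : ∀ x : A, f x = fA x := by
    intro x
    simp only [hf, dif_pos x.2]
  have h2 : ∀ x : B, f x = fB x := by
    intro x
    by_cases hx : (x : X) ∈ A
    · simp only [hf, dif_pos hx]
      exact h x hx x.2
    · simp only [hf, dif_neg hx]
  refine ⟨⟨f, ?_⟩, h1, h2⟩
  rw [continuous_iff_continuousAt]
  intro x
  rw [← continuousWithinAt_univ, ← hAB]
  refine ContinuousWithinAt.union ?_ ?_
  · by_cases hx : x ∈ A
    · have : ContinuousOn f A := by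
        rw [continuousOn_iff_continuous_domRestrict]
        have h3 : A.domRestrict f = fA := funext h1
        rw [h3]
        exact fA.continuous
      exact this x hx
    · exact continuousWithinAt_of_notMem_closure (by rwa [hA.closure_eq])
  · by_cases hx : x ∈ B
    · have : ContinuousOn f B := by
        rw [continuousOn_iff_continuous_domRestrict]
        have h3 : B.domRestrict f = fB := funext h2
        rw [h3]
        exact fB.continuous
      exact this x hx
    · exact continuousWithinAt_of_notMem_closure (by rwa [hB.closure_eq])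

end Pool.Agent.S1S3
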