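import Pool.Agent.Helper83_S1S3.Stmts

/-!
# Module PHI: gluing of maps, the generator of the first cohomology group
-/

set_option autoImplicit false
set_option linter.unusedSectionVars false

open scoped Manifold ContDiff Topology
open CategoryTheory Set

noncomputable section

namespace Pool.Agent.S1S3

theorem Glued.desc {m : ℕ} {Z T : Type} [TopologicalSpace Z] [TopologicalSpace T] (D : Glued m Z)
    (F₂ : C(Piece 2 m, T)) (F₃ : C(Piece 3 m, T))
    (h : ∀ q : Neck m, F₂ (neckMap 2 m (Or.inl rfl) q) = F₃ (neckMap 3 m (Or.inr rfl) (twN m q))) :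
    ∃ F : C(Z, T), (∀ a, F (D.j₂ a) = F₂ a) ∧ ∀ b, F (D.j₃ b) = F₃ b := by
  classical
  have hcov : ∀ z, z ∉ range D.j₂ → z ∈ range D.j₃ := by
    intro z hz
    have : z ∈ range D.j₂ ∪ range D.j₃ := D.cover ▸ mem_univ z
    exact this.resolve_left hz
  set F : Z → T := fun z =>
    if hz : z ∈ range D.j₂ then F₂ hz.choose else F₃ (hcov z hz).choose with hF
  have h1 : ∀ a, F (D.j₂ a) = F₂ a := by
    intro a
    have hz : D.j₂ a ∈ range D.j₂ := mem_range_self a
    simp only [hF, dif_pos hz]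
    congr 1
    exact D.emb₂.injective hz.choose_spec
  have h2 : ∀ b, F (D.j₃ b) = F₃ b := by
    intro b
    by_cases hz : D.j₃ b ∈ range D.j₂
    · obtain ⟨a, ha⟩ := hz
      rw [← ha, h1]
      obtain ⟨q, rfl, rfl⟩ := (D.glue a b).1 ha
      exact h q
    · simp only [hF, dif_neg hz]
      congr 1
      exact D.emb₃.injective (hcov _ hz).choose_spec
  refine ⟨⟨F, ?_⟩, h1, h2⟩
  rw [continuous_iff_continuousAt]
  intro z
  by_cases hz : z ∈ range D.j₂
  · obtain ⟨a, rfl⟩ := hz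
    rw [← D.emb₂.continuousAt_iff]
    have : F ∘ D.j₂ = F₂ := funext h1
    rw [this]
    exact F₂.continuous.continuousAt
  · obtain ⟨b, rfl⟩ := hcov z hz
    rw [← D.emb₃.continuousAt_iff]
    have : F ∘ D.j₃ = F₃ := funext h2
    rw [this]
    exact F₃.continuous.continuousAt

theorem phi : PhiStatement := by
  intro m Z _ D
  refine D.desc ⟨fun a => a.1.1 ^ 3, by fun_prop⟩ ⟨fun b => b.1.1 ^ 2, by fun_prop⟩ ?_
  intro q
  show (q.1.1 ^ 2) ^ 3 = (q.1.1 ^ 3) ^ 2
  rw [← pow_mul, ← pow_mul]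

end Pool.Agent.S1S3
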