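import Pool.Agent.Helper81_S1S3.HomeoPart
import Pool.Agent.Helper81_S1S3.Phi

/-!
# Module GFACTS
-/

set_option autoImplicit false
set_option linter.unusedSectionVars false

open scoped Manifold Topology unitInterval
open CategoryTheory Set

noncomputable section

namespace Pool.Agent.S1S3

variable {Y : Type} [TopologicalSpace Y] {φ : C(Y, Circle)} (G : Cov φ)

theorem HasD.prod {G : Cov φ} {ι : Type} (s : Finset ι) (f : ι → C(Yt φ, Circle))
    (d : ι → ℤ → ℤ) (h : ∀ i, HasD G (f i) (d i)) : HasD G (∏ i ∈ s, f i) (∑ i ∈ s, d i) := by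
  classical
  induction s using Finset.induction_on with
  | empty =>
    rw [Finset.prod_empty, Finset.sum_empty]
    exact HasD.one
  | insert a s ha ih =>
    rw [Finset.prod_insert ha, Finset.sum_insert ha]
    exact (h a).mul ih

theorem Cov.wz_val (f : C(Yt φ, Circle)) (k : ℤ) :
    G.wz f (((k : ZMod 6).val : ℕ) : ℤ) = G.wz f k := by
  rw [ZMod.val_intCast]
  have h := G.wz_add f (k % 6) (k / 6)
  rw [Int.emod_add_mul_ediv] at h
  exact_mod_cast h.symm

theorem Cov.wz_of_cast (f : C(Yt φ, Circle)) (j : ZMod 6) (k : ℤ) (h : j = (k : ZMod 6)) :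
    G.wz f ((j.val : ℕ) : ℤ) = G.wz f k := by
  rw [h]
  exact G.wz_val f k

theorem cast_val (j : ZMod 6) : ((j.val : ℤ) : ZMod 6) = j := by
  simp

theorem dl_sub (j : ZMod 6) (i : ℤ) : dl81 j (i - 1) = dl81 (j + 1) i := by
  unfold dl81
  have h : ((i - 1 : ℤ) : ZMod 6) = j ↔ (i : ZMod 6) = j + 1 := by
    push_cast
    exact sub_eq_iff_eq_add
  by_cases h1 : ((i - 1 : ℤ) : ZMod 6) = j
  · rw [if_pos h1, if_pos (h.1 h1)]
  · rw [if_neg h1, if_neg (fun h2 => h1 (h.2 h2))]

theorem alphaL_FA_shift (j : ZMod 6) (k : ℤ) (s : ℝ) (x : Punc 2 0) :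
    (alphaL j).FA (k - 1) (s + 1, x) = (alphaL (j + 1)).FA k (s, x) := by
  show symF h22 3 (tA j) (k - 1) (s + 1, x) = symF h22 3 (tA (j + 1)) k (s, x)
  rw [symF_apply, symF_apply]
  refine Finset.sum_congr rfl fun n _ => ?_
  rw [tA_apply, tA_apply]
  have : k - 1 + 3 * (n : ℤ) = (k + 3 * n) - 1 := by ring
  rw [this, dl_sub]

theorem alphaL_FB_shift (j : ZMod 6) (k : ℤ) (s : ℝ) (x : Punc 3 0) :
    (alphaL j).FB (k - 1) (s + 1, x) = (alphaL (j + 1)).FB k (s, x) := by
  show symF h33 2 (tB j) (k - 1) (s + 1, x) = symF h33 2 (tB (j + 1)) k (s, x)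
  rw [symF_apply, symF_apply]
  refine Finset.sum_congr rfl fun n _ => ?_
  rw [tB_apply, tB_apply]
  have : k - 1 + 2 * (n : ℤ) = (k + 2 * n) - 1 := by ring
  rw [this, dl_sub]

theorem alphaF_deck (j : ZMod 6) :
    (alphaF G j).comp (deck φ : C(Yt φ, Yt φ)) = alphaF G (j + 1) := by
  apply G.ext
  · rintro k ⟨s, x⟩
    show alphaF G j (deck φ (G.A.cP k (s, x))) = _
    rw [G.A.deck_cP, alphaF_A, alphaF_A, alphaL_FA_shift]
  · rintro k ⟨s, x⟩
    show alphaF G j (deck φ (G.B.cP k (s, x))) = _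
    rw [G.B.deck_cP, alphaF_B, alphaF_B, alphaL_FB_shift]

theorem HasD.periodic {G : Cov φ} {f : C(Yt φ, Circle)} {d : ℤ → ℤ} (h : HasD G f d) (k n : ℤ) :
    d (k + 6 * n) = d k := by
  obtain ⟨L, -, -, h3⟩ := h
  obtain ⟨q⟩ : Nonempty (ℝ × N0) := inferInstance
  have e1 := h3 (k + 6 * n) q
  have e2 := h3 k q
  rw [L.FA_six, L.FB_six, nB_six, e2] at e1
  have hpi : (2 * Real.pi : ℝ) ≠ 0 := by positivity
  exact_mod_cast (mul_left_cancel₀ hpi e1).symm

/-- the values of the indicator functions -/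
theorem dl_eq_zero (k : ℤ) : dl81 0 k = if k % 6 = 0 then 1 else 0 := by
  unfold dl81
  have h : (k : ZMod 6) = 0 ↔ k % 6 = 0 := by
    rw [ZMod.intCast_zmod_eq_zero_iff_dvd]
    push_cast
    exact Int.dvd_iff_emod_eq_zero
  by_cases h1 : (k : ZMod 6) = 0
  · rw [if_pos h1, if_pos (h.1 h1)]
  · rw [if_neg h1, if_neg (fun h2 => h1 (h.2 h2))]

theorem dl_int (m k : ℤ) : dl81 (m : ZMod 6) k = if (k - m) % 6 = 0 then 1 else 0 := by
  rw [← dl_eq_zero]
  unfold dl81
  have h : (k : ZMod 6) = (m : ZMod 6) ↔ ((k - m : ℤ) : ZMod 6) = 0 := by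
    push_cast
    exact sub_eq_zero.symm
  by_cases h1 : (k : ZMod 6) = (m : ZMod 6)
  · rw [if_pos h1, if_pos (h.1 h1)]
  · rw [if_neg h1, if_neg (fun h2 => h1 (h.2 h2))]

theorem dl_two (k : ℤ) : dl81 2 k = if (k - 2) % 6 = 0 then 1 else 0 := by
  have := dl_int 2 k
  push_cast at this
  exact this

theorem dl_four (k : ℤ) : dl81 4 k = if (k - 4) % 6 = 0 then 1 else 0 := by
  have := dl_int 4 k
  push_cast at this
  exact this

theorem hasD_pair (a b : ℤ) :
    HasD G (alphaF G 0 ^ a * alphaF G 2 ^ b) (fun k => -(a * dl81 0 k) - b * dl81 2 k) := by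
  have h := ((hasD_alphaF G 0).zpow a).mul ((hasD_alphaF G 2).zpow b)
  convert h using 1
  funext k
  simp only [Pi.add_apply, Pi.smul_apply, smul_eq_mul]
  ring

theorem gfacts : GFactsStatement := by
  intro Y _ D φ h₂ h₃
  set G : Cov φ := ⟨D, h₂, h₃⟩ with hG
  refine ⟨{
    w := fun f j => G.wz f ((j.val : ℕ) : ℤ)
    α := alphaF G
    β := betaF G
    c := -1
    c_ne := by norm_num
    conn := G.conn
    w_mul := fun f g j => G.wz_mul f g _
    w_exp := fun f hf j => G.wz_exp hf _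
    w_T := ?_
    w_three := ?_
    w_two := ?_
    w_α := ?_
    α_T := ?_
    α_three := ?_
    α_two := ?_
    gen := ?_
    indep := ?_
    six := ?_
    w_β := ?_
    homeo := homeo_part G }⟩
  · intro f j
    rw [G.wz_deck]
    apply (G.wz_of_cast f (j - 1) ((j.val : ℤ) - 1) ?_).symm
    push_cast
    rw [ZMod.natCast_zmod_val]
  · intro f j
    rw [G.wz_of_cast f (j + 3) ((j.val : ℤ) + 3) (by push_cast; rw [ZMod.natCast_zmod_val])]
    have := G.wz_three f (j.val : ℤ)
    linarith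
  · intro f
    exact G.wz_two f 0
  · intro i j
    exact G.wz_of_hasD (hasD_alphaF G i) _
  · intro j
    rw [alphaF_deck, mul_inv_cancel]
    exact IsExp.one
  · intro j
    have h := ((hasD_alphaF G j).mul (hasD_alphaF G (j + 3))).shift
      (fun k => dl81 j k + dl81 (j + 3) k) (fun _ => 0) (by
        intro k
        obtain ⟨m, rfl⟩ : ∃ m : ℤ, j = (m : ZMod 6) := ⟨j.val, by
          push_cast
          rw [ZMod.natCast_zmod_val]⟩
        have e : ((m : ZMod 6) + 3) = ((m + 3 : ℤ) : ZMod 6) := by push_cast; rfl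
        rw [e, dl_int, dl_int, dl_int, dl_int]
        split_ifs <;> omega) (by intro k; rfl)
    apply h.isExp
    intro k
    simp only [Pi.add_apply]
    ring
  · have h := (((hasD_alphaF G 0).mul (hasD_alphaF G 2)).mul (hasD_alphaF G 4)).shift
      (fun _ => 0) (fun k => -(dl81 0 k + dl81 2 k + dl81 4 k)) (by intro k; rfl) (by
        intro k
        rw [dl_eq_zero, dl_eq_zero, dl_two, dl_two, dl_four, dl_four]
        split_ifs <;> omega)
    apply h.isExp
    intro k
    simp only [Pi.add_apply]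
    ring
  · intro f hf
    obtain ⟨d, hd⟩ := G.hasD_of_wz f (fun k => by
      rw [← G.wz_val]
      exact hf _)
    refine ⟨-d 0 + d 3 + d 4 - d 1, -d 2 + d 5 + d 4 - d 1, ?_⟩
    have h := (hd.mul (hasD_pair G (-d 0 + d 3 + d 4 - d 1) (-d 2 + d 5 + d 4 - d 1)).inv).shift
      (fun k => if k % 3 = 0 then -d 3 else if k % 3 = 1 then -d 1 else -d 5)
      (fun k => if k % 2 = 0 then d 4 - d 1 else 0) (by
        intro k
        have e : (k + 3) % 3 = k % 3 := Int.add_emod_right k 3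
        simp only [e]) (by
        intro k
        have e : (k + 2) % 2 = k % 2 := Int.add_emod_right k 2
        simp only [e])
    apply h.isExp
    intro k
    simp only [Pi.add_apply, Pi.neg_apply]
    have hper := hd.periodic (k % 6) (k / 6)
    rw [Int.emod_add_mul_ediv] at hper
    rw [hper, dl_eq_zero, dl_two]
    have h0 := Int.emod_nonneg k (by norm_num : (6 : ℤ) ≠ 0)
    have h6 := Int.emod_lt_of_pos k (by norm_num : (0 : ℤ) < 6)
    have e3 : k % 3 = (k % 6) % 3 := by omega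
    have e2 : k % 2 = (k % 6) % 2 := by omega
    have e1 : (k - 2) % 6 = (k % 6 + 4) % 6 := by omega
    rw [e3, e2, e1]
    generalize k % 6 = r at *
    interval_cases r <;> norm_num <;> ring
  · intro a b hab
    obtain ⟨μ, ν, hμ, hν, h⟩ := (hasD_pair G a b).unique (hasD_of_isExp hab)
    have e0 := h 0
    have e1 := h 1
    have e2 := h 2
    have e3 := h 3
    have e4 := h 4
    have e5 := h 5
    have m3 := hμ 0
    have m4 := hμ 1
    have m5 := hμ 2
    have n2 := hν 0
    have n3 := hν 1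
    have n4 := hν 2
    have n5 := hν 3
    simp only [dl_eq_zero, dl_two] at e0 e1 e2 e3 e4 e5
    norm_num at e0 e1 e2 e3 e4 e5 m3 m4 m5 n2 n3 n4 n5
    constructor <;> linarith
  · intro f
    have h1 := hasD_six G f
    have h2 := HasD.prod (G := G) Finset.univ
      (fun j : ZMod 6 => alphaF G j ^ (-1 * G.wz f ((j.val : ℕ) : ℤ)))
      (fun j => (-1 * G.wz f ((j.val : ℕ) : ℤ)) • fun k => -dl81 j k)
      (fun j => (hasD_alphaF G j).zpow _)
    apply (h1.mul h2.inv).isExp
    intro k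
    simp only [Pi.add_apply, Pi.neg_apply, Finset.sum_apply, Pi.smul_apply, smul_eq_mul]
    have h3 : ∀ j : ZMod 6, -1 * G.wz f ((j.val : ℕ) : ℤ) * -dl81 j k =
        if (k : ZMod 6) = j then G.wz f ((j.val : ℕ) : ℤ) else 0 := by
      intro j
      unfold dl81
      split_ifs <;> ring
    rw [Finset.sum_congr rfl fun j _ => h3 j, Finset.sum_ite_eq, if_pos (Finset.mem_univ _),
      G.wz_val]
    ring
  · apply G.wz_eq
    have : (betaF G).comp (G.nP (((0 : ZMod 6).val : ℕ) : ℤ)) = etaC := by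
      refine ContinuousMap.ext fun q => ?_
      exact betaF_neck G q
    rw [this]
    exact hasW_etaC

end Pool.Agent.S1S3
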