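import Pool.Agent.Helper81_S1S3.BetaFam

/-!
# The coordinates on the neck
-/

set_option autoImplicit false
set_option linter.unusedSectionVars false

open scoped Manifold Topology unitInterval
open CategoryTheory Set

noncomputable section

namespace Pool.Agent.S1S3

theorem continuous_polN2 :
    Continuous fun q : Ioo (0 : ℝ) (1 / 2) × Circle => polN q.1 q.1.2.1 q.1.2.2 q.2 := by
  refine Continuous.subtype_mk ?_ _
  refine (PiLp.continuous_toLp 2 _).comp (continuous_pi fun i => ?_)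
  have h1 : Continuous fun q : Ioo (0 : ℝ) (1 / 2) × Circle => ((q.2 : Circle) : ℂ) :=
    continuous_subtype_val.comp continuous_snd
  fin_cases i
  · show Continuous fun q : Ioo (0 : ℝ) (1 / 2) × Circle => (q.1 : ℝ) * (q.2 : ℂ).re
    exact (continuous_subtype_val.comp continuous_fst).mul (Complex.continuous_re.comp h1)
  · show Continuous fun q : Ioo (0 : ℝ) (1 / 2) × Circle => (q.1 : ℝ) * (q.2 : ℂ).im
    exact (continuous_subtype_val.comp continuous_fst).mul (Complex.continuous_im.comp h1)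

/-- points of the sphere near the puncture belong to the neck -/
theorem exists_sgp {p : ℕ} (hp : p = 2 ∨ p = 3) {y : Punc p 0} (hy : kap (y.1 : Eu 3) ≠ 1) :
    ∃ b : N0, y = sgp p hp b := by
  have h0 : 9 / 10 < (y.1 : Eu 3) 0 := by
    by_contra h
    exact hy (kap_eq_one (not_lt.1 h))
  have h1 : (y.1 : Eu 3) 0 ^ 2 + (y.1 : Eu 3) 1 ^ 2 + (y.1 : Eu 3) 2 ^ 2 = 1 := by
    rw [← norm3, norm_eq_of_mem_sphere, one_pow]
  set b : Eu 2 := WithLp.toLp 2 ![(y.1 : Eu 3) 1, (y.1 : Eu 3) 2] with hb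
  have h2 : ‖b‖ ^ 2 = (y.1 : Eu 3) 1 ^ 2 + (y.1 : Eu 3) 2 ^ 2 := by
    rw [norm2]
    rfl
  have h3 : 0 < ‖b‖ := by
    rw [norm_pos_iff]
    intro hb0
    rw [hb0, norm_zero] at h2
    have h4 : (y.1 : Eu 3) 1 = 0 := by nlinarith [sq_nonneg ((y.1 : Eu 3) 2)]
    have h5 : (y.1 : Eu 3) 2 = 0 := by nlinarith [sq_nonneg ((y.1 : Eu 3) 1)]
    rw [h4, h5] at h1
    have h6 : (y.1 : Eu 3) 0 = 1 := by nlinarith
    refine y.2 1 (one_pow _) ?_
    apply eu3_ext
    · rw [core_zero, Circle.coe_one, Complex.one_re, h6]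
    · rw [core_one, Circle.coe_one, Complex.one_im, h4]
    · rw [core_two, h5]
  have h4 : ‖b‖ < 1 / 2 := by
    by_contra hcon
    rw [not_lt] at hcon
    nlinarith
  refine ⟨⟨b, h3, h4⟩, ?_⟩
  apply punc_ext
  apply eu3_ext
  · show _ = Real.sqrt (1 - ‖b‖ ^ 2)
    have h5 : 1 - ‖b‖ ^ 2 = (y.1 : Eu 3) 0 ^ 2 := by linarith
    rw [h5, Real.sqrt_sq (by linarith)]
  · rfl
  · rfl

theorem kr_mem {r : ℝ} (h0 : kr r ≠ 0) (h1 : kr r ≠ 1) : 1 / 8 < r ∧ r < 3 / 8 := by
  unfold kr at h0 h1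
  constructor
  · by_contra h
    apply h0
    rw [not_lt] at h
    exact max_eq_left ((min_le_right _ _).trans (by linarith))
  · by_contra h
    apply h1
    rw [not_lt] at h
    rw [min_eq_left (by linarith), max_eq_right zero_le_one]

theorem kr_of_mem {r : ℝ} (h0 : 1 / 8 < r) (h1 : r < 3 / 8) : kr r = 4 * r - 1 / 2 := by
  unfold kr
  rw [min_eq_right (by linarith), max_eq_right (by linarith)]

theorem ee_sub_one (t : ℝ) : ee (t - 1) = ee t := by
  rw [ee_eq_iff]
  exact ⟨-1, by push_cast; ring⟩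

variable {Y : Type} [TopologicalSpace Y] {φ : C(Y, Circle)} (G : Cov φ)

theorem Cov.A_six (m : ℤ) (q : ℝ × Punc 2 0) : G.A.cP (6 * m) q = G.A.cP 0 q := by
  obtain ⟨s, x⟩ := q
  have h := G.A.cP_add 0 (2 * m) s x
  have h1 : (0 : ℤ) + ((3 : ℕ) : ℤ) * (2 * m) = 6 * m := by
    push_cast
    ring
  have h2 := rz_mul_self h22 m x
  push_cast at h2
  rw [h1, h2] at h
  exact h

theorem Cov.B_six (m : ℤ) (q : ℝ × Punc 3 0) : G.B.cP (6 * m) q = G.B.cP 0 q := by
  obtain ⟨s, x⟩ := q
  have h := G.B.cP_add 0 (3 * m) s x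
  have h1 : (0 : ℤ) + ((2 : ℕ) : ℤ) * (3 * m) = 6 * m := by
    push_cast
    ring
  have h2 := rz_mul_self h33 m x
  push_cast at h2
  rw [h1, h2] at h
  exact h

theorem dl_zero {k : ℤ} (h : dl81 0 k ≠ 0) : dl81 0 k = 1 ∧ ∃ m, k = 6 * m := by
  unfold dl81 at h ⊢
  by_cases h1 : (k : ZMod 6) = 0
  · rw [if_pos h1]
    refine ⟨rfl, ?_⟩
    have := (ZMod.intCast_zmod_eq_zero_iff_dvd k 6).1 h1
    obtain ⟨m, hm⟩ := this
    exact ⟨m, by exact_mod_cast hm⟩
  · rw [if_neg h1] at h
    exact absurd rfl h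

theorem alpha_neck (q : ℝ × N0) : alphaF G 0 (G.nP 0 q) = ee (kr ‖(q.2 : Eu 2)‖) := by
  rw [G.nP_A, alphaF_A, alphaL_FA_neck]
  have : dl81 0 0 = 1 := by
    unfold dl81
    rw [if_pos (by simp)]
  rw [this, ← ee_sub_one]
  unfold ee
  push_cast
  rw [one_mul]

theorem exp_sum_ne {ι : Type} (s : Finset ι) (f : ι → ℝ) (h : Circle.exp (∑ i ∈ s, f i) ≠ 1) :
    ∃ i ∈ s, Circle.exp (f i) ≠ 1 := by
  classical
  by_contra hcon
  push Not at hcon
  apply h
  induction s using Finset.induction_on with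
  | empty => simp
  | insert a s ha ih =>
    rw [Finset.sum_insert ha, Circle.exp_add, hcon a (Finset.mem_insert_self a s), one_mul]
    apply ih
    · intro h2
      apply h
      rw [Finset.sum_insert ha, Circle.exp_add, hcon a (Finset.mem_insert_self a s), one_mul, h2]
    · intro i hi
      exact hcon i (Finset.mem_insert_of_mem hi)

theorem exists_of_alpha_ne {y : Yt φ} (hy : alphaF G 0 y ≠ 1) :
    ∃ q : ℝ × N0, y = G.nP 0 q ∧ 1 / 8 < ‖(q.2 : Eu 2)‖ ∧ ‖(q.2 : Eu 2)‖ < 3 / 8 := by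
  have key : ∃ q : ℝ × N0, y = G.nP 0 q := by
    rcases G.cover y with ⟨k, x, hk⟩ | ⟨k, x, hk⟩
    · rw [hk, alphaF_A] at hy
      have h1 : (alphaL 0).FA k (y.1.2, x) = ∑ n ∈ Finset.range 2, tA 0 (k + 3 * n)
        (y.1.2, rz 2 h22 (-n) x) := symF_apply h22 3 (tA 0) k y.1.2 x
      rw [h1] at hy
      obtain ⟨n, -, hn⟩ := exp_sum_ne _ _ hy
      rw [tA_apply] at hn
      have h2 : dl81 0 (k + 3 * n) ≠ 0 := by
        intro h0
        apply hn
        rw [h0]
        simp
      have h3 : kap ((rz 2 h22 (-n) x).1 : Eu 3) ≠ 1 := by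
        intro h0
        apply hn
        simp only
        rw [h0]
        simp
      obtain ⟨-, m, hm⟩ := dl_zero h2
      obtain ⟨b, hb⟩ := exists_sgp h22 h3
      refine ⟨(y.1.2, b), ?_⟩
      have h4 := G.A.cP_add k n y.1.2 (rz 2 h22 (-n) x)
      rw [rz_add, add_neg_cancel, rz_zero] at h4
      rw [hk, ← h4, G.nP_A, nA_apply, ← hb]
      have h5 : k + ((3 : ℕ) : ℤ) * n = 6 * m := by
        rw [← hm]
        push_cast
        ring
      rw [h5]
      exact G.A_six m _
    · rw [hk, alphaF_B] at hy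
      have h1 : (alphaL 0).FB k (y.1.2, x) = ∑ n ∈ Finset.range 3, tB 0 (k + 2 * n)
        (y.1.2, rz 3 h33 (-n) x) := symF_apply h33 2 (tB 0) k y.1.2 x
      rw [h1] at hy
      obtain ⟨n, -, hn⟩ := exp_sum_ne _ _ hy
      rw [tB_apply] at hn
      have h2 : dl81 0 (k + 2 * n) ≠ 0 := by
        intro h0
        apply hn
        rw [h0]
        simp
      have h3 : kap ((rz 3 h33 (-n) x).1 : Eu 3) ≠ 1 := by
        intro h0
        apply hn
        simp only
        rw [h0]
        simp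
      obtain ⟨-, m, hm⟩ := dl_zero h2
      obtain ⟨b, hb⟩ := exists_sgp h33 h3
      refine ⟨tauInv 0 (y.1.2, b), ?_⟩
      have h4 := G.B.cP_add k n y.1.2 (rz 3 h33 (-n) x)
      rw [rz_add, add_neg_cancel, rz_zero] at h4
      rw [hk, ← h4, G.nP_B, nB_tauInv, ← hb]
      have h5 : k + ((2 : ℕ) : ℤ) * n = 6 * m := by
        rw [← hm]
        push_cast
        ring
      rw [h5]
      exact G.B_six m _
  obtain ⟨q, rfl⟩ := key
  refine ⟨q, rfl, ?_⟩
  rw [alpha_neck] at hy
  apply kr_mem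
  · intro h
    apply hy
    rw [h, ee_zero]
  · intro h
    apply hy
    rw [h, ee_one]

/-- the parametrization of the circle without a point -/
def eMap : Ioo (1 / 8 : ℝ) (3 / 8) → {z : Circle // z ≠ 1} := fun r => ⟨ee (4 * r - 1 / 2), by
  intro h
  rw [← ee_zero, ee_eq_iff] at h
  obtain ⟨n, hn⟩ := h
  have h1 := r.2.1
  have h2 := r.2.2
  have h3 : (0 : ℝ) < n := by linarith
  have h4 : (n : ℝ) < 1 := by linarith
  have h5 : (0 : ℤ) < n := by exact_mod_cast h3
  have h6 : n < (1 : ℤ) := by exact_mod_cast h4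
  omega⟩

theorem eMap_homeo : IsHomeomorph eMap := by
  refine ⟨?_, ?_, ?_, ?_⟩
  · exact Continuous.subtype_mk (by fun_prop) _
  · intro W hW
    have h1 : IsOpen ((fun t : ℝ => ee (4 * t - 1 / 2)) '' (Subtype.val '' W)) := by
      have h2 : IsOpenMap fun t : ℝ => ee (4 * t - 1 / 2) := by
        have h3 : (fun t : ℝ => ee (4 * t - 1 / 2)) = Circle.exp ∘
            ((Homeomorph.mulLeft₀ (2 * Real.pi) (by positivity)) ∘
              ((Homeomorph.subRight (1 / 2 : ℝ)) ∘ (Homeomorph.mulLeft₀ (4 : ℝ) (by norm_num)))) := by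
          funext t
          rfl
        rw [h3]
        exact Circle.isCoveringMap_exp.isLocalHomeomorph.isOpenMap.comp
          ((Homeomorph.isOpenMap _).comp ((Homeomorph.isOpenMap _).comp (Homeomorph.isOpenMap _)))
      exact h2 _ (isOpen_Ioo.isOpenMap_subtype_val _ hW)
    have h4 := h1.preimage (continuous_subtype_val (p := fun z : Circle => z ≠ 1))
    convert h4 using 1
    ext z
    constructor
    · rintro ⟨r, hr, rfl⟩
      exact ⟨r, ⟨r, hr, rfl⟩, rfl⟩
    · rintro ⟨t, ⟨r, hr, rfl⟩, hz⟩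
      exact ⟨r, hr, Subtype.ext hz⟩
  · intro r r' h
    have h1 : ee (4 * (r : ℝ) - 1 / 2) = ee (4 * (r' : ℝ) - 1 / 2) := congrArg Subtype.val h
    rw [ee_eq_iff] at h1
    obtain ⟨n, hn⟩ := h1
    have e1 := r.2.1
    have e2 := r.2.2
    have e3 := r'.2.1
    have e4 := r'.2.2
    have h3 : (-1 : ℝ) < n := by linarith
    have h4 : (n : ℝ) < 1 := by linarith
    have h5 : (-1 : ℤ) < n := by exact_mod_cast h3
    have h6 : n < (1 : ℤ) := by exact_mod_cast h4
    have h7 : n = 0 := by omega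
    rw [h7] at hn
    apply Subtype.ext
    push_cast at hn
    linarith
  · rintro ⟨z, hz⟩
    obtain ⟨t, rfl⟩ := ee_surjective z
    have h1 : Int.fract t ≠ 0 := by
      intro h
      apply hz
      have := Int.floor_add_fract t
      rw [h, add_zero] at this
      rw [← this, ee_int]
    have h2 : 0 < Int.fract t := lt_of_le_of_ne (Int.fract_nonneg t) (Ne.symm h1)
    have h3 := Int.fract_lt_one t
    refine ⟨⟨(Int.fract t + 1 / 2) / 4, ?_, ?_⟩, ?_⟩
    · linarith
    · linarith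
    · apply Subtype.ext
      show ee (4 * ((Int.fract t + 1 / 2) / 4) - 1 / 2) = ee t
      rw [ee_eq_iff]
      refine ⟨-⌊t⌋, ?_⟩
      have := Int.floor_add_fract t
      push_cast
      linarith

/-- coordinates on the neck -/
theorem homeo_part : IsHomeomorph fun p : {p : Yt φ // alphaF G 0 p ≠ 1} =>
    ((⟨alphaF G 0 p, p.2⟩, betaF G p, height φ p) : {z : Circle // z ≠ 1} × Circle × ℝ) := by
  set e1 := eMap_homeo.homeomorph with he1
  have he1_apply : ∀ r, e1 r = eMap r := fun r => rfl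
  have hr : ∀ z : {z : Circle // z ≠ 1}, (0 : ℝ) < (e1.symm z : ℝ) ∧ (e1.symm z : ℝ) < 1 / 2 := by
    intro z
    have h1 := (e1.symm z).2.1
    have h2 := (e1.symm z).2.2
    constructor <;> linarith
  set inv : {z : Circle // z ≠ 1} × Circle × ℝ → Yt φ := fun t =>
    G.nP 0 (t.2.2, polN (e1.symm t.1) (hr t.1).1 (hr t.1).2 t.2.1) with hinv
  have hα : ∀ t, alphaF G 0 (inv t) = t.1 := by
    intro t
    simp only [hinv]
    rw [alpha_neck]
    simp only
    rw [norm_polN, kr_of_mem (e1.symm t.1).2.1 (e1.symm t.1).2.2]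
    have h : e1 (e1.symm t.1) = t.1 := e1.apply_symm_apply t.1
    exact congrArg Subtype.val h
  have hinvc : Continuous inv := by
    have h1 : Continuous fun t : {z : Circle // z ≠ 1} × Circle × ℝ =>
        ((⟨e1.symm t.1, hr t.1⟩, t.2.1) : Ioo (0 : ℝ) (1 / 2) × Circle) := by
      refine Continuous.prodMk (Continuous.subtype_mk ?_ _) (by fun_prop)
      exact continuous_subtype_val.comp (e1.symm.continuous.comp continuous_fst)
    have h2 := continuous_polN2.comp h1
    exact (G.nP 0).continuous.comp (Continuous.prodMk (by fun_prop) h2)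
  set E : {p : Yt φ // alphaF G 0 p ≠ 1} ≃ₜ {z : Circle // z ≠ 1} × Circle × ℝ :=
    { toFun := fun p => (⟨alphaF G 0 p, p.2⟩, betaF G p, height φ p)
      invFun := fun t => ⟨inv t, by
        rw [hα]
        exact t.1.2⟩
      left_inv := by
        rintro ⟨y, hy⟩
        obtain ⟨q, rfl, h1, h2⟩ := exists_of_alpha_ne G hy
        apply Subtype.ext
        simp only [hinv]
        have h3 : e1.symm ⟨alphaF G 0 (G.nP 0 q), hy⟩ = ⟨‖(q.2 : Eu 2)‖, h1, h2⟩ := by
          rw [Homeomorph.symm_apply_eq, he1_apply]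
          apply Subtype.ext
          show alphaF G 0 (G.nP 0 q) = ee (4 * ‖(q.2 : Eu 2)‖ - 1 / 2)
          rw [alpha_neck, kr_of_mem h1 h2]
        have h4 : betaF G (G.nP 0 q) = etaN q.2 := betaF_neck G q
        have h5 : height φ (G.nP 0 q) = q.1 := rfl
        congr 1
        rw [h5]
        refine Prod.ext rfl ?_
        apply n0_ext
        · rw [norm_polN, h3]
        · rw [etaN_polN, h4]
      right_inv := by
        intro t
        refine Prod.ext ?_ (Prod.ext ?_ ?_)
        · exact Subtype.ext (hα t)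
        · show betaF G (inv t) = t.2.1
          simp only [hinv]
          rw [betaF_neck]
          exact etaN_polN _ _ _ _
        · rfl
      continuous_toFun := by
        refine Continuous.prodMk (Continuous.subtype_mk (by fun_prop) _) (by fun_prop)
      continuous_invFun := Continuous.subtype_mk hinvc (fun t => by
        rw [hα]
        exact t.1.2) } with hE
  exact E.isHomeomorph

end Pool.Agent.S1S3
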