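import Pool.Agent.Helper81_S1S3.CoverGlue

/-!
# Logarithms on the pieces and their jumps at the necks
-/

set_option autoImplicit false
set_option linter.unusedSectionVars false

open scoped Manifold Topology unitInterval
open CategoryTheory Set

noncomputable section

namespace Pool.Agent.S1S3

/-! ### connectedness -/

instance : PreconnectedSpace (Ioo (0 : ℝ) (1 / 2)) :=
  isPreconnected_iff_preconnectedSpace.1 isPreconnected_Ioo

instance : Nonempty (Ioo (0 : ℝ) (1 / 2)) := ⟨⟨1 / 4, by constructor <;> norm_num⟩⟩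

instance n0_conn : ConnectedSpace N0 := by
  have h : Continuous fun q : Ioo (0 : ℝ) (1 / 2) × Circle => polN q.1 q.1.2.1 q.1.2.2 q.2 := by
    refine Continuous.subtype_mk ?_ _
    refine (PiLp.continuous_toLp 2 _).comp (continuous_pi fun i => ?_)
    have h1 : Continuous fun q : Ioo (0 : ℝ) (1 / 2) × Circle => ((q.2 : Circle) : ℂ) :=
      continuous_subtype_val.comp continuous_snd
    fin_cases i
    · show Continuous fun q : Ioo (0 : ℝ) (1 / 2) × Circle => (q.1 : ℝ) * (q.2 : ℂ).re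
      exact (continuous_subtype_val.comp continuous_fst).mul (Complex.continuous_re.comp h1)
    · show Continuous fun q : Ioo (0 : ℝ) (1 / 2) × Circle => (q.1 : ℝ) * (q.2 : ℂ).im
      exact (continuous_subtype_val.comp continuous_fst).mul (Complex.continuous_im.comp h1)
  have hs : Function.Surjective
      fun q : Ioo (0 : ℝ) (1 / 2) × Circle => polN q.1 q.1.2.1 q.1.2.2 q.2 := fun b =>
    ⟨(⟨‖(b : Eu 2)‖, b.2⟩, etaN b), polN_etaN b⟩
  have : ConnectedSpace (Ioo (0 : ℝ) (1 / 2)) := { toNonempty := inferInstance }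
  exact hs.connectedSpace h

theorem punc_conn (p : ℕ) (hp : p = 2 ∨ p = 3) : ConnectedSpace (Punc p 0) := by
  have hmid : (1 / 2 : ℝ) ∈ Ioo (0 : ℝ) 1 := by constructor <;> norm_num
  set a : Punc p 0 := arc p hp 0 ⟨1 / 2, hmid⟩ with ha
  have ha2 : (a.1 : Eu 3) 2 = 0 := by rw [ha, arc_coe, core_two]
  have hpre : PreconnectedSpace (Punc p 0) := by
    refine preconnectedSpace_of_forall_constant fun f hf => ?_
    have key : ∀ (sg1 : ℝ) (_ : sg1 = 1 ∨ sg1 = -1) (x : Punc p 0),
        0 ≤ sg1 * (x.1 : Eu 3) 2 → f x = f a := by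
      intro sg1 hs1 x hx
      obtain ⟨K, x₀, hK0, hK1⟩ := hemi_contr p sg1 hs1
      have h1 : ∀ y : {x : Punc p 0 | 0 ≤ sg1 * (x.1 : Eu 3) 2}, f y = f x₀ := by
        intro y
        have hc : Continuous fun t : I => f (K (t, y)) :=
          hf.comp (continuous_subtype_val.comp (K.continuous.comp (by fun_prop)))
        have := PreconnectedSpace.constant (inferInstance : PreconnectedSpace I) hc (x := 1)
          (y := 0)
        simp only [hK0, hK1] at this
        exact this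
      have h2 := h1 ⟨x, hx⟩
      have h3 := h1 ⟨a, by rw [mem_ofPred_eq, ha2, mul_zero]⟩
      simp only at h2 h3
      rw [h2, h3]
    have key2 : ∀ x, f x = f a := by
      intro x
      rcases le_total 0 ((x.1 : Eu 3) 2) with h | h
      · exact key 1 (Or.inl rfl) x (by linarith)
      · exact key (-1) (Or.inr rfl) x (by linarith)
    intro x y
    rw [key2 x, key2 y]
  exact { toPreconnectedSpace := hpre, toNonempty := ⟨a⟩ }

instance : ConnectedSpace (Punc 2 0) := punc_conn 2 h22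
instance : ConnectedSpace (Punc 3 0) := punc_conn 3 h33

/-! ### families from their values on representatives -/

/-- extend a family periodically -/
def ofBase {p : ℕ} (hp : p = 2 ∨ p = 3) {T : Type} [TopologicalSpace T] (q : ℤ)
    (g : ℤ → C(ℝ × Punc p 0, T)) (k : ℤ) : C(ℝ × Punc p 0, T) :=
  (g (k % q)).comp ((ContinuousMap.id ℝ).prodMap (rz p hp (k / q)))

theorem ofBase_apply {p : ℕ} (hp : p = 2 ∨ p = 3) {T : Type} [TopologicalSpace T] (q : ℤ)
    (g : ℤ → C(ℝ × Punc p 0, T)) (k : ℤ) (s : ℝ) (x : Punc p 0) :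
    ofBase hp q g k (s, x) = g (k % q) (s, rz p hp (k / q) x) := rfl

theorem ofBase_per {p : ℕ} (hp : p = 2 ∨ p = 3) {T : Type} [TopologicalSpace T] (q : ℤ)
    (hq : q ≠ 0) (g : ℤ → C(ℝ × Punc p 0, T)) (k : ℤ) (s : ℝ) (x : Punc p 0) :
    ofBase hp q g (k + q) (s, x) = ofBase hp q g k (s, rz p hp 1 x) := by
  rw [ofBase_apply, ofBase_apply, rz_add, Int.add_emod_right, Int.add_ediv_of_dvd_right
    (dvd_refl q), Int.ediv_self hq]

/-- the family with given values on representatives -/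
def famOfBase {T : Type} [TopologicalSpace T] (gA : ℤ → C(ℝ × Punc 2 0, T))
    (gB : ℤ → C(ℝ × Punc 3 0, T)) : Fam T where
  FA := ofBase h22 3 gA
  FB := ofBase h33 2 gB
  perA := ofBase_per h22 3 (by norm_num) gA
  perB := ofBase_per h33 2 (by norm_num) gB

variable {Y : Type} [TopologicalSpace Y] {φ : C(Y, Circle)}

/-- `f` has logarithms on the pieces with jumps `2 π d k` at the necks -/
def HasD (G : Cov φ) (f : C(Yt φ, Circle)) (d : ℤ → ℤ) : Prop :=
  ∃ L : Fam ℝ, (∀ k x, f (G.A.cP k x) = Circle.exp (L.FA k x)) ∧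
    (∀ k x, f (G.B.cP k x) = Circle.exp (L.FB k x)) ∧
    ∀ k q, L.FA k (nA q) - L.FB k (nB k q) = 2 * Real.pi * d k

variable {G : Cov φ}

theorem HasD.mul {f g : C(Yt φ, Circle)} {d e : ℤ → ℤ} (hf : HasD G f d) (hg : HasD G g e) :
    HasD G (f * g) (d + e) := by
  obtain ⟨L, h1, h2, h3⟩ := hf
  obtain ⟨M, h4, h5, h6⟩ := hg
  refine ⟨⟨fun k => L.FA k + M.FA k, fun k => L.FB k + M.FB k, ?_, ?_⟩, ?_, ?_, ?_⟩
  · intro k s x
    simp only [ContinuousMap.add_apply]
    rw [L.perA, M.perA]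
  · intro k s x
    simp only [ContinuousMap.add_apply]
    rw [L.perB, M.perB]
  · intro k x
    simp only [ContinuousMap.mul_apply, ContinuousMap.add_apply, Circle.exp_add]
    rw [h1, h4]
  · intro k x
    simp only [ContinuousMap.mul_apply, ContinuousMap.add_apply, Circle.exp_add]
    rw [h2, h5]
  · intro k q
    have := h3 k q
    have := h6 k q
    simp only [ContinuousMap.add_apply, Pi.add_apply]
    push_cast
    linarith

theorem HasD.inv {f : C(Yt φ, Circle)} {d : ℤ → ℤ} (hf : HasD G f d) :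
    HasD G f⁻¹ (-d) := by
  obtain ⟨L, h1, h2, h3⟩ := hf
  refine ⟨⟨fun k => -L.FA k, fun k => -L.FB k, ?_, ?_⟩, ?_, ?_, ?_⟩
  · intro k s x
    simp only [ContinuousMap.neg_apply]
    rw [L.perA]
  · intro k s x
    simp only [ContinuousMap.neg_apply]
    rw [L.perB]
  · intro k x
    simp only [ContinuousMap.inv_apply, ContinuousMap.neg_apply, Circle.exp_neg]
    rw [h1]
  · intro k x
    simp only [ContinuousMap.inv_apply, ContinuousMap.neg_apply, Circle.exp_neg]
    rw [h2]
  · intro k q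
    have := h3 k q
    simp only [ContinuousMap.neg_apply, Pi.neg_apply]
    push_cast
    linarith

theorem HasD.one : HasD G 1 0 := by
  refine ⟨⟨fun _ => 0, fun _ => 0, ?_, ?_⟩, ?_, ?_, ?_⟩ <;> intros <;> simp

theorem HasD.pow {f : C(Yt φ, Circle)} {d : ℤ → ℤ} (hf : HasD G f d) (n : ℕ) :
    HasD G (f ^ n) ((n : ℤ) • d) := by
  induction n with
  | zero =>
    simp only [pow_zero, Nat.cast_zero, zero_smul]
    exact HasD.one
  | succ n ih =>
    have := ih.mul hf
    rw [pow_succ]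
    convert this using 1
    push_cast
    rw [add_smul, one_smul]

theorem HasD.zpow {f : C(Yt φ, Circle)} {d : ℤ → ℤ} (hf : HasD G f d) (n : ℤ) :
    HasD G (f ^ n) (n • d) := by
  rcases n.eq_nat_or_neg with ⟨m, rfl | rfl⟩
  · rw [zpow_natCast]
    exact hf.pow m
  · rw [zpow_neg, zpow_natCast, neg_smul]
    exact (hf.pow m).inv

/-- change of the logarithms by constants -/
theorem HasD.shift {f : C(Yt φ, Circle)} {d : ℤ → ℤ} (hf : HasD G f d) (μ ν : ℤ → ℤ)
    (hμ : ∀ k, μ (k + 3) = μ k) (hν : ∀ k, ν (k + 2) = ν k) :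
    HasD G f (fun k => d k + μ k - ν k) := by
  obtain ⟨L, h1, h2, h3⟩ := hf
  refine ⟨⟨fun k => L.FA k + ContinuousMap.const _ (μ k * (2 * Real.pi)),
    fun k => L.FB k + ContinuousMap.const _ (ν k * (2 * Real.pi)), ?_, ?_⟩, ?_, ?_, ?_⟩
  · intro k s x
    simp only [ContinuousMap.add_apply, ContinuousMap.const_apply]
    rw [L.perA, hμ]
  · intro k s x
    simp only [ContinuousMap.add_apply, ContinuousMap.const_apply]
    rw [L.perB, hν]
  · intro k x
    simp only [ContinuousMap.add_apply, ContinuousMap.const_apply, Circle.exp_add,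
      Circle.exp_int_mul_two_pi, mul_one]
    exact h1 k x
  · intro k x
    simp only [ContinuousMap.add_apply, ContinuousMap.const_apply, Circle.exp_add,
      Circle.exp_int_mul_two_pi, mul_one]
    exact h2 k x
  · intro k q
    have := h3 k q
    simp only [ContinuousMap.add_apply, ContinuousMap.const_apply]
    push_cast
    linarith

theorem HasD.isExp {f : C(Yt φ, Circle)} {d : ℤ → ℤ} (hf : HasD G f d) (hd : ∀ k, d k = 0) :
    IsExp f := by
  obtain ⟨L, h1, h2, h3⟩ := hf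
  obtain ⟨u, hu1, hu2⟩ := G.desc L (fun k q => by
    have := h3 k q
    rw [hd k] at this
    simp only [Int.cast_zero, mul_zero] at this
    linarith)
  refine ⟨u, fun y => ?_⟩
  rcases G.cover y with ⟨k, x, hk⟩ | ⟨k, x, hk⟩
  · rw [hk, hu1, h1]
  · rw [hk, hu2, h2]

theorem hasD_of_isExp {f : C(Yt φ, Circle)} (hf : IsExp f) : HasD G f (fun _ => 0) := by
  obtain ⟨u, hu⟩ := hf
  refine ⟨G.fam u, fun k x => hu _, fun k x => hu _, fun k q => ?_⟩
  show u (G.A.cP k (nA q)) - u (G.B.cP k (nB k q)) = _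
  rw [← G.nP_B, ← G.nP_A]
  simp

theorem HasD.unique {f : C(Yt φ, Circle)} {d e : ℤ → ℤ} (hf : HasD G f d) (hf' : HasD G f e) :
    ∃ μ ν : ℤ → ℤ, (∀ k, μ (k + 3) = μ k) ∧ (∀ k, ν (k + 2) = ν k) ∧
      ∀ k, e k = d k + μ k - ν k := by
  obtain ⟨L, h1, h2, h3⟩ := hf
  obtain ⟨M, h4, h5, h6⟩ := hf'
  have hA : ∀ k, ∃ n : ℤ, ∀ x, M.FA k x = L.FA k x + 2 * Real.pi * n := fun k =>
    log_unique_int _ _ fun x => by rw [← h1, ← h4]
  have hB : ∀ k, ∃ n : ℤ, ∀ x, M.FB k x = L.FB k x + 2 * Real.pi * n := fun k =>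
    log_unique_int _ _ fun x => by rw [← h2, ← h5]
  choose μ hμ using hA
  choose ν hν using hB
  have hpi : (2 * Real.pi : ℝ) ≠ 0 := by positivity
  obtain ⟨b⟩ : Nonempty N0 := inferInstance
  refine ⟨μ, ν, ?_, ?_, ?_⟩
  · intro k
    have h7 := hμ (k + 3) (0, sgp 2 h22 b)
    rw [M.perA, L.perA, hμ k] at h7
    have h8 : 2 * Real.pi * (μ (k + 3) : ℝ) = 2 * Real.pi * μ k := by linarith
    exact_mod_cast mul_left_cancel₀ hpi h8
  · intro k
    have h7 := hν (k + 2) (0, sgp 3 h33 b)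
    rw [M.perB, L.perB, hν k] at h7
    have h8 : 2 * Real.pi * (ν (k + 2) : ℝ) = 2 * Real.pi * ν k := by linarith
    exact_mod_cast mul_left_cancel₀ hpi h8
  · intro k
    have h7 := h3 k (0, b)
    have h8 := h6 k (0, b)
    rw [hμ, hν] at h8
    have h9 : 2 * Real.pi * (e k : ℝ) = 2 * Real.pi * ((d k + μ k - ν k : ℤ) : ℝ) := by
      push_cast
      linarith
    exact_mod_cast mul_left_cancel₀ hpi h9

/-- logarithms of the restrictions give jumps -/
theorem hasD_of_logs {f : C(Yt φ, Circle)} (hA : ∀ k, IsExp (f.comp (G.A.cP k)))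
    (hB : ∀ k, IsExp (f.comp (G.B.cP k))) : ∃ d, HasD G f d := by
  choose gA hgA using hA
  choose gB hgB using hB
  set L := famOfBase gA gB with hL
  have h1 : ∀ k x, f (G.A.cP k x) = Circle.exp (L.FA k x) := by
    rintro k ⟨s, x⟩
    have h := (G.fam f).perA_int (k % 3) (k / 3) s x
    rw [Int.emod_add_mul_ediv] at h
    have h' : f (G.A.cP k (s, x)) = f (G.A.cP (k % 3) (s, rz 2 h22 (k / 3) x)) := h
    rw [h']
    exact hgA (k % 3) _
  have h2 : ∀ k x, f (G.B.cP k x) = Circle.exp (L.FB k x) := by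
    rintro k ⟨s, x⟩
    have h := (G.fam f).perB_int (k % 2) (k / 2) s x
    rw [Int.emod_add_mul_ediv] at h
    have h' : f (G.B.cP k (s, x)) = f (G.B.cP (k % 2) (s, rz 3 h33 (k / 2) x)) := h
    rw [h']
    exact hgB (k % 2) _
  have h3 : ∀ k, ∃ n : ℤ, ∀ q : ℝ × N0, L.FA k (nA q) = L.FB k (nB k q) + 2 * Real.pi * n := by
    intro k
    refine log_unique_int ((L.FA k).comp nA) ((L.FB k).comp (nB k)) fun q => ?_
    rw [ContinuousMap.comp_apply, ContinuousMap.comp_apply, ← h1, ← h2, ← G.nP_A, ← G.nP_B]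
  choose d hd using h3
  refine ⟨d, L, h1, h2, fun k q => ?_⟩
  rw [hd]
  ring

end Pool.Agent.S1S3
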