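import Pool.Agent.Helper81_S1S3.Deg

/-!
# Circle-valued functions on the punctured spheres and on the necks
-/

set_option autoImplicit false
set_option linter.unusedSectionVars false

open scoped Manifold ContDiff Topology unitInterval
open CategoryTheory Set

noncomputable section

namespace Pool.Agent.S1S3

/-! ### the parametrization of the circle -/

/-- `t ↦ exp (2 π i t)` -/
def ee (t : ℝ) : Circle := Circle.exp (2 * Real.pi * t)

@[fun_prop]
theorem continuous_ee : Continuous ee := by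
  unfold ee
  fun_prop

theorem ee_add (s t : ℝ) : ee (s + t) = ee s * ee t := by
  unfold ee
  rw [mul_add, Circle.exp_add]

theorem ee_zero : ee 0 = 1 := by
  unfold ee
  rw [mul_zero, Circle.exp_zero]

theorem ee_neg (t : ℝ) : ee (-t) = (ee t)⁻¹ := by
  unfold ee
  rw [mul_neg, Circle.exp_neg]

theorem ee_int (n : ℤ) : ee n = 1 := by
  unfold ee
  rw [mul_comm, Circle.exp_int_mul_two_pi]

theorem ee_one : ee 1 = 1 := by
  have := ee_int 1
  simpa using this

theorem ee_pow (t : ℝ) (n : ℕ) : ee t ^ n = ee (n * t) := by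
  unfold ee
  rw [← Circle.exp_nsmul, nsmul_eq_mul]
  congr 1
  ring

theorem ee_zpow (t : ℝ) (n : ℤ) : ee t ^ n = ee (n * t) := by
  unfold ee
  rw [← Circle.exp_zsmul, zsmul_eq_mul]
  congr 1
  ring

theorem ee_eq_iff {s t : ℝ} : ee s = ee t ↔ ∃ n : ℤ, s = t + n := by
  unfold ee
  rw [Circle.exp_eq_exp]
  have hpi : (2 * Real.pi : ℝ) ≠ 0 := by positivity
  constructor
  · rintro ⟨m, hm⟩
    refine ⟨m, ?_⟩
    have : 2 * Real.pi * s = 2 * Real.pi * (t + m) := by rw [hm]; ring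
    exact mul_left_cancel₀ hpi this
  · rintro ⟨m, rfl⟩
    exact ⟨m, by ring⟩

theorem ee_surjective (z : Circle) : ∃ t, ee t = z := by
  obtain ⟨s, hs⟩ := Circle.exp_surjective z
  refine ⟨s / (2 * Real.pi), ?_⟩
  unfold ee
  rw [mul_div_cancel₀ _ (by positivity), hs]

/-! ### coordinates of `ℝ³` -/

theorem eu3_ext {x y : Eu 3} (h0 : x 0 = y 0) (h1 : x 1 = y 1) (h2 : x 2 = y 2) : x = y := by
  ext i
  fin_cases i
  · exact h0
  · exact h1
  · exact h2

theorem norm3 (x : Eu 3) : ‖x‖ ^ 2 = x 0 ^ 2 + x 1 ^ 2 + x 2 ^ 2 := by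
  rw [EuclideanSpace.norm_sq_eq, Fin.sum_univ_three]
  simp only [Real.norm_eq_abs, sq_abs]

theorem norm2 (x : Eu 2) : ‖x‖ ^ 2 = x 0 ^ 2 + x 1 ^ 2 := by
  rw [EuclideanSpace.norm_sq_eq, Fin.sum_univ_two]
  simp only [Real.norm_eq_abs, sq_abs]

theorem rot3_zero (z : ℂ) (x : Eu 3) : rot z x 0 = z.re * x 0 - z.im * x 1 :=
  rot_apply_zero (k := 1) z x

theorem rot3_one (z : ℂ) (x : Eu 3) : rot z x 1 = z.im * x 0 + z.re * x 1 :=
  rot_apply_one (k := 1) z x

theorem rot3_two (z : ℂ) (x : Eu 3) : rot z x 2 = x 2 :=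
  rot_apply_ge (k := 1) z x 0

theorem core_zero (ζ : Circle) : (core ζ : Eu 3) 0 = (ζ : ℂ).re := by
  unfold core
  rw [rot3_zero]
  simp

theorem core_one (ζ : Circle) : (core ζ : Eu 3) 1 = (ζ : ℂ).im := by
  unfold core
  rw [rot3_one]
  simp

theorem core_two (ζ : Circle) : (core ζ : Eu 3) 2 = 0 := by
  unfold core
  rw [rot3_two]
  simp

theorem core_inj {ζ ζ' : Circle} (h : (core ζ : Eu 3) = core ζ') : ζ = ζ' := by
  apply Circle.ext
  apply Complex.ext
  · rw [← core_zero, ← core_zero, h]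
  · rw [← core_one, ← core_one, h]

theorem rot_core (w ζ : Circle) : rot (w : ℂ) (core ζ : Eu 3) = core (w * ζ) := by
  unfold core
  rw [← rot_mul, ← Circle.coe_mul]

theorem sg3_zero (b : Eu 2) : sg b 0 = Real.sqrt (1 - ‖b‖ ^ 2) := rfl
theorem sg3_one (b : Eu 2) : sg b 1 = b 0 := rfl
theorem sg3_two (b : Eu 2) : sg b 2 = b 1 := rfl

/-! ### necks and punctured spheres -/

/-- the fibre of the neck -/
abbrev N0 : Type := {b : Eu 2 // 0 < ‖b‖ ∧ ‖b‖ < 1 / 2}

/-- the embedding of the fibre of the neck into the punctured sphere -/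
def sgp (p : ℕ) (hp : p = 2 ∨ p = 3) : C(N0, Punc p 0) where
  toFun b := ⟨⟨sg (b : Eu 2), by
      rw [mem_sphere_zero_iff_norm]; exact norm_sg (by linarith [b.2.2])⟩, fun ζ hζ => by
    have := tubeV_ne_core (m := 0) hp (ζ := 1) (ζ' := ζ) (by rw [hζ, one_pow])
      (b := (b : Eu 2)) (norm_pos_iff.1 b.2.1) b.2.2
    unfold tubeV at this
    rwa [Circle.coe_one, rot_one] at this⟩
  continuous_toFun := by
    refine Continuous.subtype_mk (Continuous.subtype_mk ?_ _) _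
    fun_prop

theorem ee_div_pow (p : ℕ) (hp : p = 2 ∨ p = 3) (n : ℤ) : ee (n / p) ^ p = 1 := by
  rw [ee_pow]
  have : (p : ℝ) ≠ 0 := by rcases hp with rfl | rfl <;> norm_num
  rw [mul_div_cancel₀ _ this, ee_int]

/-- rotation of the punctured sphere by `exp (2 π i n / p)` -/
def rz (p : ℕ) (hp : p = 2 ∨ p = 3) (n : ℤ) : C(Punc p 0, Punc p 0) :=
  (rotP p 0 (ee (n / p)) (ee_div_pow p hp n) : C(Punc p 0, Punc p 0))

theorem rz_coe (p : ℕ) (hp : p = 2 ∨ p = 3) (n : ℤ) (x : Punc p 0) :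
    ((rz p hp n x).1 : Eu 3) = rot (ee (n / p) : ℂ) (x.1 : Eu 3) := rfl

theorem punc_ext {p : ℕ} {x y : Punc p 0} (h : (x.1 : Eu 3) = y.1) : x = y :=
  Subtype.ext (Subtype.ext h)

theorem rz_add (p : ℕ) (hp : p = 2 ∨ p = 3) (m n : ℤ) (x : Punc p 0) :
    rz p hp m (rz p hp n x) = rz p hp (m + n) x := by
  apply punc_ext
  rw [rz_coe, rz_coe, rz_coe, ← rot_mul, ← Circle.coe_mul, ← ee_add]
  congr 4
  push_cast
  ring

theorem rz_zero (p : ℕ) (hp : p = 2 ∨ p = 3) (x : Punc p 0) : rz p hp 0 x = x := by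
  apply punc_ext
  rw [rz_coe]
  simp [ee_zero, rot_one]

theorem rz_self (p : ℕ) (hp : p = 2 ∨ p = 3) (x : Punc p 0) : rz p hp p x = x := by
  apply punc_ext
  rw [rz_coe]
  have : (p : ℝ) ≠ 0 := by rcases hp with rfl | rfl <;> norm_num
  simp [this, ee_one, rot_one]

/-- the angular coordinate of the neck -/
def etaN : C(N0, Circle) where
  toFun b := ⟨((⟨(b : Eu 2) 0, (b : Eu 2) 1⟩ : ℂ) / (‖(b : Eu 2)‖ : ℂ)), by
    have h := b.2.1
    have h1 : ‖(⟨(b : Eu 2) 0, (b : Eu 2) 1⟩ : ℂ)‖ = ‖(b : Eu 2)‖ := by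
      rw [← pow_left_inj₀ (norm_nonneg _) (norm_nonneg _) two_ne_zero, norm2, Complex.sq_norm,
        Complex.normSq_apply]
      ring
    refine mem_sphere_zero_iff_norm.2 ?_
    rw [norm_div, h1, Complex.norm_real, norm_norm, div_self h.ne']⟩
  continuous_toFun := by
    refine Continuous.subtype_mk ?_ _
    refine Continuous.div ?_ (by fun_prop) fun b => ?_
    · have : (fun b : N0 => (⟨(b : Eu 2) 0, (b : Eu 2) 1⟩ : ℂ)) =
          fun b : N0 => (((b : Eu 2) 0 : ℝ) : ℂ) + (((b : Eu 2) 1 : ℝ) : ℂ) * Complex.I := by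
        funext b
        apply Complex.ext <;> simp
      rw [this]
      fun_prop
    · exact_mod_cast b.2.1.ne'

theorem etaN_re (b : N0) : (etaN b : ℂ).re = (b : Eu 2) 0 / ‖(b : Eu 2)‖ := by
  show ((⟨(b : Eu 2) 0, (b : Eu 2) 1⟩ : ℂ) / (‖(b : Eu 2)‖ : ℂ)).re = _
  rw [Complex.div_ofReal_re]

theorem etaN_im (b : N0) : (etaN b : ℂ).im = (b : Eu 2) 1 / ‖(b : Eu 2)‖ := by
  show ((⟨(b : Eu 2) 0, (b : Eu 2) 1⟩ : ℂ) / (‖(b : Eu 2)‖ : ℂ)).im = _
  rw [Complex.div_ofReal_im]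

/-- the point of the neck with polar coordinates `(r, z)` -/
def polN (r : ℝ) (h0 : 0 < r) (h1 : r < 1 / 2) : C(Circle, N0) where
  toFun z := ⟨WithLp.toLp 2 ![r * (z : ℂ).re, r * (z : ℂ).im], by
    have h : ‖(WithLp.toLp 2 ![r * (z : ℂ).re, r * (z : ℂ).im] : Eu 2)‖ = r := by
      rw [← pow_left_inj₀ (norm_nonneg _) h0.le two_ne_zero, norm2]
      have h2 := Complex.sq_norm (z : ℂ)
      rw [Circle.norm_coe, Complex.normSq_apply] at h2
      simp only [Matrix.cons_val_zero, Matrix.cons_val_one]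
      nlinarith
    rw [h]
    exact ⟨h0, h1⟩⟩
  continuous_toFun := by
    refine Continuous.subtype_mk ?_ _
    refine (PiLp.continuous_toLp 2 _).comp (continuous_pi fun i => ?_)
    fin_cases i
    · simp only [Fin.zero_eta, Matrix.cons_val_zero]
      exact continuous_const.mul (Complex.continuous_re.comp continuous_subtype_val)
    · simp only [Fin.mk_one, Matrix.cons_val_one]
      exact continuous_const.mul (Complex.continuous_im.comp continuous_subtype_val)

theorem polN_zero (r : ℝ) (h0 : 0 < r) (h1 : r < 1 / 2) (z : Circle) :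
    (polN r h0 h1 z : Eu 2) 0 = r * (z : ℂ).re := rfl

theorem polN_one (r : ℝ) (h0 : 0 < r) (h1 : r < 1 / 2) (z : Circle) :
    (polN r h0 h1 z : Eu 2) 1 = r * (z : ℂ).im := rfl

theorem norm_polN (r : ℝ) (h0 : 0 < r) (h1 : r < 1 / 2) (z : Circle) :
    ‖(polN r h0 h1 z : Eu 2)‖ = r := by
  rw [← pow_left_inj₀ (norm_nonneg _) h0.le two_ne_zero, norm2, polN_zero, polN_one]
  have h2 := Complex.sq_norm (z : ℂ)
  rw [Circle.norm_coe, Complex.normSq_apply] at h2
  nlinarith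

theorem etaN_polN (r : ℝ) (h0 : 0 < r) (h1 : r < 1 / 2) (z : Circle) :
    etaN (polN r h0 h1 z) = z := by
  apply Circle.ext
  apply Complex.ext
  · rw [etaN_re, norm_polN, polN_zero, mul_div_cancel_left₀ _ h0.ne']
  · rw [etaN_im, norm_polN, polN_one, mul_div_cancel_left₀ _ h0.ne']

theorem n0_ext {b b' : N0} (h1 : ‖(b : Eu 2)‖ = ‖(b' : Eu 2)‖) (h2 : etaN b = etaN b') :
    b = b' := by
  have hb := b.2.1
  have hb' := b'.2.1
  apply Subtype.ext
  ext i
  fin_cases i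
  · have h3 := congrArg (fun z : Circle => (z : ℂ).re) h2
    simp only [etaN_re] at h3
    rw [h1] at h3
    field_simp at h3
    exact h3
  · have h3 := congrArg (fun z : Circle => (z : ℂ).im) h2
    simp only [etaN_im] at h3
    rw [h1] at h3
    field_simp at h3
    exact h3

theorem polN_etaN (b : N0) : polN ‖(b : Eu 2)‖ b.2.1 b.2.2 (etaN b) = b := by
  apply n0_ext
  · rw [norm_polN]
  · rw [etaN_polN]

end Pool.Agent.S1S3
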