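import Pool.Agent.Helper81_S1S3.Wind

/-!
# The winding numbers around the punctures of a sphere
-/

set_option autoImplicit false
set_option linter.unusedSectionVars false

open scoped Manifold Topology unitInterval
open CategoryTheory Set

noncomputable section

namespace Pool.Agent.S1S3

variable (p : ℕ) (hp : p = 2 ∨ p = 3)

theorem ee_re (t : ℝ) : (ee t : ℂ).re = Real.cos (2 * Real.pi * t) := by
  unfold ee
  rw [Circle.coe_exp, Complex.exp_ofReal_mul_I_re]

theorem ee_im (t : ℝ) : (ee t : ℂ).im = Real.sin (2 * Real.pi * t) := by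
  unfold ee
  rw [Circle.coe_exp, Complex.exp_ofReal_mul_I_im]

/-- the open arcs of the equator between the punctures -/
def arc (k : ℤ) : C(Ioo (0 : ℝ) 1, Punc p 0) where
  toFun τ := ⟨coreS (m := 0) (ee ((k + τ) / p)), by
    intro ζ hζ he
    have hp0 : (p : ℝ) ≠ 0 := by rcases hp with rfl | rfl <;> norm_num
    have h1 : ee ((k + τ) / p) = ζ := core_inj he
    rw [← h1, ee_pow, mul_div_cancel₀ _ hp0, ee_add, ee_int, one_mul] at hζ
    rw [← ee_zero, ee_eq_iff] at hζ
    obtain ⟨n, hn⟩ := hζ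
    have h2 := τ.2.1
    have h3 := τ.2.2
    rw [zero_add] at hn
    rw [hn] at h2 h3
    have h4 : (0 : ℤ) < n := by exact_mod_cast h2
    have h5 : n < (1 : ℤ) := by exact_mod_cast h3
    omega⟩
  continuous_toFun := by
    refine Continuous.subtype_mk (Continuous.subtype_mk ?_ _) _
    have : Continuous fun τ : Ioo (0 : ℝ) 1 => ee ((k + τ) / p) := by fun_prop
    exact continuous_core.comp this

theorem arc_coe (k : ℤ) (τ : Ioo (0 : ℝ) 1) :
    ((arc p hp k τ).1 : Eu 3) = core (ee ((k + τ) / p)) := rfl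

theorem arc_add (k : ℤ) (τ : Ioo (0 : ℝ) 1) : arc p hp (k + p) τ = arc p hp k τ := by
  apply punc_ext
  rw [arc_coe, arc_coe]
  have hp0 : (p : ℝ) ≠ 0 := by rcases hp with rfl | rfl <;> norm_num
  congr 1
  rw [ee_eq_iff]
  refine ⟨1, ?_⟩
  push_cast
  field_simp
  ring

/-- the radius of the small circles -/
def r0 : ℝ := Real.sin (Real.pi / 12)

theorem r0_pos : 0 < r0 := by
  unfold r0
  apply Real.sin_pos_of_pos_of_lt_pi
  · positivity
  · linarith [Real.pi_pos]

theorem r0_lt : r0 < 1 / 2 := by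
  unfold r0
  have h1 : Real.sin (Real.pi / 12) < Real.pi / 12 := Real.sin_lt (by positivity)
  have h2 := Real.pi_lt_four
  linarith

/-- points on the small circle -/
def smc (z : Circle) : Punc p 0 := sgp p hp (polN r0 r0_pos r0_lt z)

theorem smc_zero (z : Circle) : ((smc p hp z).1 : Eu 3) 0 = Real.cos (Real.pi / 12) := by
  show sg (polN r0 r0_pos r0_lt z : Eu 2) 0 = _
  rw [sg3_zero, norm_polN]
  have h1 : 1 - r0 ^ 2 = Real.cos (Real.pi / 12) ^ 2 := by
    unfold r0
    have := Real.sin_sq_add_cos_sq (Real.pi / 12)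
    linarith
  rw [h1, Real.sqrt_sq]
  apply Real.cos_nonneg_of_mem_Icc
  constructor <;> linarith [Real.pi_pos]

theorem smc_one (z : Circle) : ((smc p hp z).1 : Eu 3) 1 = r0 * (z : ℂ).re := rfl

theorem smc_two (z : Circle) : ((smc p hp z).1 : Eu 3) 2 = r0 * (z : ℂ).im := rfl

theorem arc_right (k : ℤ) (h : (p : ℝ) / 24 ∈ Ioo (0 : ℝ) 1) :
    rz p hp k (smc p hp 1) = arc p hp k ⟨p / 24, h⟩ := by
  have hp0 : (p : ℝ) ≠ 0 := by rcases hp with rfl | rfl <;> norm_num
  apply punc_ext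
  rw [arc_coe, rz_coe]
  have h1 : ((smc p hp 1).1 : Eu 3) = core (ee (1 / 24)) := by
    apply eu3_ext
    · rw [smc_zero, core_zero, ee_re]
      congr 1
      ring
    · rw [smc_one, core_one, ee_im, Circle.coe_one, Complex.one_re, mul_one, r0]
      congr 1
      ring
    · rw [smc_two, core_two, Circle.coe_one, Complex.one_im, mul_zero]
  rw [h1, rot_core, ← ee_add]
  congr 2
  field_simp

theorem arc_left (k : ℤ) (h : 1 - (p : ℝ) / 24 ∈ Ioo (0 : ℝ) 1) :
    rz p hp k (smc p hp (ee (1 / 2))) = arc p hp (k - 1) ⟨1 - p / 24, h⟩ := by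
  have hp0 : (p : ℝ) ≠ 0 := by rcases hp with rfl | rfl <;> norm_num
  apply punc_ext
  rw [arc_coe, rz_coe]
  have h1 : ((smc p hp (ee (1 / 2))).1 : Eu 3) = core (ee (-(1 / 24))) := by
    apply eu3_ext
    · rw [smc_zero, core_zero, ee_re, ← Real.cos_neg]
      congr 1
      ring
    · rw [smc_one, core_one, ee_im, ee_re, r0]
      have h2 : 2 * Real.pi * (1 / 2) = Real.pi := by ring
      have h3 : 2 * Real.pi * -(1 / 24) = -(Real.pi / 12) := by ring
      rw [h2, h3, Real.cos_pi, Real.sin_neg]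
      ring
    · rw [smc_two, core_two, ee_im]
      have h2 : 2 * Real.pi * (1 / 2) = Real.pi := by ring
      rw [h2, Real.sin_pi, mul_zero]
  rw [h1, rot_core, ← ee_add]
  congr 2
  push_cast
  field_simp
  ring

theorem continuous_smc : Continuous (smc p hp) := by
  unfold smc
  exact (sgp p hp).continuous.comp (polN r0 r0_pos r0_lt).continuous

/-- the winding number around a puncture in terms of the logarithms on the hemispheres -/
theorem wind_hemi (k : ℤ) (f : C(Punc p 0, Circle)) (u v : C(Punc p 0, ℝ))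
    (hu : ∀ x : Punc p 0, 0 ≤ (x.1 : Eu 3) 2 → f x = Circle.exp (u x))
    (hv : ∀ x : Punc p 0, (x.1 : Eu 3) 2 ≤ 0 → f x = Circle.exp (v x)) (n : ℤ)
    (hn : HasW (((f.comp (rz p hp k)).comp (sgp p hp)).comp ContinuousMap.snd) n) :
    (u - v) (rz p hp k (smc p hp (ee (1 / 2)))) - (u - v) (rz p hp k (smc p hp 1)) =
      2 * Real.pi * n := by
  obtain ⟨g, hg⟩ := hn
  have hg' : ∀ z : Circle, f (rz p hp k (smc p hp z)) =
      z ^ n * Circle.exp (g (0, polN r0 r0_pos r0_lt z)) := by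
    intro z
    rw [← hg]
    show _ = z ^ n * (f (rz p hp k (smc p hp z)) * (etaN (polN r0 r0_pos r0_lt z) ^ n)⁻¹)
    rw [etaN_polN, mul_comm (f _), mul_inv_cancel_left]
  have him : ∀ t : ℝ, ((rz p hp k (smc p hp (ee (t / 2)))).1 : Eu 3) 2 =
      r0 * Real.sin (Real.pi * t) := by
    intro t
    rw [rz_coe, rot3_two, smc_two, ee_im]
    congr 2
    ring
  have hsin : ∀ t : I, 0 ≤ Real.sin (Real.pi * (t : ℝ)) := by
    intro t
    apply Real.sin_nonneg_of_nonneg_of_le_pi
    · exact mul_nonneg Real.pi_pos.le t.2.1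
    · nlinarith [Real.pi_pos, t.2.2]
  have hez : ∀ t : ℝ, ee (t / 2) ^ n = Circle.exp (n * Real.pi * t) := by
    intro t
    rw [ee_zpow]
    unfold ee
    congr 1
    ring
  have hcont : Continuous fun t : ℝ => rz p hp k (smc p hp (ee (t / 2))) :=
    (rz p hp k).continuous.comp ((continuous_smc p hp).comp (by fun_prop))
  have hcont2 : Continuous fun t : ℝ => g (0, polN r0 r0_pos r0_lt (ee (t / 2))) := by fun_prop
  -- upper half
  have h1 := log_unique (X := I)
    ⟨fun t => u (rz p hp k (smc p hp (ee ((t : ℝ) / 2)))), u.continuous.comp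
      (hcont.comp continuous_subtype_val)⟩
    ⟨fun t => n * Real.pi * (t : ℝ) + g (0, polN r0 r0_pos r0_lt (ee ((t : ℝ) / 2))),
      (by fun_prop : Continuous fun t : I => n * Real.pi * (t : ℝ)).add
        (hcont2.comp continuous_subtype_val)⟩ (by
      intro t
      simp only [ContinuousMap.coe_mk]
      rw [← hu _ (by rw [him]; exact mul_nonneg r0_pos.le (hsin t)), hg', hez, Circle.exp_add])
      1 0
  -- lower half
  have h2 := log_unique (X := I)
    ⟨fun t => v (rz p hp k (smc p hp (ee (-(t : ℝ) / 2)))), v.continuous.comp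
      (hcont.comp (by fun_prop : Continuous fun t : I => -(t : ℝ)))⟩
    ⟨fun t => n * Real.pi * (-(t : ℝ)) + g (0, polN r0 r0_pos r0_lt (ee (-(t : ℝ) / 2))),
      (by fun_prop : Continuous fun t : I => n * Real.pi * (-(t : ℝ))).add
        (hcont2.comp (by fun_prop : Continuous fun t : I => -(t : ℝ)))⟩ (by
      intro t
      simp only [ContinuousMap.coe_mk]
      rw [← hv _ (by
        rw [him, mul_neg, Real.sin_neg]
        have := mul_nonneg r0_pos.le (hsin t)
        linarith), hg', hez, Circle.exp_add]) 1 0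
  simp only [ContinuousMap.coe_mk, Set.Icc.coe_one, Set.Icc.coe_zero, neg_zero, zero_div,
    ee_zero, mul_zero, zero_add, mul_one] at h1 h2
  have h3 : ee (-1 / 2) = ee (1 / 2) := by
    rw [ee_eq_iff]
    exact ⟨-1, by norm_num⟩
  rw [h3] at h2
  simp only [ContinuousMap.sub_apply]
  linarith

theorem arc_const (k : ℤ) (f : C(Punc p 0, Circle)) (u v : C(Punc p 0, ℝ))
    (hu : ∀ x : Punc p 0, 0 ≤ (x.1 : Eu 3) 2 → f x = Circle.exp (u x))
    (hv : ∀ x : Punc p 0, (x.1 : Eu 3) 2 ≤ 0 → f x = Circle.exp (v x)) (τ τ' : Ioo (0 : ℝ) 1) :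
    (u - v) (arc p hp k τ) = (u - v) (arc p hp k τ') := by
  have : PreconnectedSpace (Ioo (0 : ℝ) 1) :=
    isPreconnected_iff_preconnectedSpace.1 isPreconnected_Ioo
  have h := log_unique (u.comp (arc p hp k)) (v.comp (arc p hp k)) (by
    intro t
    have h2 : ((arc p hp k t).1 : Eu 3) 2 = 0 := by rw [arc_coe, core_two]
    rw [ContinuousMap.comp_apply, ContinuousMap.comp_apply, ← hu _ h2.ge, ← hv _ h2.le]) τ τ'
  exact h

include hp in
theorem p24_mem : (p : ℝ) / 24 ∈ Ioo (0 : ℝ) 1 := by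
  rcases hp with rfl | rfl <;> constructor <;> norm_num

include hp in
theorem p24_mem' : 1 - (p : ℝ) / 24 ∈ Ioo (0 : ℝ) 1 := by
  rcases hp with rfl | rfl <;> constructor <;> norm_num

/-- the embedding of the neck at the `k`-th puncture -/
def jk (k : ℤ) : C(ℝ × N0, ℝ × Punc p 0) :=
  (ContinuousMap.id ℝ).prodMap ((rz p hp k).comp (sgp p hp))

/-- logarithms on the two hemispheres and the jumps -/
theorem punc_main (F : C(ℝ × Punc p 0, Circle)) (w : ℤ → ℤ)
    (hw : ∀ k, HasW (F.comp (jk p hp k)) (w k)) :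
    ∃ (F₀ : C(Punc p 0, Circle)) (u v : C(Punc p 0, ℝ)) (c : ℤ → ℝ),
      IsExp (F * (F₀.comp ContinuousMap.snd)⁻¹) ∧
      (∀ x : Punc p 0, 0 ≤ (x.1 : Eu 3) 2 → F₀ x = Circle.exp (u x)) ∧
      (∀ x : Punc p 0, (x.1 : Eu 3) 2 ≤ 0 → F₀ x = Circle.exp (v x)) ∧
      (∀ k τ, (u - v) (arc p hp k τ) = c k) ∧
      (∀ k, c (k + p) = c k) ∧ ∀ k, c (k - 1) - c k = 2 * Real.pi * w k := by
  set F₀ : C(Punc p 0, Circle) := F.comp ((ContinuousMap.const _ (0 : ℝ)).prodMk
    (ContinuousMap.id _)) with hF₀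
  have hD : IsExp (F * (F₀.comp ContinuousMap.snd)⁻¹) := by
    have h := isExp_div_of_homotopy (X := ℝ × Punc p 0)
      (F.comp ⟨fun q => ((q.1 : ℝ) * q.2.1, q.2.2), by fun_prop⟩)
    have h1 : (F.comp ⟨fun q : I × ℝ × Punc p 0 => ((q.1 : ℝ) * q.2.1, q.2.2), by fun_prop⟩).comp
        ((ContinuousMap.const _ (1 : I)).prodMk (ContinuousMap.id _)) = F := by
      ext q
      show ((F (((1 : I) : ℝ) * q.1, q.2) : Circle) : ℂ) = F q
      simp
    have h2 : (F.comp ⟨fun q : I × ℝ × Punc p 0 => ((q.1 : ℝ) * q.2.1, q.2.2), by fun_prop⟩).comp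
        ((ContinuousMap.const _ (0 : I)).prodMk (ContinuousMap.id _)) =
        F₀.comp ContinuousMap.snd := by
      ext q
      show ((F (((0 : I) : ℝ) * q.1, q.2) : Circle) : ℂ) = F (0, q.2)
      simp
    rw [h1, h2] at h
    exact h
  obtain ⟨u, hu⟩ := hemi81 p F₀ 1 (Or.inl rfl)
  obtain ⟨v, hv⟩ := hemi81 p F₀ (-1) (Or.inr rfl)
  have hu' : ∀ x : Punc p 0, 0 ≤ (x.1 : Eu 3) 2 → F₀ x = Circle.exp (u x) := fun x hx =>
    hu x (by linarith)
  have hv' : ∀ x : Punc p 0, (x.1 : Eu 3) 2 ≤ 0 → F₀ x = Circle.exp (v x) := fun x hx =>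
    hv x (by linarith)
  have hmid : (1 / 2 : ℝ) ∈ Ioo (0 : ℝ) 1 := by constructor <;> norm_num
  refine ⟨F₀, u, v, fun k => (u - v) (arc p hp k ⟨1 / 2, hmid⟩), hD, hu', hv', ?_, ?_, ?_⟩
  · intro k τ
    exact arc_const p hp k F₀ u v hu' hv' _ _
  · intro k
    simp only
    rw [arc_add]
  · intro k
    simp only
    have hWk : HasW (((F₀.comp (rz p hp k)).comp (sgp p hp)).comp ContinuousMap.snd) (w k) := by
      have h1 := (hw k).mul (hasW_zero (hD.comp (jk p hp k)).inv)
      rw [add_zero] at h1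
      convert h1 using 1
      ext q
      show ((F (0, rz p hp k (sgp p hp q.2)) : Circle) : ℂ) =
        ((F (q.1, rz p hp k (sgp p hp q.2)) * (F (q.1, rz p hp k (sgp p hp q.2)) *
          (F (0, rz p hp k (sgp p hp q.2)))⁻¹)⁻¹ : Circle) : ℂ)
      congr 1
      rw [mul_inv, inv_inv, mul_inv_cancel_left]
    have h2 := wind_hemi p hp k F₀ u v hu' hv' (w k) hWk
    rw [arc_right p hp k (p24_mem p hp), arc_left p hp k (p24_mem' p hp)] at h2
    rw [← h2]
    congr 1
    · exact arc_const p hp _ F₀ u v hu' hv' _ _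
    · exact arc_const p hp _ F₀ u v hu' hv' _ _

theorem punc_sum (F : C(ℝ × Punc p 0, Circle)) (w : ℤ → ℤ)
    (hw : ∀ k, HasW (F.comp (jk p hp k)) (w k)) : ∑ k ∈ Finset.range p, w k = 0 := by
  obtain ⟨F₀, u, v, c, -, -, -, -, h1, h2⟩ := punc_main p hp F w hw
  have h3 : ∑ k ∈ Finset.range p, (2 * Real.pi * (w k : ℝ)) = 0 := by
    have h4 : ∀ k ∈ Finset.range p, 2 * Real.pi * (w k : ℝ) =
        c ((k : ℤ) - 1) - c (((k + 1 : ℕ) : ℤ) - 1) := by
      intro k _
      rw [← h2]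
      push_cast
      rw [add_sub_cancel_right]
    rw [Finset.sum_congr rfl h4, Finset.sum_range_sub' (fun k : ℕ => c ((k : ℤ) - 1))]
    have := h1 (-1)
    push_cast
    rw [sub_eq_zero, ← this]
    have h6 : (-1 + (p : ℤ)) = (p : ℤ) - 1 := by ring
    rw [h6]
  rw [← Finset.mul_sum] at h3
  have h5 : (2 * Real.pi : ℝ) ≠ 0 := by positivity
  have h6 := (mul_eq_zero.1 h3).resolve_left h5
  exact_mod_cast h6

theorem punc_exp (F : C(ℝ × Punc p 0, Circle)) (hw : ∀ k, HasW (F.comp (jk p hp k)) 0) :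
    IsExp F := by
  obtain ⟨F₀, u, v, c, hD, hu, hv, h0, -, h2⟩ := punc_main p hp F (fun _ => 0) hw
  have hp0 : (p : ℝ) ≠ 0 := by rcases hp with rfl | rfl <;> norm_num
  have hc : ∀ k, c k = c 0 := by
    intro k
    induction k using Int.induction_on with
    | zero => rfl
    | succ k ih =>
      have := h2 (k + 1)
      rw [add_sub_cancel_right] at this
      push_cast at this
      linarith
    | pred k ih =>
      have := h2 (-k)
      push_cast at this
      linarith
  have heq : ∀ x : Punc p 0, (x.1 : Eu 3) 2 = 0 → u x - v x = c 0 := by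
    intro x hx
    have h3 : (x.1 : Eu 3) 0 ^ 2 + (x.1 : Eu 3) 1 ^ 2 = 1 := by
      have := norm3 (x.1 : Eu 3)
      rw [norm_eq_of_mem_sphere, hx] at this
      linarith
    set z : Circle := ⟨⟨(x.1 : Eu 3) 0, (x.1 : Eu 3) 1⟩, by
      refine mem_sphere_zero_iff_norm.2 ?_
      rw [← pow_left_inj₀ (norm_nonneg _) zero_le_one two_ne_zero, Complex.sq_norm,
        Complex.normSq_apply]
      simp only
      linarith⟩ with hz
    have hxz : (x.1 : Eu 3) = core z := by
      apply eu3_ext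
      · rw [core_zero]
      · rw [core_one]
      · rw [core_two, hx]
    obtain ⟨t, ht⟩ := ee_surjective z
    have hfr : Int.fract (p * t) ≠ 0 := by
      intro h
      apply x.2 z _ hxz
      rw [← ht, ee_pow]
      have := Int.floor_add_fract ((p : ℝ) * t)
      rw [h, add_zero] at this
      rw [← this, ee_int]
    have hmem : Int.fract (p * t) ∈ Ioo (0 : ℝ) 1 :=
      ⟨lt_of_le_of_ne (Int.fract_nonneg _) (Ne.symm hfr), Int.fract_lt_one _⟩
    have hxa : x = arc p hp ⌊(p : ℝ) * t⌋ ⟨Int.fract (p * t), hmem⟩ := by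
      apply punc_ext
      rw [arc_coe, hxz, ← ht]
      congr 2
      simp only
      rw [Int.floor_add_fract]
      field_simp
    have := h0 ⌊(p : ℝ) * t⌋ ⟨Int.fract (p * t), hmem⟩
    rw [← hxa, hc] at this
    exact this
  obtain ⟨g, hg1, hg2⟩ := glue_closed81 {x : Punc p 0 | 0 ≤ (x.1 : Eu 3) 2}
    {x : Punc p 0 | (x.1 : Eu 3) 2 ≤ 0} (isClosed_le continuous_const (by fun_prop))
    (isClosed_le (by fun_prop) continuous_const) (by
      ext x
      simp only [mem_union, mem_ofPred_eq, mem_univ, iff_true]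
      exact le_total _ _) ⟨fun x => u x, by fun_prop⟩ ⟨fun x => v x + c 0, by fun_prop⟩ (by
      intro x ha hb
      simp only [ContinuousMap.coe_mk]
      have := heq x (le_antisymm hb ha)
      linarith)
  have hF₀ : IsExp F₀ := by
    refine ⟨g, fun x => ?_⟩
    rcases le_total 0 ((x.1 : Eu 3) 2) with h | h
    · have := hg1 ⟨x, h⟩
      simp only [ContinuousMap.coe_mk] at this
      rw [this]
      exact hu x h
    · have h3 := hg2 ⟨x, h⟩
      simp only [ContinuousMap.coe_mk] at h3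
      rw [h3, Circle.exp_add, ← hv x h]
      have hmid : (1 / 2 : ℝ) ∈ Ioo (0 : ℝ) 1 := by constructor <;> norm_num
      have h4 := h0 0 ⟨1 / 2, hmid⟩
      have h5 : ((arc p hp 0 ⟨1 / 2, hmid⟩).1 : Eu 3) 2 = 0 := by rw [arc_coe, core_two]
      have h6 : Circle.exp (c 0) = 1 := by
        rw [← h4, ContinuousMap.sub_apply, Circle.exp_sub, ← hu _ h5.ge, ← hv _ h5.le, div_self']
      rw [h6, mul_one]
  have h7 := hD.mul (hF₀.comp ContinuousMap.snd)
  rwa [inv_mul_cancel_right] at h7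

end Pool.Agent.S1S3
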