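import Pool.Agent.Helper81_S1S3.Alpha

/-!
# The sixth power of the deck transformation
-/

set_option autoImplicit false
set_option linter.unusedSectionVars false

open scoped Manifold Topology unitInterval
open CategoryTheory Set

noncomputable section

namespace Pool.Agent.S1S3

/-- along the line, a function differs from its value at `0` by an exponential -/
theorem isExp_line {X : Type} [TopologicalSpace X] (F : C(ℝ × X, Circle)) :
    ∃ u : C(ℝ × X, ℝ), ∀ s x, F (s, x) * (F (0, x))⁻¹ = Circle.exp (u (s, x)) := by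
  have h := isExp_div_of_homotopy (X := ℝ × X)
    (F.comp ⟨fun q => ((q.1 : ℝ) * q.2.1, q.2.2), by fun_prop⟩)
  obtain ⟨u, hu⟩ := h
  refine ⟨u, fun s x => ?_⟩
  rw [← hu]
  show F (s, x) * (F (0, x))⁻¹ = F (((1 : I) : ℝ) * s, x) * (F (((0 : I) : ℝ) * s, x))⁻¹
  simp

variable {Y : Type} [TopologicalSpace Y] {φ : C(Y, Circle)}

theorem deck_pow_val (n : ℕ) (y : Yt φ) :
    (((deck φ ^ n : Yt φ ≃ₜ Yt φ)) y).1 = (y.1.1, y.1.2 + n) := by
  induction n generalizing y with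
  | zero =>
    rw [pow_zero]
    show y.1 = _
    simp
  | succ n ih =>
    rw [pow_succ]
    show ((deck φ ^ n : Yt φ ≃ₜ Yt φ) (deck φ y)).1 = _
    rw [ih]
    show (y.1.1, y.1.2 + 1 + (n : ℝ)) = _
    push_cast
    rw [add_assoc, add_comm (1 : ℝ)]

theorem Side.deck_six {p q : ℕ} (S : Side φ p q) (k : ℤ) (s : ℝ) (x : Punc p 0) :
    (deck φ ^ 6 : Yt φ ≃ₜ Yt φ) (S.cP k (s, x)) = S.cP k (s + 6, x) := by
  apply Subtype.ext
  rw [deck_pow_val]
  refine Prod.ext ?_ ?_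
  · rw [S.cP_fst, S.cP_fst]
    simp only
    have h : ee ((s + 6 + k) / 6) = ee ((s + k) / 6) := by
      rw [ee_eq_iff]
      exact ⟨1, by push_cast; ring⟩
    rw [h]
  · rw [S.cP_snd]
    simp only
    rw [S.cP_snd]
    norm_num

/-- translation along the line -/
def shft {X : Type} [TopologicalSpace X] (t : ℝ) : C(ℝ × X, ℝ × X) :=
  ⟨fun q => (q.1 + t, q.2), by fun_prop⟩

theorem continuous_twbInv_ee (k : ℤ) (b' : N0) :
    Continuous fun t : ℝ => twbInv (ee ((t + k) / 6)) b' := by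
  have h : Continuous fun t : ℝ => ((ee ((t + k) / 6), b') : Circle × N0) := by fun_prop
  have h2 := continuous_twbInv.comp h
  exact h2

theorem six_A {F : ℝ × N0 → Circle} {g : C(ℝ × N0, ℝ)} {w : ℤ}
    (hF : ∀ s b, F (s, b) = etaN b ^ w * Circle.exp (g (s, b))) (b : N0) (v : C(ℝ, ℝ))
    (hv : ∀ t, F (t, b) * (F (0, b))⁻¹ = Circle.exp (v t)) (t : ℝ) :
    v t - v 0 = g (t, b) - g (0, b) := by
  have := log_unique (X := ℝ) v ⟨fun s => g (s, b) - g (0, b), by fun_prop⟩ (fun t => by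
    simp only [ContinuousMap.coe_mk]
    rw [← hv, hF, hF, Circle.exp_sub, ← div_eq_mul_inv, mul_div_mul_left_eq_div]) t 0
  simp only [ContinuousMap.coe_mk] at this
  linarith

theorem six_B {F : ℝ × N0 → Circle} {g : C(ℝ × N0, ℝ)} {w : ℤ}
    (hF : ∀ s b, F (s, b) = etaN b ^ w * Circle.exp (g (s, b))) (k : ℤ) (b' : N0) (v : C(ℝ, ℝ))
    (hv : ∀ t, F (t, twbInv (ee ((t + k) / 6)) b') * (F (0, twbInv (ee ((0 + k) / 6)) b'))⁻¹ =
      Circle.exp (v t)) (t : ℝ) :
    v t - v 0 = -(w * (2 * Real.pi * (t / 6))) + g (t, twbInv (ee ((t + k) / 6)) b') -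
      g (0, twbInv (ee ((0 + k) / 6)) b') := by
  have hc : Continuous fun t : ℝ => g (t, twbInv (ee ((t + k) / 6)) b') :=
    g.continuous.comp (continuous_id.prodMk (continuous_twbInv_ee k b'))
  have := log_unique (X := ℝ) v
    ⟨fun t => -(w * (2 * Real.pi * (t / 6))) + g (t, twbInv (ee ((t + k) / 6)) b') -
      g (0, twbInv (ee ((0 + k) / 6)) b'),
      ((by fun_prop : Continuous fun t : ℝ => -(w * (2 * Real.pi * (t / 6)))).add hc).sub
        continuous_const⟩ (fun t => by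
      simp only [ContinuousMap.coe_mk]
      rw [← hv, hF, hF, Circle.exp_sub, Circle.exp_add, Circle.exp_neg, etaN_twbInv,
        etaN_twbInv]
      have e3 : Circle.exp (w * (2 * Real.pi * (t / 6))) = ee (t / 6) ^ w := by
        unfold ee
        rw [← Circle.exp_zsmul, zsmul_eq_mul]
      have e4 : ee ((t + k) / 6) = ee (t / 6) * ee ((0 + k) / 6) := by
        rw [← ee_add]
        congr 1
        ring
      rw [e3, e4, mul_zpow, mul_zpow, inv_zpow, inv_zpow, mul_zpow]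
      have e5 : ∀ a c d x y : Circle, (a * c)⁻¹ * d * x * (c⁻¹ * d * y)⁻¹ = a⁻¹ * x / y := by
        intro a c d x y
        rw [div_eq_mul_inv, mul_inv, mul_inv, mul_inv, inv_inv]
        calc a⁻¹ * c⁻¹ * d * x * (c * d⁻¹ * y⁻¹) =
            a⁻¹ * x * y⁻¹ * (c⁻¹ * c) * (d * d⁻¹) := by
              simp only [mul_comm, mul_left_comm, mul_assoc]
          _ = a⁻¹ * x * y⁻¹ := by rw [inv_mul_cancel, mul_inv_cancel, mul_one, mul_one]
      exact e5 _ _ _ _ _) t 0
  simp only [ContinuousMap.coe_mk, zero_div, mul_zero, neg_zero, zero_add] at this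
  simp only [zero_add]
  linarith

theorem hasD_six (G : Cov φ) (f : C(Yt φ, Circle)) :
    HasD G (f.comp ((deck φ ^ 6 : Yt φ ≃ₜ Yt φ) : C(Yt φ, Yt φ)) * f⁻¹) (G.wz f) := by
  have hA := fun k => isExp_line (f.comp (G.A.cP k))
  have hB := fun k => isExp_line (f.comp (G.B.cP k))
  choose gA hgA using hA
  choose gB hgB using hB
  set L := famOfBase gA gB with hL
  have h1 : ∀ k s x, f (G.A.cP k (s, x)) * (f (G.A.cP k (0, x)))⁻¹ =
      Circle.exp (L.FA k (s, x)) := by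
    intro k s x
    have h := (G.fam f).perA_int (k % 3) (k / 3) s x
    have h0 := (G.fam f).perA_int (k % 3) (k / 3) 0 x
    rw [Int.emod_add_mul_ediv] at h h0
    have h' : f (G.A.cP k (s, x)) = f (G.A.cP (k % 3) (s, rz 2 h22 (k / 3) x)) := h
    have h0' : f (G.A.cP k (0, x)) = f (G.A.cP (k % 3) (0, rz 2 h22 (k / 3) x)) := h0
    rw [h', h0']
    exact hgA (k % 3) _ _
  have h2 : ∀ k s x, f (G.B.cP k (s, x)) * (f (G.B.cP k (0, x)))⁻¹ =
      Circle.exp (L.FB k (s, x)) := by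
    intro k s x
    have h := (G.fam f).perB_int (k % 2) (k / 2) s x
    have h0 := (G.fam f).perB_int (k % 2) (k / 2) 0 x
    rw [Int.emod_add_mul_ediv] at h h0
    have h' : f (G.B.cP k (s, x)) = f (G.B.cP (k % 2) (s, rz 3 h33 (k / 2) x)) := h
    have h0' : f (G.B.cP k (0, x)) = f (G.B.cP (k % 2) (0, rz 3 h33 (k / 2) x)) := h0
    rw [h', h0']
    exact hgB (k % 2) _ _
  refine ⟨⟨fun k => (L.FA k).comp (shft 6) - L.FA k, fun k => (L.FB k).comp (shft 6) - L.FB k,
    ?_, ?_⟩, ?_, ?_, ?_⟩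
  · intro k s x
    show L.FA (k + 3) (s + 6, x) - L.FA (k + 3) (s, x) =
      L.FA k (s + 6, rz 2 h22 1 x) - L.FA k (s, rz 2 h22 1 x)
    rw [L.perA, L.perA]
  · intro k s x
    show L.FB (k + 2) (s + 6, x) - L.FB (k + 2) (s, x) =
      L.FB k (s + 6, rz 3 h33 1 x) - L.FB k (s, rz 3 h33 1 x)
    rw [L.perB, L.perB]
  · rintro k ⟨s, x⟩
    show f ((deck φ ^ 6 : Yt φ ≃ₜ Yt φ) (G.A.cP k (s, x))) * (f (G.A.cP k (s, x)))⁻¹ =
      Circle.exp (L.FA k (s + 6, x) - L.FA k (s, x))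
    rw [G.A.deck_six, Circle.exp_sub, ← h1, ← h1, mul_div_mul_right_eq_div, div_eq_mul_inv]
  · rintro k ⟨s, x⟩
    show f ((deck φ ^ 6 : Yt φ ≃ₜ Yt φ) (G.B.cP k (s, x))) * (f (G.B.cP k (s, x)))⁻¹ =
      Circle.exp (L.FB k (s + 6, x) - L.FB k (s, x))
    rw [G.B.deck_six, Circle.exp_sub, ← h2, ← h2, mul_div_mul_right_eq_div, div_eq_mul_inv]
  · rintro k ⟨s, b⟩
    obtain ⟨g, hg⟩ := hasW_iff.1 (G.wz_spec f k)
    set w := G.wz f k with hw
    have hg' : ∀ s b, f (G.nP k (s, b)) = etaN b ^ w * Circle.exp (g (s, b)) := by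
      intro s b
      rw [← hg, mul_comm (f.comp _ _), mul_inv_cancel_left]
      rfl
    -- the first piece
    have hAA := six_A (F := fun q => f (G.nP k q)) hg' b ⟨fun s => L.FA k (s, sgp 2 h22 b),
      by fun_prop⟩ (fun t => h1 k t (sgp 2 h22 b))
    -- the second piece
    obtain ⟨b', hb'⟩ : ∃ b', b' = twb (ee ((s + k) / 6)) b := ⟨_, rfl⟩
    have e0 : ∀ t, f (G.B.cP k (t, sgp 3 h33 b')) =
        f (G.nP k (t, twbInv (ee ((t + k) / 6)) b')) := by
      intro t
      rw [G.nP_B, nB_apply]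
      simp only
      rw [twb_twbInv]
    have hBB := six_B (F := fun q => f (G.nP k q)) hg' k b' ⟨fun s => L.FB k (s, sgp 3 h33 b'),
      by fun_prop⟩ (fun t => by
        simp only [ContinuousMap.coe_mk]
        rw [← e0, ← e0]
        exact h2 k t (sgp 3 h33 b'))
    simp only [ContinuousMap.coe_mk] at hAA hBB
    have h6 : twbInv (ee ((s + 6 + k) / 6)) b' = b := by
      have h : ee ((s + 6 + k) / 6) = ee ((s + k) / 6) := by
        rw [ee_eq_iff]
        exact ⟨1, by push_cast; ring⟩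
      rw [h, hb', twbInv_twb]
    have h7 : twbInv (ee ((s + k) / 6)) b' = b := by
      rw [hb', twbInv_twb]
    have h8 : nB k (s, b) = (s, sgp 3 h33 b') := by
      rw [nB_apply, hb']
    have e1 := hAA (s + 6)
    have e2 := hAA s
    have e3 := hBB (s + 6)
    have e4 := hBB s
    rw [h6] at e3
    rw [h7] at e4
    rw [h8]
    show L.FA k (s + 6, sgp 2 h22 b) - L.FA k (s, sgp 2 h22 b) -
      (L.FB k (s + 6, sgp 3 h33 b') - L.FB k (s, sgp 3 h33 b')) = 2 * Real.pi * w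
    linarith

end Pool.Agent.S1S3
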