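import Pool.Agent.Helper81_S1S3.LogData

/-!
# The winding numbers around the necks
-/

set_option autoImplicit false
set_option linter.unusedSectionVars false

open scoped Manifold Topology unitInterval
open CategoryTheory Set

noncomputable section

namespace Pool.Agent.S1S3

theorem etaN_twbInv (ζ : Circle) (b : N0) : etaN (twbInv ζ b) = ζ⁻¹ * etaN b := by
  have h := etaN_twb ζ (twbInv ζ b)
  rw [twb_twbInv] at h
  rw [h, inv_mul_cancel_left]

theorem norm_twbInv (ζ : Circle) (b : N0) : ‖(twbInv ζ b : Eu 2)‖ = 1 / 2 - ‖(b : Eu 2)‖ :=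
  norm_twInv b.2.1 b.2.2 ζ

theorem hasW_iff {F : C(ℝ × N0, Circle)} {n : ℤ} : HasW F n ↔
    ∃ u : C(ℝ × N0, ℝ), ∀ q, F q * (etaN q.2 ^ n)⁻¹ = Circle.exp (u q) := Iff.rfl

/-- the inverse of the change of coordinates of the neck -/
def tauInv (k : ℤ) : C(ℝ × N0, ℝ × N0) :=
  ⟨fun q => (q.1, twbInv (ee ((q.1 + k) / 6)) q.2), by
    have h : Continuous fun q : ℝ × N0 => ((ee ((q.1 + k) / 6), q.2) : Circle × N0) := by
      fun_prop
    have h2 := continuous_twbInv.comp h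
    exact continuous_fst.prodMk h2⟩

theorem tauInv_apply (k : ℤ) (q : ℝ × N0) :
    tauInv k q = (q.1, twbInv (ee ((q.1 + k) / 6)) q.2) := rfl

theorem nB_tauInv (k : ℤ) (q : ℝ × N0) : nB k (tauInv k q) = (q.1, sgp 3 h33 q.2) := by
  rw [nB_apply, tauInv_apply]
  simp only
  rw [twb_twbInv]

theorem hasW_tauInv {f : C(ℝ × N0, Circle)} {n : ℤ} (hf : HasW f n) (k : ℤ) :
    HasW (f.comp (tauInv k)) n := by
  obtain ⟨u, hu⟩ := hf
  refine ⟨u.comp (tauInv k) + ⟨fun q => -(n * (2 * Real.pi * ((q.1 + k) / 6))), by fun_prop⟩, ?_⟩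
  intro q
  have h1 := hu (tauInv k q)
  have h2 : f (tauInv k q) * ((etaN (tauInv k q).2) ^ n)⁻¹ = Circle.exp (u (tauInv k q)) := h1
  rw [tauInv_apply] at h2
  simp only at h2
  rw [etaN_twbInv, mul_zpow, inv_zpow, mul_inv, inv_inv] at h2
  show f (tauInv k q) * ((etaN q.2) ^ n)⁻¹ = Circle.exp (u (tauInv k q) +
    -(n * (2 * Real.pi * ((q.1 + k) / 6))))
  rw [tauInv_apply, Circle.exp_add, ← h2, Circle.exp_neg]
  have h3 : Circle.exp (n * (2 * Real.pi * ((q.1 + k) / 6))) = ee ((q.1 + k) / 6) ^ n := by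
    unfold ee
    rw [← Circle.exp_zsmul, zsmul_eq_mul]
  rw [h3]
  have h4 : ∀ a b c : Circle, a * c = a * (b * c) * b⁻¹ := by
    intro a b c
    rw [mul_comm b c, ← mul_assoc, mul_inv_cancel_right]
  exact h4 _ _ _

variable {Y : Type} [TopologicalSpace Y] {φ : C(Y, Circle)}

namespace Cov

variable (G : Cov φ)

theorem nP_add (k n : ℤ) : G.nP (k + 6 * n) = G.nP k := by
  refine ContinuousMap.ext fun q => ?_
  rw [nP_A, nP_A, nA_apply]
  have h := G.A.cP_add k (2 * n) q.1 (sgp 2 h22 q.2)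
  have h1 : k + ((3 : ℕ) : ℤ) * (2 * n) = k + 6 * n := by
    push_cast
    ring
  rw [h1] at h
  have h3 : rz 2 G.A.hp (2 * n) (sgp 2 h22 q.2) = sgp 2 h22 q.2 := by
    apply punc_ext
    rw [rz_coe]
    have h2 : (((2 * n : ℤ) : ℝ) / ((2 : ℕ) : ℝ)) = ((n : ℤ) : ℝ) := by
      push_cast
      field_simp
    rw [h2, ee_int, Circle.coe_one, rot_one]
  rw [h, h3]

/-- the winding number around the `k`-th neck -/
def wz (f : C(Yt φ, Circle)) (k : ℤ) : ℤ := (hasW_exists (f.comp (G.nP k))).choose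

theorem wz_spec (f : C(Yt φ, Circle)) (k : ℤ) : HasW (f.comp (G.nP k)) (G.wz f k) :=
  (hasW_exists (f.comp (G.nP k))).choose_spec

theorem wz_eq {f : C(Yt φ, Circle)} {k n : ℤ} (h : HasW (f.comp (G.nP k)) n) : G.wz f k = n :=
  hasW_unique (G.wz_spec f k) h

theorem wz_add (f : C(Yt φ, Circle)) (k n : ℤ) : G.wz f (k + 6 * n) = G.wz f k := by
  apply G.wz_eq
  rw [G.nP_add]
  exact G.wz_spec f k

theorem wz_mul (f g : C(Yt φ, Circle)) (k : ℤ) : G.wz (f * g) k = G.wz f k + G.wz g k := by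
  apply G.wz_eq
  rw [ContinuousMap.mul_comp]
  exact (G.wz_spec f k).mul (G.wz_spec g k)

theorem wz_exp {f : C(Yt φ, Circle)} (hf : IsExp f) (k : ℤ) : G.wz f k = 0 :=
  G.wz_eq (hasW_zero (hf.comp _))

theorem wz_deck (f : C(Yt φ, Circle)) (k : ℤ) :
    G.wz (f.comp (deck φ : C(Yt φ, Yt φ))) k = G.wz f (k - 1) := by
  apply G.wz_eq
  obtain ⟨u, hu⟩ := hasW_iff.1 (G.wz_spec f (k - 1))
  rw [hasW_iff]
  refine ⟨u.comp ⟨fun q => (q.1 + 1, q.2), by fun_prop⟩, fun q => ?_⟩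
  have h1 := hu (q.1 + 1, q.2)
  have h2 : deck φ (G.nP k q) = G.nP (k - 1) (q.1 + 1, q.2) := by
    rw [nP_A, nP_A, nA_apply, nA_apply]
    exact G.A.deck_cP k q.1 _
  have h3 : ((f.comp (deck φ : C(Yt φ, Yt φ))).comp (G.nP k)) q = f (G.nP (k - 1) (q.1 + 1, q.2)) :=
    congrArg f h2
  rw [h3]
  exact h1

theorem jk_A (f : C(Yt φ, Circle)) (k n : ℤ) :
    (f.comp (G.A.cP k)).comp (jk 2 h22 n) = f.comp (G.nP (k + 3 * n)) := by
  ext q
  have h := G.A.cP_add k n q.1 (sgp 2 h22 q.2)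
  show ((f (G.A.cP k (q.1, rz 2 h22 n (sgp 2 h22 q.2))) : Circle) : ℂ) =
    f (G.A.cP (k + 3 * n) (q.1, sgp 2 h22 q.2))
  rw [← h]
  rfl

theorem jk_B (f : C(Yt φ, Circle)) (k n : ℤ) :
    (f.comp (G.B.cP k)).comp (jk 3 h33 n) = (f.comp (G.nP (k + 2 * n))).comp
      (tauInv (k + 2 * n)) := by
  ext q
  have h := G.B.cP_add k n q.1 (sgp 3 h33 q.2)
  show ((f (G.B.cP k (q.1, rz 3 h33 n (sgp 3 h33 q.2))) : Circle) : ℂ) =
    f (G.nP (k + 2 * n) (tauInv (k + 2 * n) q))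
  rw [G.nP_B, nB_tauInv, ← h]
  rfl

theorem wz_three (f : C(Yt φ, Circle)) (k : ℤ) : G.wz f k + G.wz f (k + 3) = 0 := by
  have h := punc_sum 2 h22 (f.comp (G.A.cP k)) (fun n => G.wz f (k + 3 * n)) (fun n => by
    rw [G.jk_A]
    exact G.wz_spec f _)
  rw [Finset.sum_range_succ, Finset.sum_range_one] at h
  simpa using h

theorem wz_two (f : C(Yt φ, Circle)) (k : ℤ) :
    G.wz f k + G.wz f (k + 2) + G.wz f (k + 4) = 0 := by
  have h := punc_sum 3 h33 (f.comp (G.B.cP k)) (fun n => G.wz f (k + 2 * n)) (fun n => by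
    rw [G.jk_B]
    exact hasW_tauInv (G.wz_spec f _) _)
  rw [Finset.sum_range_succ, Finset.sum_range_succ, Finset.sum_range_one] at h
  simpa using h

/-- a function without winding numbers has logarithms on the pieces -/
theorem hasD_of_wz (f : C(Yt φ, Circle)) (hf : ∀ k, G.wz f k = 0) : ∃ d, HasD G f d := by
  apply hasD_of_logs
  · intro k
    apply punc_exp 2 h22
    intro n
    rw [G.jk_A, ← hf (k + 3 * n)]
    exact G.wz_spec f _
  · intro k
    apply punc_exp 3 h33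
    intro n
    rw [G.jk_B, ← hf (k + 2 * n)]
    exact hasW_tauInv (G.wz_spec f _) _

theorem wz_of_hasD {f : C(Yt φ, Circle)} {d : ℤ → ℤ} (hf : HasD G f d) (k : ℤ) :
    G.wz f k = 0 := by
  obtain ⟨L, h1, -, -⟩ := hf
  apply G.wz_eq
  apply hasW_zero
  exact ⟨(L.FA k).comp nA, fun q => h1 k (nA q)⟩

include G in
theorem conn : ConnectedSpace (Yt φ) := by
  obtain ⟨b⟩ : Nonempty N0 := inferInstance
  have hpre : PreconnectedSpace (Yt φ) := by
    refine preconnectedSpace_of_forall_constant fun f hf => ?_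
    have hA : ∀ k x x', f (G.A.cP k x) = f (G.A.cP k x') := fun k x x' =>
      PreconnectedSpace.constant (inferInstance : PreconnectedSpace (ℝ × Punc 2 0))
        (hf.comp (G.A.cP k).continuous)
    have hB : ∀ k x x', f (G.B.cP k x) = f (G.B.cP k x') := fun k x x' =>
      PreconnectedSpace.constant (inferInstance : PreconnectedSpace (ℝ × Punc 3 0))
        (hf.comp (G.B.cP k).continuous)
    have hAB : ∀ k x x', f (G.A.cP k x) = f (G.B.cP k x') := by
      intro k x x'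
      rw [hA k x (nA (0, b)), hB k x' (nB k (0, b)), ← G.nP_A, ← G.nP_B]
    have hA3 : ∀ k n x x', f (G.A.cP (k + 3 * n) x) = f (G.A.cP k x') := by
      rintro k n ⟨s, x⟩ x'
      have h := G.A.cP_add k n s x
      have h' : G.A.cP (k + 3 * n) (s, x) = G.A.cP k (s, rz 2 h22 n x) := h
      rw [h']
      exact hA k _ _
    have hB2 : ∀ k n x x', f (G.B.cP (k + 2 * n) x) = f (G.B.cP k x') := by
      rintro k n ⟨s, x⟩ x'
      have h := G.B.cP_add k n s x
      have h' : G.B.cP (k + 2 * n) (s, x) = G.B.cP k (s, rz 3 h33 n x) := h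
      rw [h']
      exact hB k _ _
    have hall : ∀ k x x', f (G.B.cP k x) = f (G.B.cP 0 x') := by
      intro k x x'
      have e1 := hB2 k (-k) (0, sgp 3 h33 b) x
      have e2 := hAB (k + 2 * -k) (0, sgp 2 h22 b) (0, sgp 3 h33 b)
      -- `f` on `B k` equals `f` on `A (-k)`, hence on `A (2 k)`, hence on `B (2 k)`
      have e3 := hA3 (k + 2 * -k) k (0, sgp 2 h22 b) (0, sgp 2 h22 b)
      have e4 := hAB (k + 2 * -k + 3 * k) (0, sgp 2 h22 b) (0, sgp 3 h33 b)
      have e5 := hB2 0 k (0, sgp 3 h33 b) x'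
      have h6 : k + 2 * -k + 3 * k = 0 + 2 * k := by ring
      rw [h6] at e3 e4
      rw [← e1, ← e2, ← e3, e4, e5]
    have hall2 : ∀ y, f y = f (G.B.cP 0 (0, sgp 3 h33 b)) := by
      intro y
      rcases G.cover y with ⟨k, x, hk⟩ | ⟨k, x, hk⟩
      · rw [hk, hAB k _ (0, sgp 3 h33 b)]
        exact hall k _ _
      · rw [hk]
        exact hall k _ _
    intro x y
    rw [hall2 x, hall2 y]
  exact { toPreconnectedSpace := hpre, toNonempty := ⟨G.B.cP 0 (0, sgp 3 h33 b)⟩ }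

end Cov

end Pool.Agent.S1S3
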