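import Pool.Agent.Helper81_S1S3.Punc

/-!
# Winding numbers on the necks and on the punctured spheres
-/

set_option autoImplicit false
set_option linter.unusedSectionVars false

open scoped Manifold Topology unitInterval
open CategoryTheory Set

noncomputable section

namespace Pool.Agent.S1S3

/-- the angular coordinate on `ℝ × N0` -/
def etaC : C(ℝ × N0, Circle) := etaN.comp ContinuousMap.snd

/-- `f` has winding number `n` around the neck -/
def HasW (f : C(ℝ × N0, Circle)) (n : ℤ) : Prop := IsExp (f * (etaC ^ n)⁻¹)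

theorem hasW_unique {f : C(ℝ × N0, Circle)} {m n : ℤ} (hm : HasW f m) (hn : HasW f n) :
    m = n := by
  have h := hn.inv.mul hm
  have h1 : (f * (etaC ^ n)⁻¹)⁻¹ * (f * (etaC ^ m)⁻¹) = etaC ^ (n - m) := by
    rw [zpow_sub, mul_inv, inv_inv, mul_comm f⁻¹, mul_assoc, inv_mul_cancel_left]
  rw [h1] at h
  have h2 := h.comp (((ContinuousMap.const Circle (0 : ℝ)).prodMk
    (polN (1 / 4) (by norm_num) (by norm_num))))
  have h3 : (etaC ^ (n - m)).comp ((ContinuousMap.const Circle (0 : ℝ)).prodMk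
    (polN (1 / 4) (by norm_num) (by norm_num))) = idC ^ (n - m) := by
    ext z
    show ((etaN (polN (1 / 4) (by norm_num) (by norm_num) z) ^ (n - m) : Circle) : ℂ) =
      (((z ^ (n - m)) : Circle) : ℂ)
    rw [etaN_polN]
  rw [h3] at h2
  have := circle_deg_unique _ h2
  omega

theorem hasW_exists (f : C(ℝ × N0, Circle)) : ∃ n, HasW f n := by
  obtain ⟨n, hn⟩ := circle_deg_exists (f.comp ((ContinuousMap.const Circle (0 : ℝ)).prodMk
    (polN (1 / 4) (by norm_num) (by norm_num))))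
  refine ⟨n, ?_⟩
  -- the homotopy onto the circle
  set H : C(I × (ℝ × N0), ℝ × N0) :=
    ⟨fun q => ((q.1 : ℝ) * q.2.1, ⟨(((q.1 : ℝ) * ‖(q.2.2 : Eu 2)‖ + (1 - q.1) * (1 / 4)) /
      ‖(q.2.2 : Eu 2)‖) • (q.2.2 : Eu 2), by
        have h1 := q.2.2.2.1
        have h2 := q.2.2.2.2
        have h3 := q.1.2.1
        have h4 := q.1.2.2
        have h5 : 0 < (q.1 : ℝ) * ‖(q.2.2 : Eu 2)‖ + (1 - q.1) * (1 / 4) := by
          rcases h3.eq_or_lt with h | h
          · rw [← h]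
            norm_num
          · have : 0 < (q.1 : ℝ) * ‖(q.2.2 : Eu 2)‖ := mul_pos h h1
            have : 0 ≤ (1 - (q.1 : ℝ)) * (1 / 4) := mul_nonneg (by linarith) (by norm_num)
            linarith
        have h6 : (q.1 : ℝ) * ‖(q.2.2 : Eu 2)‖ + (1 - q.1) * (1 / 4) < 1 / 2 := by
          nlinarith
        rw [norm_smul, norm_div, norm_norm, Real.norm_eq_abs, abs_of_pos h5,
          div_mul_cancel₀ _ h1.ne']
        exact ⟨h5, h6⟩⟩), by
      have h : ∀ q : I × (ℝ × N0), ‖(q.2.2 : Eu 2)‖ ≠ 0 := fun q => q.2.2.2.1.ne'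
      refine Continuous.prodMk (by fun_prop) (Continuous.subtype_mk ?_ _)
      refine Continuous.smul (Continuous.div (by fun_prop) (by fun_prop) h) (by fun_prop)⟩ with hH
  have h1 := isExp_div_of_homotopy (f.comp H)
  have h2 : (f.comp H).comp ((ContinuousMap.const _ (1 : I)).prodMk (ContinuousMap.id _)) = f := by
    ext q
    have h3 : H (1, q) = q := by
      refine Prod.ext ?_ (Subtype.ext ?_)
      · show ((1 : I) : ℝ) * q.1 = q.1
        simp
      · show ((((1 : I) : ℝ) * ‖(q.2 : Eu 2)‖ + (1 - ((1 : I) : ℝ)) * (1 / 4)) /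
          ‖(q.2 : Eu 2)‖) • (q.2 : Eu 2) = q.2
        have h4 := q.2.2.1.ne'
        simp only [Set.Icc.coe_one, one_mul, sub_self, zero_mul, add_zero]
        rw [div_self h4, one_smul]
    show ((f (H (1, q)) : Circle) : ℂ) = f q
    rw [h3]
  have h5 : (f.comp H).comp ((ContinuousMap.const _ (0 : I)).prodMk (ContinuousMap.id _)) =
      (f.comp ((ContinuousMap.const Circle (0 : ℝ)).prodMk
        (polN (1 / 4) (by norm_num) (by norm_num)))).comp etaC := by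
    ext q
    have h3 : H (0, q) = (0, polN (1 / 4) (by norm_num) (by norm_num) (etaN q.2)) := by
      refine Prod.ext ?_ ?_
      · show ((0 : I) : ℝ) * q.1 = 0
        simp
      · apply n0_ext
        · rw [norm_polN]
          show ‖((((0 : I) : ℝ) * ‖(q.2 : Eu 2)‖ + (1 - ((0 : I) : ℝ)) * (1 / 4)) /
            ‖(q.2 : Eu 2)‖) • (q.2 : Eu 2)‖ = 1 / 4
          have h4 := q.2.2.1.ne'
          simp only [Set.Icc.coe_zero, zero_mul, sub_zero, one_mul, zero_add]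
          rw [norm_smul, norm_div, norm_norm, div_mul_cancel₀ _ h4]
          norm_num
        · rw [etaN_polN]
          apply Circle.ext
          have h4 := q.2.2.1
          have h6 : ‖((((0 : I) : ℝ) * ‖(q.2 : Eu 2)‖ + (1 - ((0 : I) : ℝ)) * (1 / 4)) /
            ‖(q.2 : Eu 2)‖) • (q.2 : Eu 2)‖ = 1 / 4 := by
            simp only [Set.Icc.coe_zero, zero_mul, sub_zero, one_mul, zero_add]
            rw [norm_smul, norm_div, norm_norm, div_mul_cancel₀ _ h4.ne']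
            norm_num
          apply Complex.ext
          · rw [etaN_re, etaN_re]
            show (((((0 : I) : ℝ) * ‖(q.2 : Eu 2)‖ + (1 - ((0 : I) : ℝ)) * (1 / 4)) /
              ‖(q.2 : Eu 2)‖) • (q.2 : Eu 2)) 0 / ‖((((0 : I) : ℝ) * ‖(q.2 : Eu 2)‖ +
              (1 - ((0 : I) : ℝ)) * (1 / 4)) / ‖(q.2 : Eu 2)‖) • (q.2 : Eu 2)‖ = _
            rw [h6]
            simp only [Set.Icc.coe_zero, zero_mul, sub_zero, one_mul, zero_add,
              PiLp.smul_apply, smul_eq_mul]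
            field_simp
          · rw [etaN_im, etaN_im]
            show (((((0 : I) : ℝ) * ‖(q.2 : Eu 2)‖ + (1 - ((0 : I) : ℝ)) * (1 / 4)) /
              ‖(q.2 : Eu 2)‖) • (q.2 : Eu 2)) 1 / ‖((((0 : I) : ℝ) * ‖(q.2 : Eu 2)‖ +
              (1 - ((0 : I) : ℝ)) * (1 / 4)) / ‖(q.2 : Eu 2)‖) • (q.2 : Eu 2)‖ = _
            rw [h6]
            simp only [Set.Icc.coe_zero, zero_mul, sub_zero, one_mul, zero_add,
              PiLp.smul_apply, smul_eq_mul]
            field_simp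
    show ((f (H (0, q)) : Circle) : ℂ) = f (0, polN (1 / 4) _ _ (etaN q.2))
    rw [h3]
  rw [h2, h5] at h1
  have h6 := h1.mul (hn.comp etaC)
  unfold HasW
  convert h6 using 1
  ext q
  show ((f q * (etaC q ^ n)⁻¹ : Circle) : ℂ) = ((f q * (f (0, polN (1 / 4) _ _ (etaN q.2)))⁻¹ *
    (f (0, polN (1 / 4) _ _ (etaN q.2)) * ((etaN q.2) ^ n)⁻¹) : Circle) : ℂ)
  congr 1
  rw [mul_assoc, inv_mul_cancel_left]
  rfl

theorem HasW.mul {f g : C(ℝ × N0, Circle)} {m n : ℤ} (hf : HasW f m) (hg : HasW g n) :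
    HasW (f * g) (m + n) := by
  have h := IsExp.mul hf hg
  unfold HasW
  convert h using 1
  rw [zpow_add, mul_inv]
  exact mul_mul_mul_comm _ _ _ _

theorem hasW_zero {f : C(ℝ × N0, Circle)} (hf : IsExp f) : HasW f 0 := by
  unfold HasW
  rwa [zpow_zero, inv_one, mul_one]

theorem HasW.isExp {f : C(ℝ × N0, Circle)} (hf : HasW f 0) : IsExp f := by
  unfold HasW at hf
  rwa [zpow_zero, inv_one, mul_one] at hf

/-! ### hemispheres -/

/-- the contraction of a closed hemisphere -/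
theorem hemi_contr (p : ℕ) (sg1 : ℝ) (hs1 : sg1 = 1 ∨ sg1 = -1) :
    ∃ (K : C(I × {x : Punc p 0 | 0 ≤ sg1 * (x.1 : Eu 3) 2},
        {x : Punc p 0 | 0 ≤ sg1 * (x.1 : Eu 3) 2}))
      (x₀ : {x : Punc p 0 | 0 ≤ sg1 * (x.1 : Eu 3) 2}),
      (∀ x, K (0, x) = x₀) ∧ ∀ x, K (1, x) = x := by
  have hs2 : sg1 * sg1 = 1 := by rcases hs1 with rfl | rfl <;> norm_num
  set H : Set (Punc p 0) := {x | 0 ≤ sg1 * (x.1 : Eu 3) 2} with hH
  have hsq : ∀ x : Punc p 0, (x.1 : Eu 3) 0 ^ 2 + (x.1 : Eu 3) 1 ^ 2 + (x.1 : Eu 3) 2 ^ 2 = 1 := by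
    intro x
    rw [← norm3, norm_eq_of_mem_sphere, one_pow]
  set v : I × H → Eu 3 := fun q => WithLp.toLp 2 ![(q.1 : ℝ) * (q.2.1.1 : Eu 3) 0,
    (q.1 : ℝ) * (q.2.1.1 : Eu 3) 1, sg1 * Real.sqrt (1 - (q.1 : ℝ) ^ 2 *
      ((q.2.1.1 : Eu 3) 0 ^ 2 + (q.2.1.1 : Eu 3) 1 ^ 2))] with hv
  have hv0 : ∀ q, v q 0 = (q.1 : ℝ) * (q.2.1.1 : Eu 3) 0 := fun q => rfl
  have hv1 : ∀ q, v q 1 = (q.1 : ℝ) * (q.2.1.1 : Eu 3) 1 := fun q => rfl
  have hv2 : ∀ q, v q 2 = sg1 * Real.sqrt (1 - (q.1 : ℝ) ^ 2 *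
      ((q.2.1.1 : Eu 3) 0 ^ 2 + (q.2.1.1 : Eu 3) 1 ^ 2)) := fun q => rfl
  have hnn : ∀ q : I × H, 0 ≤ 1 - (q.1 : ℝ) ^ 2 *
      ((q.2.1.1 : Eu 3) 0 ^ 2 + (q.2.1.1 : Eu 3) 1 ^ 2) := by
    intro q
    have h1 := hsq q.2.1
    have h2 : (q.1 : ℝ) ^ 2 ≤ 1 := by
      have := q.1.2.1
      have := q.1.2.2
      nlinarith
    have h3 : (q.2.1.1 : Eu 3) 0 ^ 2 + (q.2.1.1 : Eu 3) 1 ^ 2 ≤ 1 := by
      nlinarith [sq_nonneg ((q.2.1.1 : Eu 3) 2)]
    have h4 : 0 ≤ (q.2.1.1 : Eu 3) 0 ^ 2 + (q.2.1.1 : Eu 3) 1 ^ 2 := by positivity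
    nlinarith
  have hvc : Continuous v := by
    refine (PiLp.continuous_toLp 2 _).comp (continuous_pi fun i => ?_)
    fin_cases i
    · show Continuous fun q : I × H => (q.1 : ℝ) * (q.2.1.1 : Eu 3) 0
      fun_prop
    · show Continuous fun q : I × H => (q.1 : ℝ) * (q.2.1.1 : Eu 3) 1
      fun_prop
    · show Continuous fun q : I × H => sg1 * Real.sqrt (1 - (q.1 : ℝ) ^ 2 *
        ((q.2.1.1 : Eu 3) 0 ^ 2 + (q.2.1.1 : Eu 3) 1 ^ 2))
      fun_prop
  have hv_end : ∀ q : I × H, (q.1 : ℝ) = 1 → v q = q.2.1.1 := by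
    intro q hq
    apply eu3_ext
    · rw [hv0, hq, one_mul]
    · rw [hv1, hq, one_mul]
    · rw [hv2, hq]
      have h1 := hsq q.2.1
      have h2 : 1 - (1 : ℝ) ^ 2 * ((q.2.1.1 : Eu 3) 0 ^ 2 + (q.2.1.1 : Eu 3) 1 ^ 2) =
          (sg1 * (q.2.1.1 : Eu 3) 2) ^ 2 := by
        have : (sg1 * (q.2.1.1 : Eu 3) 2) ^ 2 = (sg1 * sg1) * (q.2.1.1 : Eu 3) 2 ^ 2 := by ring
        rw [this, hs2]
        linarith
      rw [h2, Real.sqrt_sq q.2.2, ← mul_assoc, hs2, one_mul]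
  set K : C(I × H, H) := ⟨fun q => ⟨⟨⟨v q, by
      rw [mem_sphere_zero_iff_norm, ← pow_left_inj₀ (norm_nonneg _) zero_le_one two_ne_zero,
        norm3, hv0, hv1, hv2, mul_pow sg1, Real.sq_sqrt (hnn q), sq sg1, hs2]
      ring⟩, by
      intro ζ hζ he
      have he' : v q = core ζ := he
      by_cases hq : (q.1 : ℝ) = 1
      · rw [hv_end q hq] at he'
        exact q.2.1.2 ζ hζ he'
      · have h0 : sg1 * Real.sqrt (1 - (q.1 : ℝ) ^ 2 *
            ((q.2.1.1 : Eu 3) 0 ^ 2 + (q.2.1.1 : Eu 3) 1 ^ 2)) = 0 := by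
          rw [← hv2, he', core_two]
        have h1 : Real.sqrt (1 - (q.1 : ℝ) ^ 2 *
            ((q.2.1.1 : Eu 3) 0 ^ 2 + (q.2.1.1 : Eu 3) 1 ^ 2)) = 0 := by
          rcases mul_eq_zero.1 h0 with h | h
          · rw [h] at hs2
            norm_num at hs2
          · exact h
        rw [Real.sqrt_eq_zero (hnn q)] at h1
        have h2 : (q.1 : ℝ) < 1 := lt_of_le_of_ne q.1.2.2 hq
        have h3 : (q.1 : ℝ) ^ 2 < 1 := by
          have := q.1.2.1
          nlinarith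
        have h4 : (q.2.1.1 : Eu 3) 0 ^ 2 + (q.2.1.1 : Eu 3) 1 ^ 2 ≤ 1 := by
          have := hsq q.2.1
          nlinarith [sq_nonneg ((q.2.1.1 : Eu 3) 2)]
        have h5 : 0 ≤ (q.2.1.1 : Eu 3) 0 ^ 2 + (q.2.1.1 : Eu 3) 1 ^ 2 := by positivity
        nlinarith [sq_nonneg (q.1 : ℝ)]⟩, by
      show 0 ≤ sg1 * v q 2
      rw [hv2, ← mul_assoc, hs2, one_mul]
      exact Real.sqrt_nonneg _⟩, by
    refine Continuous.subtype_mk (Continuous.subtype_mk (Continuous.subtype_mk hvc _) _) _⟩ with hK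
  have hne : Nonempty H := by
    refine ⟨⟨⟨⟨WithLp.toLp 2 ![0, 0, sg1], ?_⟩, ?_⟩, ?_⟩⟩
    · rw [mem_sphere_zero_iff_norm, ← pow_left_inj₀ (norm_nonneg _) zero_le_one two_ne_zero,
        norm3]
      show (0 : ℝ) ^ 2 + 0 ^ 2 + sg1 ^ 2 = 1 ^ 2
      rw [sq sg1, hs2]
      norm_num
    · intro ζ hζ he
      have h0 := congrArg (fun x : Eu 3 => x 2) he
      simp only [core_two] at h0
      have h1 : sg1 = 0 := h0
      rw [h1] at hs2
      norm_num at hs2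
    · show 0 ≤ sg1 * sg1
      rw [hs2]
      exact zero_le_one
  obtain ⟨x₀⟩ := hne
  refine ⟨K, K (0, x₀), ?_, ?_⟩
  · intro x
    apply Subtype.ext
    apply punc_ext
    show v (0, x) = v (0, x₀)
    apply eu3_ext
    · rw [hv0, hv0]
      simp
    · rw [hv1, hv1]
      simp
    · rw [hv2, hv2]
      simp
  · intro x
    apply Subtype.ext
    apply punc_ext
    show v (1, x) = _
    exact hv_end (1, x) rfl

/-- logarithm on a closed hemisphere -/
theorem hemi81 (p : ℕ) (f : C(Punc p 0, Circle)) (sg1 : ℝ)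
    (hs1 : sg1 = 1 ∨ sg1 = -1) :
    ∃ u : C(Punc p 0, ℝ), ∀ x : Punc p 0, 0 ≤ sg1 * (x.1 : Eu 3) 2 → f x = Circle.exp (u x) := by
  set H : Set (Punc p 0) := {x | 0 ≤ sg1 * (x.1 : Eu 3) 2} with hH
  have hHc : IsClosed H := isClosed_le continuous_const (by fun_prop)
  obtain ⟨K, x₀, hK0, hK1⟩ := hemi_contr p sg1 hs1
  have hexp : IsExp (f.comp ⟨Subtype.val, continuous_subtype_val⟩ : C(H, Circle)) :=
    isExp_of_contraction K x₀ hK0 hK1 _
  obtain ⟨u₀, hu₀⟩ := hexp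
  obtain ⟨u, hu⟩ := ContinuousMap.exists_restrict_eq (s := H) hHc u₀
  refine ⟨u, fun x hx => ?_⟩
  have h1 := hu₀ ⟨x, hx⟩
  have h2 : u x = u₀ ⟨x, hx⟩ := by
    rw [← hu]
    rfl
  rw [h2]
  exact h1

end Pool.Agent.S1S3
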